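import Mathlib

set_option autoImplicit false

open Filter Topology MeasureTheory

namespace Pool.Agent.Lib.MP_62a313_nt.LD3

/-- the character `t ↦ exp (i θ t)` -/
noncomputable def ex (θ : ℝ) : ℝ → ℂ := fun t ↦ Complex.exp (((θ * t : ℝ) : ℂ) * Complex.I)

theorem ex_norm (θ t : ℝ) : ‖ex θ t‖ = 1 := Complex.norm_exp_ofReal_mul_I _

theorem ex_mul (θ θ' : ℝ) : ex θ * ex θ' = ex (θ + θ') := by
  funext t
  simp only [ex, Pi.mul_apply, ← Complex.exp_add]
  congr 1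
  push_cast
  ring

theorem ex_cont (θ : ℝ) : Continuous (ex θ) := by
  unfold ex
  fun_prop

/-- trigonometric polynomials with frequencies in `Λ` -/
noncomputable def TP (Λ : AddSubgroup ℝ) : Submodule ℂ (ℝ → ℂ) :=
  Submodule.span ℂ (ex '' (Λ : Set ℝ))

theorem TP_mono {Λ Λ' : AddSubgroup ℝ} (h : Λ ≤ Λ') : TP Λ ≤ TP Λ' :=
  Submodule.span_mono (Set.image_mono h)

theorem ex_mem {Λ : AddSubgroup ℝ} {θ : ℝ} (h : θ ∈ Λ) : ex θ ∈ TP Λ :=
  Submodule.subset_span ⟨θ, h, rfl⟩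

theorem TP_mul {Λ : AddSubgroup ℝ} {P Q : ℝ → ℂ} (hP : P ∈ TP Λ) (hQ : Q ∈ TP Λ) :
    P * Q ∈ TP Λ := by
  refine Submodule.span_induction (p := fun P _ ↦ P * Q ∈ TP Λ) ?_ ?_ ?_ ?_ hP
  · rintro _ ⟨θ, hθ, rfl⟩
    refine Submodule.span_induction (p := fun Q _ ↦ ex θ * Q ∈ TP Λ) ?_ ?_ ?_ ?_ hQ
    · rintro _ ⟨θ', hθ', rfl⟩
      rw [ex_mul]
      exact ex_mem (Λ.add_mem hθ hθ')
    · rw [mul_zero]; exact (TP Λ).zero_mem
    · intro x y _ _ hx hy
      rw [mul_add]; exact (TP Λ).add_mem hx hy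
    · intro c x _ hx
      rw [mul_smul_comm]; exact (TP Λ).smul_mem c hx
  · rw [zero_mul]; exact (TP Λ).zero_mem
  · intro x y _ _ hx hy
    rw [add_mul]; exact (TP Λ).add_mem hx hy
  · intro c x _ hx
    rw [smul_mul_assoc]; exact (TP Λ).smul_mem c hx

theorem TP_cont_bdd {Λ : AddSubgroup ℝ} {P : ℝ → ℂ} (hP : P ∈ TP Λ) :
    Continuous P ∧ ∃ C : ℝ, 0 ≤ C ∧ ∀ t, ‖P t‖ ≤ C := by
  refine Submodule.span_induction
    (p := fun P _ ↦ Continuous P ∧ ∃ C : ℝ, 0 ≤ C ∧ ∀ t, ‖P t‖ ≤ C) ?_ ?_ ?_ ?_ hP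
  · rintro _ ⟨θ, _, rfl⟩
    exact ⟨ex_cont θ, 1, zero_le_one, fun t ↦ (ex_norm θ t).le⟩
  · exact ⟨continuous_const, 0, le_rfl, fun t ↦ by simp⟩
  · rintro x y _ _ ⟨hx, C, hC0, hC⟩ ⟨hy, D, hD0, hD⟩
    exact ⟨hx.add hy, C + D, by positivity, fun t ↦ (norm_add_le _ _).trans (add_le_add (hC t) (hD t))⟩
  · rintro c x _ ⟨hx, C, hC0, hC⟩
    refine ⟨hx.const_smul c, ‖c‖ * C, by positivity, fun t ↦ ?_⟩
    rw [Pi.smul_apply, norm_smul]
    exact mul_le_mul_of_nonneg_left (hC t) (norm_nonneg _)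

/-- `F` has mean value `c` on the half line -/
def HasMean (F : ℝ → ℂ) (c : ℂ) : Prop :=
  Tendsto (fun X : ℝ ↦ (∫ t in (0 : ℝ)..X, F t) / X) atTop (𝓝 c)

theorem HasMean.unique {F : ℝ → ℂ} {c c' : ℂ} (h : HasMean F c) (h' : HasMean F c') : c = c' :=
  tendsto_nhds_unique h h'

theorem HasMean.add {F G : ℝ → ℂ} {c c' : ℂ} (h : HasMean F c) (h' : HasMean G c')
    (hF : ∀ a b, IntervalIntegrable F volume a b) (hG : ∀ a b, IntervalIntegrable G volume a b) :
    HasMean (F + G) (c + c') := by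
  unfold HasMean at *
  refine (h.add h').congr (fun X ↦ ?_)
  rw [← add_div]
  congr 1
  rw [← intervalIntegral.integral_add (hF _ _) (hG _ _)]
  rfl

theorem HasMean.smul {F : ℝ → ℂ} {c : ℂ} (k : ℂ) (h : HasMean F c) : HasMean (k • F) (k * c) := by
  unfold HasMean at *
  refine (h.const_mul k).congr (fun X ↦ ?_)
  rw [← mul_div_assoc]
  congr 1
  rw [← intervalIntegral.integral_const_mul]
  rfl

theorem mean_ex (θ : ℝ) : HasMean (ex θ) (if θ = 0 then 1 else 0) := by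
  unfold HasMean
  split_ifs with h
  · subst h
    refine Tendsto.congr' ?_ tendsto_const_nhds
    filter_upwards [eventually_gt_atTop 0] with X hX
    have h1 : ∀ t : ℝ, ex 0 t = 1 := by intro t; simp [ex]
    simp only [h1]
    rw [intervalIntegral.integral_const]
    have hX' : (X : ℂ) ≠ 0 := by exact_mod_cast hX.ne'
    simp [hX']
  · have hc : ((θ : ℂ) * Complex.I) ≠ 0 := by
      apply mul_ne_zero _ Complex.I_ne_zero
      exact_mod_cast h
    have h1 : ∀ X : ℝ, (∫ t in (0 : ℝ)..X, ex θ t) = (Complex.exp (((θ : ℂ) * Complex.I) * X)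
        - Complex.exp (((θ : ℂ) * Complex.I) * (0 : ℝ))) / ((θ : ℂ) * Complex.I) := by
      intro X
      rw [← integral_exp_mul_complex hc]
      apply intervalIntegral.integral_congr
      intro t _
      simp only [ex]
      congr 1
      push_cast
      ring
    rw [tendsto_zero_iff_norm_tendsto_zero]
    have h2 : ∀ᶠ X : ℝ in atTop, ‖(∫ t in (0 : ℝ)..X, ex θ t) / (X : ℂ)‖ ≤ (2 / |θ|) / X := by
      filter_upwards [eventually_gt_atTop 0] with X hX
      rw [norm_div, Complex.norm_real, Real.norm_of_nonneg hX.le]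
      apply div_le_div_of_nonneg_right _ hX.le
      rw [h1, norm_div, norm_mul, Complex.norm_I, mul_one, Complex.norm_real, Real.norm_eq_abs]
      apply div_le_div_of_nonneg_right _ (abs_nonneg _)
      refine (norm_sub_le _ _).trans ?_
      have h3 : ∀ y : ℝ, ‖Complex.exp (((θ : ℂ) * Complex.I) * y)‖ = 1 := by
        intro y
        have : ((θ : ℂ) * Complex.I) * y = ((θ * y : ℝ) : ℂ) * Complex.I := by push_cast; ring
        rw [this]
        exact Complex.norm_exp_ofReal_mul_I _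
      rw [h3, h3]
      norm_num
    have h4 : Tendsto (fun X : ℝ ↦ (2 / |θ|) / X) atTop (𝓝 0) :=
      tendsto_const_nhds.div_atTop tendsto_id
    exact squeeze_zero' (Eventually.of_forall fun _ ↦ norm_nonneg _) h2 h4

theorem TP_int {Λ : AddSubgroup ℝ} {P : ℝ → ℂ} (hP : P ∈ TP Λ) (a b : ℝ) :
    IntervalIntegrable P volume a b := (TP_cont_bdd hP).1.intervalIntegrable a b

theorem TP_mean {Λ : AddSubgroup ℝ} {P : ℝ → ℂ} (hP : P ∈ TP Λ) : ∃ c, HasMean P c := by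
  refine Submodule.span_induction (p := fun P _ ↦ ∃ c, HasMean P c) ?_ ?_ ?_ ?_ hP
  · rintro _ ⟨θ, _, rfl⟩
    exact ⟨_, mean_ex θ⟩
  · refine ⟨0, ?_⟩
    unfold HasMean
    simp
  · rintro x y hx' hy' ⟨c, hc⟩ ⟨d, hd⟩
    exact ⟨c + d, hc.add hd (TP_int hx') (TP_int hy')⟩
  · rintro k x _ ⟨c, hc⟩
    exact ⟨k * c, hc.smul k⟩

theorem TP_mean_mul {Λ Λ' : AddSubgroup ℝ} (hd : ∀ x ∈ Λ, x ∈ Λ' → x = 0) {P Q : ℝ → ℂ}
    (hP : P ∈ TP Λ) (hQ : Q ∈ TP Λ') : ∃ a b, HasMean P a ∧ HasMean Q b ∧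
      HasMean (P * Q) (a * b) := by
  have hint : ∀ x ∈ TP Λ, ∀ s t : ℝ, IntervalIntegrable (x * Q) volume s t := by
    intro x hx s t
    exact ((TP_cont_bdd hx).1.mul (TP_cont_bdd hQ).1).intervalIntegrable s t
  refine Submodule.span_induction (p := fun P _ ↦ ∃ a b, HasMean P a ∧ HasMean Q b ∧
      HasMean (P * Q) (a * b)) ?_ ?_ ?_ ?_ hP
  · rintro _ ⟨θ, hθ, rfl⟩
    have hint' : ∀ y ∈ TP Λ', ∀ s t : ℝ, IntervalIntegrable (ex θ * y) volume s t := by
      intro y hy s t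
      exact ((ex_cont θ).mul (TP_cont_bdd hy).1).intervalIntegrable s t
    refine ⟨(if θ = 0 then 1 else 0), ?_⟩
    refine Submodule.span_induction (p := fun Q _ ↦ ∃ b, HasMean (ex θ) (if θ = 0 then 1 else 0) ∧
      HasMean Q b ∧ HasMean (ex θ * Q) ((if θ = 0 then 1 else 0) * b)) ?_ ?_ ?_ ?_ hQ
    · rintro _ ⟨θ', hθ', rfl⟩
      refine ⟨_, mean_ex θ, mean_ex θ', ?_⟩
      rw [ex_mul]
      have h1 := mean_ex (θ + θ')
      convert h1 using 1
      by_cases h0 : θ = 0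
      · subst h0; simp
      · have h2 : θ + θ' ≠ 0 := by
          intro h3
          apply h0
          apply hd θ hθ
          have : θ = - θ' := by linarith
          rw [this]
          exact Λ'.neg_mem hθ'
        simp [h0, h2]
    · refine ⟨0, mean_ex θ, ?_, ?_⟩
      · unfold HasMean; simp
      · unfold HasMean; simp
    · rintro x y hx' hy' ⟨b, h1, h2, h3⟩ ⟨b', h1', h2', h3'⟩
      refine ⟨b + b', h1, h2.add h2' (TP_int hx') (TP_int hy'), ?_⟩
      rw [mul_add, mul_add]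
      exact h3.add h3' (hint' x hx') (hint' y hy')
    · rintro k x _ ⟨b, h1, h2, h3⟩
      refine ⟨k * b, h1, h2.smul k, ?_⟩
      have h4 := h3.smul k
      rw [mul_smul_comm]
      convert h4 using 1
      ring
  · obtain ⟨b, hb⟩ := TP_mean hQ
    refine ⟨0, b, ?_, hb, ?_⟩
    · unfold HasMean; simp
    · unfold HasMean; simp
  · rintro x y hx' hy' ⟨a, b, h1, h2, h3⟩ ⟨a', b', h1', h2', h3'⟩
    have hbb : b = b' := h2.unique h2'
    subst hbb
    refine ⟨a + a', b, h1.add h1' (TP_int hx') (TP_int hy'), h2, ?_⟩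
    rw [add_mul, add_mul]
    exact h3.add h3' (hint x hx') (hint y hy')
  · rintro k x _ ⟨a, b, h1, h2, h3⟩
    refine ⟨k * a, b, h1.smul k, h2, ?_⟩
    have h4 := h3.smul k
    rw [smul_mul_assoc]
    convert h4 using 1
    ring

end Pool.Agent.Lib.MP_62a313_nt.LD3
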