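import Mathlib
import Pool.Agent.Lib.MP_62a313_nt.LD3.Trig

set_option autoImplicit false

open Filter Topology MeasureTheory

namespace Pool.Agent.Lib.MP_62a313_nt.LD3

theorem bdd_int {E : Type*} [NormedAddCommGroup E] [MeasurableSpace E] [BorelSpace E]
    [SecondCountableTopology E] {F : ℝ → E} (hF : Measurable F) {C : ℝ} (hC : ∀ t, ‖F t‖ ≤ C)
    (a b : ℝ) : IntervalIntegrable F volume a b := by
  rw [intervalIntegrable_iff]
  refine Measure.integrableOn_of_bounded (M := C) ?_ hF.aestronglyMeasurable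
    (ae_of_all _ hC)
  rw [Set.uIoc]
  exact measure_Ioc_lt_top.ne

theorem exists_limit {α E : Type*} [NormedAddCommGroup E] [CompleteSpace E] {l : Filter α}
    [l.NeBot] {x : α → E}
    (h : ∀ ε : ℝ, 0 < ε → ∃ (y : α → E) (c : E), Tendsto y l (𝓝 c) ∧ ∀ᶠ X in l, ‖x X - y X‖ ≤ ε) :
    ∃ d, Tendsto x l (𝓝 d) := by
  have hc : Cauchy (map x l) := by
    rw [Metric.cauchy_iff]
    refine ⟨inferInstance, fun ε hε ↦ ?_⟩
    obtain ⟨y, c, hy, hxy⟩ := h (ε / 8) (by positivity)
    refine ⟨Metric.ball c (ε / 2), ?_, ?_⟩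
    · rw [mem_map]
      have h1 : ∀ᶠ X in l, dist (y X) c < ε / 8 := Metric.tendsto_nhds.mp hy _ (by positivity)
      filter_upwards [h1, hxy] with X h2 h3
      rw [Set.mem_preimage, Metric.mem_ball]
      calc dist (x X) c ≤ dist (x X) (y X) + dist (y X) c := dist_triangle _ _ _
        _ < ε / 2 := by
          rw [dist_eq_norm (x X)]
          linarith
    · intro u hu v hv
      rw [Metric.mem_ball] at hu hv
      calc dist u v ≤ dist u c + dist c v := dist_triangle _ _ _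
        _ < ε := by
          rw [dist_comm c v]
          linarith
  obtain ⟨d, hd⟩ := cauchy_iff_exists_le_nhds.mp hc
  exact ⟨d, hd⟩

theorem mean_close {F P : ℝ → ℂ} {a b : ℂ} {ε : ℝ} (hF : HasMean F a) (hP : HasMean P b)
    (iF : ∀ s t, IntervalIntegrable F volume s t) (iP : ∀ s t, IntervalIntegrable P volume s t)
    (h : ∀ᶠ X : ℝ in atTop, ∫ t in (0 : ℝ)..X, ‖F t - P t‖ ≤ ε * X) : ‖a - b‖ ≤ ε := by
  have h1 := (hF.sub hP).norm
  refine le_of_tendsto h1 ?_
  filter_upwards [h, eventually_gt_atTop 0] with X hX hX0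
  rw [← sub_div, norm_div, Complex.norm_real, Real.norm_of_nonneg hX0.le, div_le_iff₀ hX0,
    ← intervalIntegral.integral_sub (iF _ _) (iP _ _)]
  exact (intervalIntegral.norm_integral_le_integral_norm hX0.le).trans hX

/-- the step function on the real line attached to a sequence -/
noncomputable def st (u : ℕ → ℂ) : ℝ → ℂ := fun t ↦ u ⌊Real.exp t⌋₊

theorem st_meas (u : ℕ → ℂ) : Measurable (st u) :=
  (measurable_from_nat).comp (Nat.measurable_floor.comp Real.measurable_exp)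

/-- `u` is approximated in logarithmic mean by trigonometric polynomials with frequencies in `Λ` -/
structure AP (Λ : AddSubgroup ℝ) (u : ℕ → ℂ) : Prop where
  bdd : ∃ C : ℝ, 0 ≤ C ∧ ∀ n, ‖u n‖ ≤ C
  approx : ∀ ε : ℝ, 0 < ε → ∃ P ∈ TP Λ, ∀ᶠ X : ℝ in atTop,
    ∫ t in (0 : ℝ)..X, ‖st u t - P t‖ ≤ ε * X

theorem AP.int {Λ : AddSubgroup ℝ} {u : ℕ → ℂ} (h : AP Λ u) (a b : ℝ) :
    IntervalIntegrable (st u) volume a b := by
  obtain ⟨C, _, hC⟩ := h.bdd
  exact bdd_int (st_meas u) (fun t ↦ hC _) a b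

theorem AP.int' {Λ : AddSubgroup ℝ} {u : ℕ → ℂ} (h : AP Λ u) {P : ℝ → ℂ} (hP : P ∈ TP Λ)
    (a b : ℝ) : IntervalIntegrable (fun t ↦ ‖st u t - P t‖) volume a b :=
  ((h.int a b).sub (TP_int hP a b)).norm

theorem AP.mono {Λ Λ' : AddSubgroup ℝ} {u : ℕ → ℂ} (h : AP Λ u) (hl : Λ ≤ Λ') : AP Λ' u :=
  ⟨h.bdd, fun ε hε ↦ by
    obtain ⟨P, hP, h1⟩ := h.approx ε hε
    exact ⟨P, TP_mono hl hP, h1⟩⟩

theorem AP.exists_mean {Λ : AddSubgroup ℝ} {u : ℕ → ℂ} (h : AP Λ u) : ∃ c, HasMean (st u) c := by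
  unfold HasMean
  apply exists_limit
  intro ε hε
  obtain ⟨P, hP, h1⟩ := h.approx ε hε
  obtain ⟨c, hc⟩ := TP_mean hP
  refine ⟨_, c, hc, ?_⟩
  filter_upwards [h1, eventually_gt_atTop 0] with X hX hX0
  rw [← sub_div, norm_div, Complex.norm_real, Real.norm_of_nonneg hX0.le, div_le_iff₀ hX0,
    ← intervalIntegral.integral_sub (h.int _ _) (TP_int hP _ _)]
  exact (intervalIntegral.norm_integral_le_integral_norm hX0.le).trans hX

theorem AP.add {Λ : AddSubgroup ℝ} {u v : ℕ → ℂ} (hu : AP Λ u) (hv : AP Λ v) : AP Λ (u + v) := by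
  constructor
  · obtain ⟨C, hC0, hC⟩ := hu.bdd
    obtain ⟨D, hD0, hD⟩ := hv.bdd
    exact ⟨C + D, by positivity, fun n ↦ (norm_add_le _ _).trans (add_le_add (hC n) (hD n))⟩
  · intro ε hε
    obtain ⟨P, hP, h1⟩ := hu.approx (ε / 2) (by positivity)
    obtain ⟨Q, hQ, h2⟩ := hv.approx (ε / 2) (by positivity)
    refine ⟨P + Q, (TP Λ).add_mem hP hQ, ?_⟩
    filter_upwards [h1, h2, eventually_gt_atTop 0] with X hX1 hX2 hX0
    have h3 : ∫ t in (0 : ℝ)..X, ‖st (u + v) t - (P + Q) t‖ ≤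
        ∫ t in (0 : ℝ)..X, (‖st u t - P t‖ + ‖st v t - Q t‖) := by
      apply intervalIntegral.integral_mono_on hX0.le
      · have h4 : (fun t ↦ ‖st (u + v) t - (P + Q) t‖) =
            fun t ↦ ‖(st u t - P t) + (st v t - Q t)‖ := by
          funext t
          congr 1
          simp only [st, Pi.add_apply]
          ring
        rw [h4]
        exact (((hu.int _ _).sub (TP_int hP _ _)).add ((hv.int _ _).sub (TP_int hQ _ _))).norm
      · exact (hu.int' hP _ _).add (hv.int' hQ _ _)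
      · intro t _
        have h4 : st (u + v) t - (P + Q) t = (st u t - P t) + (st v t - Q t) := by
          simp only [st, Pi.add_apply]
          ring
        rw [h4]
        exact norm_add_le _ _
    rw [intervalIntegral.integral_add (hu.int' hP _ _) (hv.int' hQ _ _)] at h3
    linarith

theorem AP.smul {Λ : AddSubgroup ℝ} {u : ℕ → ℂ} (k : ℂ) (hu : AP Λ u) : AP Λ (k • u) := by
  constructor
  · obtain ⟨C, hC0, hC⟩ := hu.bdd
    refine ⟨‖k‖ * C, by positivity, fun n ↦ ?_⟩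
    rw [Pi.smul_apply, norm_smul]
    exact mul_le_mul_of_nonneg_left (hC n) (norm_nonneg _)
  · intro ε hε
    have hk : 0 < ‖k‖ + 1 := by positivity
    obtain ⟨P, hP, h1⟩ := hu.approx (ε / (‖k‖ + 1)) (by positivity)
    refine ⟨k • P, (TP Λ).smul_mem k hP, ?_⟩
    filter_upwards [h1, eventually_gt_atTop 0] with X hX1 hX0
    have h4 : ∀ t, ‖st (k • u) t - (k • P) t‖ = ‖k‖ * ‖st u t - P t‖ := by
      intro t
      rw [← norm_mul]
      congr 1
      simp only [st, Pi.smul_apply, smul_eq_mul]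
      ring
    simp only [h4]
    rw [intervalIntegral.integral_const_mul]
    calc ‖k‖ * ∫ t in (0 : ℝ)..X, ‖st u t - P t‖ ≤ (‖k‖ + 1) * (ε / (‖k‖ + 1) * X) := by
          apply mul_le_mul (by linarith) hX1 _ hk.le
          exact intervalIntegral.integral_nonneg hX0.le (fun t _ ↦ norm_nonneg _)
      _ = ε * X := by field_simp

theorem AP.const (Λ : AddSubgroup ℝ) (k : ℂ) : AP Λ (fun _ ↦ k) := by
  constructor
  · exact ⟨‖k‖, norm_nonneg _, fun _ ↦ le_rfl⟩
  · intro ε hε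
    have h0 : ex 0 ∈ TP Λ := ex_mem Λ.zero_mem
    refine ⟨k • ex 0, (TP Λ).smul_mem k h0, ?_⟩
    filter_upwards [eventually_gt_atTop 0] with X hX0
    have h4 : ∀ t, ‖st (fun _ ↦ k) t - (k • ex 0) t‖ = 0 := by
      intro t
      simp [st, ex]
    simp only [h4]
    simp only [intervalIntegral.integral_zero]
    positivity

/-- the estimate behind the product rule -/
theorem prod_est {u v : ℕ → ℂ} {Λ Λ' : AddSubgroup ℝ} (hu : AP Λ u) (hv : AP Λ' v) {C D ε : ℝ}
    (hC0 : 0 ≤ C) (hC : ∀ n, ‖v n‖ ≤ C) {P Q : ℝ → ℂ} (hP : P ∈ TP Λ) (hQ : Q ∈ TP Λ')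
    (hD0 : 0 ≤ D) (hD : ∀ t, ‖P t‖ ≤ D)
    (h1 : ∀ᶠ X : ℝ in atTop, ∫ t in (0 : ℝ)..X, ‖st u t - P t‖ ≤ ε / (2 * (C + 1)) * X)
    (h2 : ∀ᶠ X : ℝ in atTop, ∫ t in (0 : ℝ)..X, ‖st v t - Q t‖ ≤ ε / (2 * (D + 1)) * X) :
    ∀ᶠ X : ℝ in atTop, ∫ t in (0 : ℝ)..X, ‖st (u * v) t - (P * Q) t‖ ≤ ε * X := by
  filter_upwards [h1, h2, eventually_gt_atTop 0] with X hX1 hX2 hX0
  have hcP := (TP_cont_bdd hP).1
  have hcQ := (TP_cont_bdd hQ).1
  obtain ⟨CQ, _, hCQ⟩ := (TP_cont_bdd hQ).2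
  obtain ⟨Cu, hCu0, hCu⟩ := hu.bdd
  have h3 : ∫ t in (0 : ℝ)..X, ‖st (u * v) t - (P * Q) t‖ ≤
      ∫ t in (0 : ℝ)..X, (C * ‖st u t - P t‖ + D * ‖st v t - Q t‖) := by
    apply intervalIntegral.integral_mono_on hX0.le
    · have hm : Measurable (fun t ↦ ‖st (u * v) t - (P * Q) t‖) :=
        ((st_meas _).sub (hcP.mul hcQ).measurable).norm
      refine bdd_int (C := Cu * C + D * CQ) hm (fun t ↦ ?_) _ _
      rw [norm_norm]
      refine (norm_sub_le _ _).trans ?_
      apply add_le_add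
      · simp only [st, Pi.mul_apply, norm_mul]
        exact mul_le_mul (hCu _) (hC _) (norm_nonneg _) hCu0
      · simp only [Pi.mul_apply, norm_mul]
        exact mul_le_mul (hD _) (hCQ _) (norm_nonneg _) hD0
    · exact ((hu.int' hP _ _).const_mul C).add ((hv.int' hQ _ _).const_mul D)
    · intro t _
      have h4 : st (u * v) t - (P * Q) t = (st u t - P t) * st v t + P t * (st v t - Q t) := by
        simp only [st, Pi.mul_apply]
        ring
      rw [h4]
      refine (norm_add_le _ _).trans ?_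
      rw [norm_mul, norm_mul]
      apply add_le_add
      · rw [mul_comm C]
        exact mul_le_mul_of_nonneg_left (hC _) (norm_nonneg _)
      · exact mul_le_mul_of_nonneg_right (hD _) (norm_nonneg _)
  rw [intervalIntegral.integral_add ((hu.int' hP _ _).const_mul C) ((hv.int' hQ _ _).const_mul D),
    intervalIntegral.integral_const_mul, intervalIntegral.integral_const_mul] at h3
  have h5 : C * ∫ t in (0 : ℝ)..X, ‖st u t - P t‖ ≤ (C + 1) * (ε / (2 * (C + 1)) * X) := by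
    apply mul_le_mul (by linarith) hX1 _ (by linarith)
    exact intervalIntegral.integral_nonneg hX0.le (fun t _ ↦ norm_nonneg _)
  have h6 : D * ∫ t in (0 : ℝ)..X, ‖st v t - Q t‖ ≤ (D + 1) * (ε / (2 * (D + 1)) * X) := by
    apply mul_le_mul (by linarith) hX2 _ (by linarith)
    exact intervalIntegral.integral_nonneg hX0.le (fun t _ ↦ norm_nonneg _)
  have h7 : (C + 1) * (ε / (2 * (C + 1)) * X) = ε / 2 * X := by field_simp
  have h8 : (D + 1) * (ε / (2 * (D + 1)) * X) = ε / 2 * X := by field_simp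
  linarith

theorem AP.mul {Λ : AddSubgroup ℝ} {u v : ℕ → ℂ} (hu : AP Λ u) (hv : AP Λ v) : AP Λ (u * v) := by
  constructor
  · obtain ⟨C, hC0, hC⟩ := hu.bdd
    obtain ⟨D, hD0, hD⟩ := hv.bdd
    refine ⟨C * D, by positivity, fun n ↦ ?_⟩
    rw [Pi.mul_apply, norm_mul]
    exact mul_le_mul (hC n) (hD n) (norm_nonneg _) hC0
  · intro ε hε
    obtain ⟨C, hC0, hC⟩ := hv.bdd
    obtain ⟨P, hP, h1⟩ := hu.approx (ε / (2 * (C + 1))) (by positivity)
    obtain ⟨D, hD0, hD⟩ := (TP_cont_bdd hP).2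
    obtain ⟨Q, hQ, h2⟩ := hv.approx (ε / (2 * (D + 1))) (by positivity)
    exact ⟨P * Q, TP_mul hP hQ, prod_est hu hv hC0 hC hP hQ hD0 hD h1 h2⟩

theorem AP.mean_mul {Λ Λ' : AddSubgroup ℝ} (hd : ∀ x ∈ Λ, x ∈ Λ' → x = 0) {u v : ℕ → ℂ}
    (hu : AP Λ u) (hv : AP Λ' v) {a b : ℂ} (ha : HasMean (st u) a) (hb : HasMean (st v) b) :
    HasMean (st (u * v)) (a * b) := by
  have huv : AP (Λ ⊔ Λ') (u * v) := (hu.mono le_sup_left).mul (hv.mono le_sup_right)
  obtain ⟨c, hc⟩ := huv.exists_mean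
  obtain ⟨C, hC0, hC⟩ := hv.bdd
  have key : ∀ ε : ℝ, 0 < ε → ‖c - a * b‖ ≤ ε := by
    intro ε0 hε0
    set ε : ℝ := ε0 / (2 * (‖b‖ + 2)) with hε
    have hb2 : 0 < 2 * (‖b‖ + 2) := by positivity
    have hεpos : 0 < ε := by positivity
    obtain ⟨P, hP, h1⟩ := hu.approx (ε / (2 * (C + 1))) (by positivity)
    obtain ⟨D, hD0, hD⟩ := (TP_cont_bdd hP).2
    obtain ⟨Q, hQ, h2⟩ := hv.approx (ε / (2 * (D + 1))) (by positivity)
    obtain ⟨aP, bQ, haP, hbQ, hPQ⟩ := TP_mean_mul hd hP hQ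
    have h3 := prod_est hu hv hC0 hC hP hQ hD0 hD h1 h2
    have hPQint : ∀ s t, IntervalIntegrable (P * Q) volume s t := fun s t ↦
      ((TP_cont_bdd hP).1.mul (TP_cont_bdd hQ).1).intervalIntegrable s t
    have h4 := mean_close hc hPQ huv.int hPQint h3
    have h5 := mean_close ha haP hu.int (TP_int hP) h1
    have h6 := mean_close hb hbQ hv.int (TP_int hQ) h2
    have hnaP : ‖aP‖ ≤ D := by
      have h7 := haP.norm
      refine le_of_tendsto h7 ?_
      filter_upwards [eventually_gt_atTop 0] with X hX0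
      rw [norm_div, Complex.norm_real, Real.norm_of_nonneg hX0.le, div_le_iff₀ hX0]
      have h8 := intervalIntegral.norm_integral_le_of_norm_le_const (a := (0 : ℝ)) (b := X)
        (f := P) (C := D) (fun t _ ↦ hD t)
      rw [sub_zero, abs_of_pos hX0] at h8
      exact h8
    have h9 : c - a * b = (c - aP * bQ) - (aP * (b - bQ) + (a - aP) * b) := by ring
    rw [h9]
    have h10 : ‖aP * (b - bQ)‖ ≤ ε := by
      rw [norm_mul]
      calc ‖aP‖ * ‖b - bQ‖ ≤ (D + 1) * (ε / (2 * (D + 1))) := by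
            apply mul_le_mul (by linarith) h6 (norm_nonneg _) (by linarith)
        _ = ε / 2 := by field_simp
        _ ≤ ε := by linarith
    have h11 : ‖(a - aP) * b‖ ≤ ε * ‖b‖ := by
      rw [norm_mul]
      apply mul_le_mul_of_nonneg_right _ (norm_nonneg _)
      refine h5.trans ?_
      rw [div_le_iff₀ (by positivity)]
      nlinarith
    calc ‖(c - aP * bQ) - (aP * (b - bQ) + (a - aP) * b)‖
        ≤ ‖c - aP * bQ‖ + ‖aP * (b - bQ) + (a - aP) * b‖ := norm_sub_le _ _
      _ ≤ ε + (ε + ε * ‖b‖) := add_le_add h4 ((norm_add_le _ _).trans (add_le_add h10 h11))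
      _ = ε * (‖b‖ + 2) := by ring
      _ = ε0 / 2 := by rw [hε]; field_simp
      _ ≤ ε0 := by linarith
  have hz : ‖c - a * b‖ ≤ 0 := by
    apply le_of_forall_pos_le_add
    intro ε hε
    have := key ε hε
    linarith
  have hz' : c = a * b := by
    rw [norm_le_zero_iff, sub_eq_zero] at hz
    exact hz
  rw [← hz']
  exact hc

/-- `ℓ n = log (1 + 1 / n)` -/
noncomputable def ell (n : ℕ) : ℝ := Real.log (n + 1) - Real.log n

theorem st_integral (u : ℕ → ℂ) (N : ℕ) :
    ∫ t in (0 : ℝ)..Real.log (N + 1), st u t = ∑ n ∈ Finset.Icc 1 N, u n * (ell n : ℂ) := by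
  have hint : ∀ a b : ℝ, IntervalIntegrable (st u) volume a b := by
    intro s t
    obtain ⟨M, hM⟩ : ∃ M : ℕ, Real.exp (max s t) < M := exists_nat_gt _
    have hm : Measurable (fun x : ℝ ↦ if x ≤ max s t then st u x else 0) := by
      apply Measurable.ite _ (st_meas u) measurable_const
      exact measurableSet_le measurable_id measurable_const
    obtain ⟨C, hC⟩ : ∃ C : ℝ, ∀ n ∈ Finset.range (M + 1), ‖u n‖ ≤ C :=
      ⟨∑ n ∈ Finset.range (M + 1), ‖u n‖, fun n hn ↦
        Finset.single_le_sum (f := fun n ↦ ‖u n‖) (fun i _ ↦ norm_nonneg _) hn⟩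
    have hC0 : 0 ≤ C := (norm_nonneg _).trans (hC 0 (by simp))
    have h1 : IntervalIntegrable (fun x : ℝ ↦ if x ≤ max s t then st u x else 0)
        volume s t := by
      refine bdd_int (C := C) hm (fun x ↦ ?_) s t
      split_ifs with hx'
      · apply hC
        rw [Finset.mem_range]
        have h2 : Real.exp x ≤ M := (Real.exp_le_exp.mpr hx').trans hM.le
        have h5 : ⌊Real.exp x⌋₊ ≤ M := by
          have h6 := Nat.floor_le_floor h2
          rwa [Nat.floor_natCast] at h6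
        omega
      · simpa using hC0
    refine h1.congr ?_
    intro x hx'
    have h8 : x ≤ max s t := by
      rw [Set.uIoc, Set.mem_Ioc] at hx'
      exact hx'.2
    simp only [h8, if_true]
  induction N with
  | zero => simp
  | succ N ih =>
    rw [Finset.sum_Icc_succ_top (by omega), ← ih,
      ← intervalIntegral.integral_add_adjacent_intervals (hint 0 (Real.log (N + 1))) (hint _ _)]
    congr 1
    have hle : Real.log ((N : ℝ) + 1) ≤ Real.log (((N + 1 : ℕ) : ℝ) + 1) := by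
      apply Real.log_le_log (by positivity)
      push_cast
      linarith
    rw [intervalIntegral.integral_congr_Ioo_of_le (g := fun _ ↦ u (N + 1)) hle]
    · rw [intervalIntegral.integral_const]
      rw [Complex.real_smul, mul_comm]
      congr 2
      unfold ell
      push_cast
      ring
    · intro t ht
      rw [Set.mem_Ioo] at ht
      simp only [st]
      congr 1
      rw [Nat.floor_eq_iff (Real.exp_pos _).le]
      constructor
      · have h1 := Real.exp_le_exp.mpr ht.1.le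
        rw [Real.exp_log (by positivity)] at h1
        push_cast
        exact h1
      · have h1 := Real.exp_lt_exp.mpr ht.2
        rw [Real.exp_log (by positivity)] at h1
        exact h1

end Pool.Agent.Lib.MP_62a313_nt.LD3
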