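import Mathlib
import Pool.Prelude.Def_F_7546141c

set_option autoImplicit false

open Filter Topology

namespace Pool.Agent.Lib.MP_62a313_nt.LD3

/-- The digits `1 ≤ k < p` for which `p` divides the numerator of the harmonic number `H_k`. -/
def Z (p : ℕ) : Finset ℕ :=
  (Finset.Icc 1 (p - 1)).filter (fun k ↦ (p : ℤ) ∣ (harmonic k).num)

/-- The logarithmic weight of the prime `p`: the sum of `log (1 + 1 / k) / log p` over `k ∈ Z p`
(and `0` if `p` is not prime). -/
noncomputable def w (p : ℕ) : ℝ :=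
  if p.Prime then (∑ k ∈ Z p, Real.log (1 + 1 / k)) / Real.log p else 0

open Classical in
/-- `A` has logarithmic density `d`: the sum of `1 / n` over `n ∈ A`, `1 ≤ n ≤ N`, divided by
`log N`, tends to `d`. -/
def HasLogDensity (A : Set ℕ) (d : ℝ) : Prop :=
  Tendsto (fun N : ℕ ↦ (∑ n ∈ (Finset.Icc 1 N).filter (fun n ↦ n ∈ A), (1 : ℝ) / n) / Real.log N)
    atTop (𝓝 d)

/-- The proportion of the integers `1 ≤ n ≤ N` such that fewer than `r` primes divide
`gcd (a n) (L n)`; for `r = 1` this is the quantity of Q1. -/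
noncomputable def s (r N : ℕ) : ℝ :=
  (((Finset.Icc 1 N).filter (fun n ↦ (Nat.gcd (Nbb67e70a.a n) (Nbb67e70a.L n)).primeFactors.card
    < r)).card : ℝ) / N

end Pool.Agent.Lib.MP_62a313_nt.LD3
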