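import Mathlib
import Pool.Agent.Lib.MP_62a313_nt.Blocks5
import Pool.Agent.Lib.MP_62a313_nt.LD3.Defs

set_option autoImplicit false

open Nbb67e70a

namespace Pool.Agent.Lib.MP_62a313_nt.LD3

theorem H_eq (k : ℕ) : H k = harmonic k := by
  unfold H harmonic
  rw [Finset.range_eq_Ico, Finset.sum_Ico_add' (fun i : ℕ ↦ ((i : ℚ))⁻¹) 0 k 1]
  have h1 : Finset.Ico (0 + 1) (k + 1) = Finset.Icc 1 k := by
    ext x; simp only [Finset.mem_Ico, Finset.mem_Icc]; omega
  rw [h1]
  simp [one_div]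

theorem norm_iff {p k : ℕ} (hp : p.Prime) (hk : 1 ≤ k) :
    padicNorm p (H k) < 1 ↔ (p : ℤ) ∣ (harmonic k).num := by
  have : Fact p.Prime := ⟨hp⟩
  constructor
  · intro h
    have h1 := num_of_norm hp hk h
    rw [H_eq] at h1
    exact Int.natCast_dvd.mpr (Nat.dvd_of_mem_primeFactors h1)
  · intro h7
    rw [H_eq]
    set q := harmonic k with hq
    have h8 : padicNorm p (q.num : ℚ) < 1 := (padicNorm.int_lt_one_iff q.num).mpr h7
    have h9 : padicNorm p (q.den : ℚ) = 1 := by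
      rw [padicNorm.nat_eq_one_iff]
      intro hd
      have hc := q.reduced
      have : p ∣ 1 := by
        rw [← hc.gcd_eq_one]
        exact Nat.dvd_gcd (Int.natCast_dvd.mp h7) hd
      exact hp.one_lt.ne' (Nat.dvd_one.mp this)
    have h10 : q = q.num / q.den := (Rat.num_div_den q).symm
    rw [h10, padicNorm.div, h9, div_one]
    exact h8

theorem L_eq (n : ℕ) : L n = Nat.lcmUpto n := rfl

theorem mem_Z {p k : ℕ} : k ∈ Z p ↔ (1 ≤ k ∧ k ≤ p - 1) ∧ (p : ℤ) ∣ (harmonic k).num := by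
  unfold Z
  rw [Finset.mem_filter, Finset.mem_Icc]

/-- Steinerberger's criterion. -/
theorem crit {p n : ℕ} (hp : p.Prime) (hn : 1 ≤ n) :
    p ∈ (Nat.gcd (a n) (L n)).primeFactors ↔ p ≤ n ∧ n / p ^ (Nat.log p n) ∈ Z p := by
  have hF : Fact p.Prime := ⟨hp⟩
  have hn0 : n ≠ 0 := by omega
  set j := Nat.log p n with hj
  have hpj : 0 < p ^ j := pow_pos hp.pos j
  have hlo : p ^ j ≤ n := Nat.pow_log_le_self p hn0
  have hhi : n < p ^ (j + 1) := Nat.lt_pow_succ_log_self hp.one_lt n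
  have hm1 : 1 ≤ n / p ^ j := Nat.div_pos hlo hpj
  have hmp : n / p ^ j ≤ p - 1 := by
    have h1 : n / p ^ j < p := by
      rw [Nat.div_lt_iff_lt_mul hpj]
      rw [pow_succ] at hhi
      rwa [mul_comm]
    have := hp.pos
    omega
  constructor
  · intro h
    have hdvd := Nat.dvd_of_mem_primeFactors h
    have hdL : p ∣ L n := hdvd.trans (Nat.gcd_dvd_right _ _)
    have hda : p ∣ a n := hdvd.trans (Nat.gcd_dvd_left _ _)
    have hpn : p ≤ n := by
      have h1 : p ∈ (Nat.lcmUpto n).primeFactors := by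
        rw [Nat.mem_primeFactors]
        exact ⟨hp, hdL, Nat.lcmUpto_ne_zero n⟩
      rw [Nat.primeFactors_lcmUpto] at h1
      exact Nat.le_of_mem_primesLE h1
    refine ⟨hpn, ?_⟩
    rw [mem_Z]
    refine ⟨⟨hm1, hmp⟩, ?_⟩
    rw [← norm_iff hp hm1]
    have hfac : (L n).factorization p = j := by
      rw [L_eq, Nat.factorization_lcmUpto n hp]
    have hdv : p ^ j ∣ L n := dvd_L hpj hlo
    obtain ⟨u, hu⟩ := hdv
    have hu0 : ¬ p ∣ u := by
      intro hpu
      have h1 : p ^ (j + 1) ∣ L n := by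
        rw [hu, pow_succ]
        exact Nat.mul_dvd_mul_left _ hpu
      have h2 := (hp.pow_dvd_iff_le_factorization (L_pos n).ne').mp h1
      omega
    have hnu : padicNorm p (u : ℚ) = 1 := (padicNorm.nat_eq_one_iff u).mpr hu0
    have hna : padicNorm p (a n : ℚ) < 1 := (padicNorm.nat_lt_one_iff (a n)).mpr hda
    have h1 : padicNorm p ((p : ℚ) ^ j * H n) < 1 := by
      have h2 : (a n : ℚ) = (u : ℚ) * ((p : ℚ) ^ j * H n) := by
        rw [a_eq, hu]; push_cast; ring
      rw [h2, padicNorm.mul, hnu, one_mul] at hna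
      exact hna
    have h3 := norm_sub (p := p) j n
    have h4 : H (n / p ^ j) = (p : ℚ) ^ j * H n - ((p : ℚ) ^ j * H n - H (n / p ^ j)) := by ring
    rw [h4]
    calc padicNorm p ((p : ℚ) ^ j * H n - ((p : ℚ) ^ j * H n - H (n / p ^ j)))
        ≤ max (padicNorm p ((p : ℚ) ^ j * H n)) (padicNorm p ((p : ℚ) ^ j * H n - H (n / p ^ j))) :=
          padicNorm.sub
      _ < 1 := max_lt h1 h3
  · rintro ⟨hpn, hZ⟩
    have hj1 : 1 ≤ j := by
      rw [hj]
      exact Nat.log_pos hp.one_lt hpn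
    rw [mem_Z] at hZ
    have h2 := prime_dvd (p := p) (j := j) (n := n) (m := n / p ^ j) hj1 rfl hm1
      ((norm_iff hp hm1).mpr hZ.2)
    rw [Nat.mem_primeFactors]
    exact ⟨hp, h2, (Nat.gcd_pos_of_pos_right _ (L_pos n)).ne'⟩

end Pool.Agent.Lib.MP_62a313_nt.LD3
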