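import Mathlib
import Pool.Agent.Lib.MP_62a313_nt.LD3.AP

set_option autoImplicit false

open Filter Topology MeasureTheory

namespace Pool.Agent.Lib.MP_62a313_nt.LD3

/-- a bounded measurable periodic function is approximated in mean over a period by a
trigonometric polynomial of the same period -/
theorem exists_TP_approx {T : ℝ} (hT : 0 < T) {h : ℝ → ℂ} (hm : Measurable h) {C : ℝ}
    (hC : ∀ t, ‖h t‖ ≤ C) (hper : Function.Periodic h T) {ε : ℝ} (hε : 0 < ε) :
    ∃ P ∈ TP (AddSubgroup.zmultiples (2 * Real.pi / T)), Function.Periodic P T ∧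
      ∫ t in (0 : ℝ)..T, ‖h t - P t‖ ≤ ε := by
  have hFact : Fact (0 < T) := ⟨hT⟩
  let F : AddCircle T → ℂ := hper.lift
  have hF : ∀ t : ℝ, F (t : AddCircle T) = h t := fun t ↦ hper.lift_coe t
  have hFm : Measurable F := by
    rw [QuotientAddGroup.measurable_from_quotient]
    exact hm
  have hFC : ∀ x, ‖F x‖ ≤ C := by
    intro x
    induction x using QuotientAddGroup.induction_on with
    | H t => rw [hF]; exact hC t
  have hmem : MemLp F 1 (@AddCircle.haarAddCircle T _) :=
    MemLp.of_bound hFm.aestronglyMeasurable C (ae_of_all _ hFC)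
  have hdense := span_fourierLp_closure_eq_top (T := T) (p := 1) ENNReal.one_ne_top
  have hmem2 : hmem.toLp F ∈ (Submodule.span ℂ (Set.range (@fourierLp T _ 1 _))).topologicalClosure := by
    rw [hdense]; trivial
  rw [← SetLike.mem_coe, Submodule.topologicalClosure_coe, Metric.mem_closure_iff] at hmem2
  obtain ⟨G, hG, hGd⟩ := hmem2 (ε / T) (by positivity)
  have hspan : (Submodule.span ℂ (Set.range (@fourierLp T _ 1 _))) =
      (Submodule.span ℂ (Set.range (@fourier T))).map
        (ContinuousMap.toLp (E := ℂ) 1 (@AddCircle.haarAddCircle T _) ℂ).toLinearMap := by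
    rw [Submodule.map_span]
    congr 1
    ext x
    simp [fourierLp]
  rw [hspan, SetLike.mem_coe, Submodule.mem_map] at hG
  obtain ⟨g, hg, rfl⟩ := hG
  refine ⟨fun t ↦ g (t : AddCircle T), ?_, ?_, ?_⟩
  · refine Submodule.span_induction (p := fun g _ ↦ (fun t : ℝ ↦ g (t : AddCircle T)) ∈
      TP (AddSubgroup.zmultiples (2 * Real.pi / T))) ?_ ?_ ?_ ?_ hg
    · rintro _ ⟨n, rfl⟩
      have h1 : (fun t : ℝ ↦ fourier n (t : AddCircle T)) = ex ((n : ℝ) * (2 * Real.pi / T)) := by
        funext t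
        rw [fourier_coe_apply]
        unfold ex
        congr 1
        push_cast
        ring
      rw [h1]
      apply ex_mem
      rw [AddSubgroup.mem_zmultiples_iff]
      exact ⟨n, by rw [zsmul_eq_mul]⟩
    · exact (TP _).zero_mem
    · intro x y _ _ hx hy
      exact (TP _).add_mem hx hy
    · intro c x _ hx
      exact (TP _).smul_mem c hx
  · intro t
    have : ((t + T : ℝ) : AddCircle T) = (t : AddCircle T) := by
      rw [AddCircle.coe_add_period]
    simp only [this]
  · have h1 := AddCircle.intervalIntegral_preimage T 0 (fun x ↦ ‖F x - g x‖)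
    rw [zero_add] at h1
    simp only [hF] at h1
    rw [h1]
    have h2 := AddCircle.integral_haarAddCircle (T := T) (f := fun x ↦ ‖F x - g x‖)
    rw [L1.dist_eq_integral_dist] at hGd
    have h3 : ∫ x, dist ((hmem.toLp F) x) ((ContinuousMap.toLp (E := ℂ) 1
        (@AddCircle.haarAddCircle T _) ℂ).toLinearMap g x) ∂(@AddCircle.haarAddCircle T _) =
        ∫ x, ‖F x - g x‖ ∂(@AddCircle.haarAddCircle T _) := by
      apply integral_congr_ae
      filter_upwards [hmem.coeFn_toLp, ContinuousMap.coeFn_toLp (p := 1) (𝕜 := ℂ)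
        (@AddCircle.haarAddCircle T _) g] with x hx1 hx2
      rw [hx1, dist_eq_norm]
      congr 2
    rw [h3, h2, smul_eq_mul, inv_mul_lt_iff₀ hT] at hGd
    have h4 : T * (ε / T) = ε := by field_simp
    rw [h4] at hGd
    exact hGd.le

theorem per_upper {T : ℝ} (hT : 0 < T) {g : ℝ → ℝ} (hg0 : ∀ t, 0 ≤ g t)
    (hper : Function.Periodic g T) (hint : ∀ a b, IntervalIntegrable g volume a b) {Y : ℝ}
    (hY : T ≤ Y) : ∫ t in T..Y, g t ≤ (Y / T) * ∫ t in (0 : ℝ)..T, g t := by
  set n : ℕ := ⌈(Y - T) / T⌉₊ with hn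
  have hn1 : (Y - T) / T ≤ n := Nat.le_ceil _
  have hn2 : (n : ℝ) < (Y - T) / T + 1 := Nat.ceil_lt_add_one (by
    apply div_nonneg _ hT.le
    linarith)
  have hI : 0 ≤ ∫ t in (0 : ℝ)..T, g t := intervalIntegral.integral_nonneg hT.le (fun t _ ↦ hg0 t)
  have h1 := hper.intervalIntegral_add_zsmul_eq (n : ℤ) T hint
  rw [zsmul_eq_mul, zsmul_eq_mul, hper.intervalIntegral_add_eq T 0, zero_add] at h1
  have h2 : Y ≤ T + ((n : ℤ) : ℝ) * T := by
    rw [div_le_iff₀ hT] at hn1
    push_cast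
    linarith
  have h3 : ∫ t in T..Y, g t ≤ ∫ t in T..(T + ((n : ℤ) : ℝ) * T), g t :=
    intervalIntegral.integral_mono_interval le_rfl hY h2 (ae_of_all _ hg0) (hint _ _)
  rw [h1] at h3
  refine h3.trans ?_
  apply mul_le_mul_of_nonneg_right _ hI
  push_cast
  have h4 : (Y - T) / T + 1 = Y / T := by field_simp; ring
  linarith

theorem per_lower {T : ℝ} (hT : 0 < T) {g : ℝ → ℝ} (hg0 : ∀ t, 0 ≤ g t)
    (hper : Function.Periodic g T) (hint : ∀ a b, IntervalIntegrable g volume a b) {Y : ℝ}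
    (hY : T ≤ Y) : (Y / T - 2) * ∫ t in (0 : ℝ)..T, g t ≤ ∫ t in T..Y, g t := by
  set n : ℕ := ⌊(Y - T) / T⌋₊ with hn
  have hn0 : 0 ≤ (Y - T) / T := by
    apply div_nonneg _ hT.le
    linarith
  have hn1 : (n : ℝ) ≤ (Y - T) / T := Nat.floor_le hn0
  have hn2 : (Y - T) / T < n + 1 := Nat.lt_floor_add_one _
  have hI : 0 ≤ ∫ t in (0 : ℝ)..T, g t := intervalIntegral.integral_nonneg hT.le (fun t _ ↦ hg0 t)
  have h1 := hper.intervalIntegral_add_zsmul_eq (n : ℤ) T hint
  rw [zsmul_eq_mul, zsmul_eq_mul, hper.intervalIntegral_add_eq T 0, zero_add] at h1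
  have h2 : T + ((n : ℤ) : ℝ) * T ≤ Y := by
    rw [le_div_iff₀ hT] at hn1
    push_cast
    linarith
  have h3 : ∫ t in T..(T + ((n : ℤ) : ℝ) * T), g t ≤ ∫ t in T..Y, g t :=
    intervalIntegral.integral_mono_interval le_rfl (by
      push_cast
      have : 0 ≤ (n : ℝ) * T := by positivity
      linarith) h2 (ae_of_all _ hg0) (hint _ _)
  rw [h1] at h3
  refine le_trans ?_ h3
  apply mul_le_mul_of_nonneg_right _ hI
  push_cast
  have h4 : (Y - T) / T + 1 = Y / T := by field_simp; ring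
  linarith

/-- the periodic function attached to the leading digit -/
noncomputable def per (T : ℝ) (z : ℕ → ℂ) : ℝ → ℂ :=
  fun t ↦ z ⌊Real.exp (Int.fract (t / T) * T)⌋₊

theorem per_meas (T : ℝ) (z : ℕ → ℂ) : Measurable (per T z) := by
  unfold per
  have h1 : Measurable (fun t : ℝ ↦ Int.fract (t / T) * T) :=
    ((measurable_fract).comp (measurable_id.div_const T)).mul_const T
  exact (measurable_from_nat).comp (Nat.measurable_floor.comp (Real.measurable_exp.comp h1))

theorem per_periodic {T : ℝ} (hT : 0 < T) (z : ℕ → ℂ) : Function.Periodic (per T z) T := by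
  intro t
  unfold per
  have h1 : (t + T) / T = t / T + 1 := by field_simp
  rw [h1, Int.fract_add_one]

theorem per_eq {p : ℕ} (hp : p.Prime) (z : ℕ → ℂ) {t : ℝ} (ht : 0 ≤ t) :
    per (Real.log p) z t = z (⌊Real.exp t⌋₊ / p ^ (Nat.log p ⌊Real.exp t⌋₊)) := by
  have hT : 0 < Real.log p := Real.log_pos (by exact_mod_cast hp.one_lt)
  have hp0 : (0 : ℝ) < p := by exact_mod_cast hp.pos
  set n := ⌊Real.exp t⌋₊ with hn
  have hn1 : 1 ≤ n := by
    rw [hn]
    apply Nat.le_floor
    push_cast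
    exact Real.one_le_exp ht
  set j := Nat.log p n with hj
  have hlo : p ^ j ≤ n := Nat.pow_log_le_self p (by omega)
  have hhi : n < p ^ (j + 1) := Nat.lt_pow_succ_log_self hp.one_lt n
  have hnle : (n : ℝ) ≤ Real.exp t := Nat.floor_le (Real.exp_pos t).le
  have hnlt : Real.exp t < n + 1 := Nat.lt_floor_add_one _
  have hpj : (0 : ℝ) < (p : ℝ) ^ j := by positivity
  have hexpj : Real.exp (j * Real.log p) = (p : ℝ) ^ j := by
    rw [← Real.log_pow, Real.exp_log hpj]
  have h1 : (j : ℝ) * Real.log p ≤ t := by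
    rw [← Real.exp_le_exp, hexpj]
    refine le_trans ?_ hnle
    exact_mod_cast hlo
  have h2 : t < (j + 1) * Real.log p := by
    rw [← Real.exp_lt_exp]
    have h3 : Real.exp ((j + 1) * Real.log p) = (p : ℝ) ^ (j + 1) := by
      have : ((j : ℝ) + 1) = ((j + 1 : ℕ) : ℝ) := by push_cast; ring
      rw [this, ← Real.log_pow, Real.exp_log (by positivity)]
    rw [h3]
    refine lt_of_lt_of_le hnlt ?_
    exact_mod_cast hhi
  have hfl : ⌊t / Real.log p⌋ = (j : ℤ) := by
    rw [Int.floor_eq_iff]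
    push_cast
    constructor
    · rwa [le_div_iff₀ hT]
    · rwa [div_lt_iff₀ hT]
  have hfr : Int.fract (t / Real.log p) * Real.log p = t - j * Real.log p := by
    rw [Int.fract, hfl]
    push_cast
    field_simp
  unfold per
  rw [hfr, Real.exp_sub, hexpj]
  congr 1
  have h5 : ((p : ℝ) ^ j) = ((p ^ j : ℕ) : ℝ) := by push_cast; ring
  rw [h5, Nat.floor_div_natCast]

end Pool.Agent.Lib.MP_62a313_nt.LD3
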