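import Mathlib
import Pool.Agent.Lib.MP_62a313_nt.LD3.Crit
import Pool.Agent.Lib.MP_62a313_nt.LD3.Per

set_option autoImplicit false

open Filter Topology MeasureTheory
open Nbb67e70a

namespace Pool.Agent.Lib.MP_62a313_nt.LD3

/-- a real sequence as a complex one -/
noncomputable def cR (u : ℕ → ℝ) : ℕ → ℂ := fun n ↦ (u n : ℂ)

/-- logarithmic mean up to `N` with the weights `log (1 + 1 / n)` -/
noncomputable def m (u : ℕ → ℝ) (N : ℕ) : ℝ :=
  (∑ n ∈ Finset.Icc 1 N, u n * ell n) / Real.log (N + 1)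

theorem ell_nonneg (n : ℕ) (hn : 1 ≤ n) : 0 ≤ ell n := by
  unfold ell
  have h0 : (0 : ℝ) < n := by exact_mod_cast hn
  have := Real.log_le_log h0 (by linarith : (n : ℝ) ≤ n + 1)
  linarith

theorem ell_eq (n : ℕ) (hn : 1 ≤ n) : ell n = Real.log (1 + 1 / n) := by
  unfold ell
  have h0 : (0 : ℝ) < n := by exact_mod_cast hn
  rw [← Real.log_div (by positivity) h0.ne']
  congr 1
  field_simp

theorem m_cast (u : ℕ → ℝ) (N : ℕ) :
    ((m u N : ℝ) : ℂ) = (∫ t in (0 : ℝ)..Real.log (N + 1), st (cR u) t) / (Real.log (N + 1) : ℝ) := by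
  rw [st_integral]
  unfold m cR
  push_cast
  rfl

theorem log_tendsto : Tendsto (fun N : ℕ ↦ Real.log ((N : ℝ) + 1)) atTop atTop := by
  apply Real.tendsto_log_atTop.comp
  exact tendsto_atTop_add_const_right _ _ tendsto_natCast_atTop_atTop

theorem mean_m {u : ℕ → ℝ} {c : ℂ} (h : HasMean (st (cR u)) c) :
    Tendsto (fun N ↦ ((m u N : ℝ) : ℂ)) atTop (𝓝 c) := by
  have h1 := h.comp log_tendsto
  refine h1.congr (fun N ↦ ?_)
  rw [m_cast]
  rfl

theorem mean_real {u : ℕ → ℝ} {c : ℂ} (h : HasMean (st (cR u)) c) :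
    ∃ r : ℝ, c = r ∧ Tendsto (m u) atTop (𝓝 r) := by
  have h1 := mean_m h
  have h2 : Tendsto (m u) atTop (𝓝 c.re) := by
    have h3 := (Complex.continuous_re.tendsto c).comp h1
    refine h3.congr (fun N ↦ ?_)
    simp
  refine ⟨c.re, ?_, h2⟩
  exact tendsto_nhds_unique h1 ((Complex.continuous_ofReal.tendsto _).comp h2)

theorem AP.m_exists {Λ : AddSubgroup ℝ} {u : ℕ → ℝ} (h : AP Λ (cR u)) :
    ∃ r : ℝ, HasMean (st (cR u)) r ∧ Tendsto (m u) atTop (𝓝 r) := by
  obtain ⟨c, hc⟩ := h.exists_mean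
  obtain ⟨r, rfl, hr⟩ := mean_real hc
  exact ⟨r, hc, hr⟩

theorem AP.hasMean {Λ : AddSubgroup ℝ} {u : ℕ → ℝ} (h : AP Λ (cR u)) {r : ℝ}
    (hr : Tendsto (m u) atTop (𝓝 r)) : HasMean (st (cR u)) r := by
  obtain ⟨r', h1, h2⟩ := h.m_exists
  rw [tendsto_nhds_unique hr h2]
  exact h1

theorem cR_mul (u v : ℕ → ℝ) : cR (u * v) = cR u * cR v := by
  funext n
  simp [cR]

theorem AP.m_mul {Λ Λ' : AddSubgroup ℝ} (hd : ∀ x ∈ Λ, x ∈ Λ' → x = 0) {u v : ℕ → ℝ}
    (hu : AP Λ (cR u)) (hv : AP Λ' (cR v)) {a b : ℝ} (ha : Tendsto (m u) atTop (𝓝 a))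
    (hb : Tendsto (m v) atTop (𝓝 b)) : Tendsto (m (u * v)) atTop (𝓝 (a * b)) := by
  have h1 := AP.mean_mul hd hu hv (hu.hasMean ha) (hv.hasMean hb)
  rw [← cR_mul] at h1
  obtain ⟨r, hr, h2⟩ := mean_real h1
  have : a * b = r := by exact_mod_cast hr
  rw [this]
  exact h2

/-- the indicator of `p ∣ gcd (a n) (L n)` -/
noncomputable def fp (p n : ℕ) : ℝ := if p ∈ (Nat.gcd (a n) (L n)).primeFactors then 1 else 0

theorem fp_nonneg (p n : ℕ) : 0 ≤ fp p n := by unfold fp; split_ifs <;> norm_num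

theorem fp_le_one (p n : ℕ) : fp p n ≤ 1 := by unfold fp; split_ifs <;> norm_num

theorem fp_zero {p n : ℕ} (hp : p.Prime) (hn : n < p) : fp p n = 0 := by
  unfold fp
  rw [if_neg]
  intro h
  rcases Nat.eq_zero_or_pos n with h0 | h0
  · subst h0
    have h1 := Nat.dvd_of_mem_primeFactors h
    have h2 : p ∣ 1 := by
      have h3 := h1.trans (Nat.gcd_dvd_right _ _)
      simpa [L] using h3
    exact hp.one_lt.ne' (Nat.dvd_one.mp h2)
  · have h1 := (crit hp h0).mp h
    omega

/-- the indicator of `Z p` -/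
noncomputable def zp (p k : ℕ) : ℂ := if k ∈ Z p then 1 else 0

theorem st_fp {p : ℕ} (hp : p.Prime) {t : ℝ} (ht : Real.log p ≤ t) :
    st (cR (fp p)) t = per (Real.log p) (zp p) t := by
  have hT : 0 < Real.log p := Real.log_pos (by exact_mod_cast hp.one_lt)
  rw [per_eq hp _ (hT.le.trans ht)]
  have hp0 : (0 : ℝ) < p := by exact_mod_cast hp.pos
  have hn : p ≤ ⌊Real.exp t⌋₊ := by
    apply Nat.le_floor
    have h1 := Real.exp_le_exp.mpr ht
    rwa [Real.exp_log hp0] at h1
  have h1 : 1 ≤ ⌊Real.exp t⌋₊ := hp.one_lt.le.trans hn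
  have h2 := crit (p := p) (n := ⌊Real.exp t⌋₊) hp h1
  unfold st cR fp zp
  by_cases h3 : ⌊Real.exp t⌋₊ / p ^ (Nat.log p ⌊Real.exp t⌋₊) ∈ Z p
  · rw [if_pos (h2.mpr ⟨hn, h3⟩), if_pos h3]; simp
  · rw [if_neg (fun h ↦ h3 (h2.mp h).2), if_neg h3]; simp

theorem st_fp_zero {p : ℕ} (hp : p.Prime) {t : ℝ} (ht : t < Real.log p) :
    st (cR (fp p)) t = 0 := by
  have hp0 : (0 : ℝ) < p := by exact_mod_cast hp.pos
  have h1 := Real.exp_lt_exp.mpr ht
  rw [Real.exp_log hp0] at h1
  have hn : ⌊Real.exp t⌋₊ < p := by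
    rw [Nat.floor_lt (Real.exp_pos t).le]
    exact h1
  unfold st cR
  rw [fp_zero hp hn]
  simp

theorem zp_norm (p k : ℕ) : ‖zp p k‖ ≤ 1 := by unfold zp; split_ifs <;> simp

theorem per_norm (p : ℕ) (t : ℝ) : ‖per (Real.log p) (zp p) t‖ ≤ 1 := zp_norm _ _

theorem AP_fp {p : ℕ} (hp : p.Prime) :
    AP (AddSubgroup.zmultiples (2 * Real.pi / Real.log p)) (cR (fp p)) := by
  have hT : 0 < Real.log p := Real.log_pos (by exact_mod_cast hp.one_lt)
  constructor
  · refine ⟨1, zero_le_one, fun n ↦ ?_⟩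
    unfold cR
    rw [Complex.norm_real, Real.norm_of_nonneg (fp_nonneg _ _)]
    exact fp_le_one _ _
  · intro ε hε
    set T := Real.log p with hTdef
    have hεT : 0 < ε / 2 * T := by positivity
    obtain ⟨P, hP, hPper, hPint⟩ := exists_TP_approx hT (per_meas T (zp p)) (per_norm p)
      (per_periodic hT (zp p)) hεT
    refine ⟨P, hP, ?_⟩
    obtain ⟨C, hC0, hC⟩ := (TP_cont_bdd hP).2
    have hcont := (TP_cont_bdd hP).1
    filter_upwards [eventually_ge_atTop T, eventually_ge_atTop (2 * (T * (1 + C)) / ε)] with X h1 h2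
    have hu1 : ∀ n, ‖cR (fp p) n‖ ≤ 1 := by
      intro n
      unfold cR
      rw [Complex.norm_real, Real.norm_of_nonneg (fp_nonneg _ _)]
      exact fp_le_one _ _
    have hint : ∀ a b, IntervalIntegrable (fun t ↦ ‖st (cR (fp p)) t - P t‖) volume a b := by
      intro a b
      refine bdd_int (C := 1 + C) ((st_meas _).sub hcont.measurable).norm (fun t ↦ ?_) a b
      rw [norm_norm]
      exact (norm_sub_le _ _).trans (add_le_add (hu1 _) (hC t))
    have hint2 : ∀ a b, IntervalIntegrable (fun t ↦ ‖per T (zp p) t - P t‖) volume a b := by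
      intro a b
      refine bdd_int (C := 1 + C) ((per_meas _ _).sub hcont.measurable).norm (fun t ↦ ?_) a b
      rw [norm_norm]
      exact (norm_sub_le _ _).trans (add_le_add (per_norm p t) (hC t))
    rw [← intervalIntegral.integral_add_adjacent_intervals (hint 0 T) (hint T X)]
    have h3 : ∫ t in (0 : ℝ)..T, ‖st (cR (fp p)) t - P t‖ ≤ T * (1 + C) := by
      have h4 : ∫ t in (0 : ℝ)..T, ‖st (cR (fp p)) t - P t‖ ≤ ∫ t in (0 : ℝ)..T, (1 + C) := by
        apply intervalIntegral.integral_mono_on hT.le (hint _ _) (by simp)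
        intro t _
        exact (norm_sub_le _ _).trans (add_le_add (hu1 _) (hC t))
      rw [intervalIntegral.integral_const, sub_zero, smul_eq_mul] at h4
      exact h4
    have h5 : ∫ t in T..X, ‖st (cR (fp p)) t - P t‖ = ∫ t in T..X, ‖per T (zp p) t - P t‖ := by
      apply intervalIntegral.integral_congr
      intro t ht
      rw [Set.uIcc_of_le h1, Set.mem_Icc] at ht
      dsimp only
      rw [st_fp hp ht.1]
    have h6 := per_upper hT (g := fun t ↦ ‖per T (zp p) t - P t‖) (fun t ↦ norm_nonneg _)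
      (by
        intro t
        dsimp only
        rw [per_periodic hT (zp p) t, hPper t]) hint2 h1
    rw [← h5] at h6
    have hX0 : 0 < X := lt_of_lt_of_le hT h1
    have h7 : X / T * ∫ t in (0 : ℝ)..T, ‖per T (zp p) t - P t‖ ≤ X / T * (ε / 2 * T) :=
      mul_le_mul_of_nonneg_left hPint (by positivity)
    have h8 : X / T * (ε / 2 * T) = ε / 2 * X := by field_simp
    have h9 : T * (1 + C) ≤ ε / 2 * X := by
      rw [div_le_iff₀ hε] at h2
      linarith
    linarith

/-- real form of the step function of `fp` -/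
noncomputable def rf (p : ℕ) : ℝ → ℝ := fun t ↦ fp p ⌊Real.exp t⌋₊

/-- real form of the periodic function -/
noncomputable def rper (p : ℕ) : ℝ → ℝ := fun t ↦ (per (Real.log p) (zp p) t).re

theorem zp_real (p k : ℕ) : zp p k = ((zp p k).re : ℂ) := by
  unfold zp
  split_ifs <;> simp

theorem zp_re_nonneg (p k : ℕ) : 0 ≤ (zp p k).re := by
  unfold zp
  split_ifs <;> simp

theorem sum_fp_eq (p N : ℕ) :
    ∑ n ∈ Finset.Icc 1 N, fp p n * ell n = ∫ t in (0 : ℝ)..Real.log (N + 1), rf p t := by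
  have h1 := st_integral (cR (fp p)) N
  have h2 : (∫ t in (0 : ℝ)..Real.log (N + 1), st (cR (fp p)) t) =
      ((∫ t in (0 : ℝ)..Real.log (N + 1), rf p t : ℝ) : ℂ) := by
    rw [← intervalIntegral.integral_ofReal]
    rfl
  have h3 : (∑ n ∈ Finset.Icc 1 N, cR (fp p) n * (ell n : ℂ)) =
      ((∑ n ∈ Finset.Icc 1 N, fp p n * ell n : ℝ) : ℂ) := by
    unfold cR
    push_cast
    rfl
  rw [h2, h3] at h1
  exact_mod_cast h1.symm

theorem rper_int (p : ℕ) (a b : ℝ) : IntervalIntegrable (rper p) volume a b := by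
  refine bdd_int (C := 1) (Complex.measurable_re.comp (per_meas _ _)) (fun t ↦ ?_) a b
  rw [Real.norm_eq_abs]
  exact (Complex.abs_re_le_norm _).trans (per_norm p t)

theorem rf_int (p : ℕ) (a b : ℝ) : IntervalIntegrable (rf p) volume a b := by
  refine bdd_int (C := 1) ((measurable_from_nat).comp
    (Nat.measurable_floor.comp Real.measurable_exp)) (fun t ↦ ?_) a b
  rw [Function.comp_apply, Function.comp_apply, Real.norm_of_nonneg (fp_nonneg _ _)]
  exact fp_le_one _ _

theorem rf_eq {p : ℕ} (hp : p.Prime) {t : ℝ} (ht : Real.log p ≤ t) : rf p t = rper p t := by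
  have h1 := st_fp hp ht
  unfold rper
  rw [← h1]
  simp [st, cR, rf]

theorem rf_zero {p : ℕ} (hp : p.Prime) {t : ℝ} (ht : t < Real.log p) : rf p t = 0 := by
  have h1 := st_fp_zero hp ht
  simp only [st, cR] at h1
  unfold rf
  exact_mod_cast h1

theorem rper_integral {p : ℕ} (hp : p.Prime) :
    ∫ t in (0 : ℝ)..Real.log p, rper p t = Real.log p * w p := by
  have hT : 0 < Real.log p := Real.log_pos (by exact_mod_cast hp.one_lt)
  have hp0 : (0 : ℝ) < p := by exact_mod_cast hp.pos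
  obtain ⟨q, hq⟩ : ∃ q, p = q + 1 := ⟨p - 1, by have := hp.pos; omega⟩
  have h1 := st_integral (zp p) q
  have hcast : ((q : ℝ) + 1) = (p : ℝ) := by rw [hq]; push_cast; ring
  rw [hcast] at h1
  have h2 : (∫ t in (0 : ℝ)..Real.log p, st (zp p) t) =
      ((∫ t in (0 : ℝ)..Real.log p, rper p t : ℝ) : ℂ) := by
    rw [← intervalIntegral.integral_ofReal]
    apply intervalIntegral.integral_congr_Ioo_of_le hT.le
    intro t ht
    rw [Set.mem_Ioo] at ht
    dsimp only
    unfold rper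
    rw [per_eq hp _ ht.1.le]
    have h3 : ⌊Real.exp t⌋₊ < p := by
      rw [Nat.floor_lt (Real.exp_pos t).le]
      have h4 := Real.exp_lt_exp.mpr ht.2
      rwa [Real.exp_log hp0] at h4
    have h5 : Nat.log p ⌊Real.exp t⌋₊ = 0 := Nat.log_of_lt h3
    rw [h5, pow_zero, Nat.div_one]
    unfold st
    exact zp_real _ _
  have h3 : ∑ n ∈ Finset.Icc 1 q, zp p n * (ell n : ℂ) =
      ((∑ k ∈ Z p, Real.log (1 + 1 / k) : ℝ) : ℂ) := by
    have h4 : Z p = (Finset.Icc 1 q).filter (fun k ↦ k ∈ Z p) := by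
      ext k
      rw [Finset.mem_filter, Finset.mem_Icc]
      constructor
      · intro hk
        refine ⟨?_, hk⟩
        rw [mem_Z] at hk
        omega
      · exact fun hk ↦ hk.2
    rw [h4, Finset.sum_filter]
    push_cast
    apply Finset.sum_congr rfl
    intro k hk
    rw [Finset.mem_Icc] at hk
    unfold zp
    split_ifs
    · rw [one_mul, ell_eq k hk.1]
    · simp
  rw [h2, h3] at h1
  have h4 : ∫ t in (0 : ℝ)..Real.log p, rper p t = ∑ k ∈ Z p, Real.log (1 + 1 / k) := by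
    exact_mod_cast h1
  rw [h4]
  unfold w
  rw [if_pos hp]
  field_simp

theorem rper_nonneg (p : ℕ) (t : ℝ) : 0 ≤ rper p t := zp_re_nonneg _ _

theorem rper_periodic {p : ℕ} (hp : p.Prime) : Function.Periodic (rper p) (Real.log p) := by
  have hT : 0 < Real.log p := Real.log_pos (by exact_mod_cast hp.one_lt)
  intro t
  unfold rper
  rw [per_periodic hT (zp p) t]

theorem w_nonneg (p : ℕ) : 0 ≤ w p := by
  unfold w
  split_ifs with hp
  · have hT : 0 < Real.log p := Real.log_pos (by exact_mod_cast hp.one_lt)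
    apply div_nonneg _ hT.le
    apply Finset.sum_nonneg
    intro k _
    apply Real.log_nonneg
    have : (0 : ℝ) ≤ 1 / k := by positivity
    linarith
  · exact le_rfl

theorem sum_fp_split {p : ℕ} (hp : p.Prime) {Y : ℝ} (hY : Real.log p ≤ Y) :
    ∫ t in (0 : ℝ)..Y, rf p t = ∫ t in (Real.log p)..Y, rper p t := by
  have hT : 0 < Real.log p := Real.log_pos (by exact_mod_cast hp.one_lt)
  rw [← intervalIntegral.integral_add_adjacent_intervals (rf_int p 0 (Real.log p)) (rf_int p _ Y)]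
  have h1 : ∫ t in (0 : ℝ)..Real.log p, rf p t = 0 := by
    rw [intervalIntegral.integral_congr_Ioo_of_le (g := fun _ ↦ 0) hT.le]
    · simp
    · intro t ht
      exact rf_zero hp ht.2
  rw [h1, zero_add]
  apply intervalIntegral.integral_congr
  intro t ht
  rw [Set.uIcc_of_le hY, Set.mem_Icc] at ht
  exact rf_eq hp ht.1

/-- uniform upper bound for the logarithmic count of the multiples -/
theorem sum_fp_le {p : ℕ} (hp : p.Prime) (N : ℕ) :
    ∑ n ∈ Finset.Icc 1 N, fp p n * ell n ≤ w p * Real.log (N + 1) := by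
  have hT : 0 < Real.log p := Real.log_pos (by exact_mod_cast hp.one_lt)
  have hY0 : 0 ≤ Real.log ((N : ℝ) + 1) := by
    apply Real.log_nonneg
    have : (0 : ℝ) ≤ N := Nat.cast_nonneg N
    linarith
  rw [sum_fp_eq]
  rcases le_or_gt (Real.log p) (Real.log (N + 1)) with h | h
  · rw [sum_fp_split hp h]
    refine (per_upper hT (rper_nonneg p) (rper_periodic hp) (rper_int p) h).trans ?_
    rw [rper_integral hp]
    apply le_of_eq
    field_simp
  · have h1 : ∫ t in (0 : ℝ)..Real.log (N + 1), rf p t = 0 := by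
      rw [intervalIntegral.integral_congr_Ioo_of_le (g := fun _ ↦ 0) hY0]
      · simp
      · intro t ht
        rw [Set.mem_Ioo] at ht
        exact rf_zero hp (ht.2.trans h)
    rw [h1]
    exact mul_nonneg (w_nonneg p) hY0

theorem m_fp_tendsto {p : ℕ} (hp : p.Prime) : Tendsto (m (fp p)) atTop (𝓝 (w p)) := by
  have hT : 0 < Real.log p := Real.log_pos (by exact_mod_cast hp.one_lt)
  have hlow : Tendsto (fun N : ℕ ↦ w p - 2 * (Real.log p * w p) / Real.log ((N : ℝ) + 1)) atTop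
      (𝓝 (w p)) := by
    have h1 : Tendsto (fun N : ℕ ↦ 2 * (Real.log p * w p) / Real.log ((N : ℝ) + 1)) atTop (𝓝 0) :=
      tendsto_const_nhds.div_atTop log_tendsto
    have h2 := (tendsto_const_nhds (x := w p)).sub h1
    rwa [sub_zero] at h2
  refine tendsto_of_tendsto_of_tendsto_of_le_of_le' hlow tendsto_const_nhds ?_ ?_
  · filter_upwards [log_tendsto.eventually_ge_atTop (Real.log p)] with N hN
    unfold m
    have hY : 0 < Real.log ((N : ℝ) + 1) := lt_of_lt_of_le hT hN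
    rw [le_div_iff₀ hY, sum_fp_eq, sum_fp_split hp hN]
    refine le_trans ?_ (per_lower hT (rper_nonneg p) (rper_periodic hp) (rper_int p) hN)
    rw [rper_integral hp]
    apply le_of_eq
    field_simp
  · filter_upwards [log_tendsto.eventually_gt_atTop 0] with N hN
    unfold m
    rw [div_le_iff₀ hN]
    exact sum_fp_le hp N

end Pool.Agent.Lib.MP_62a313_nt.LD3
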