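import Mathlib
import Pool.Agent.Lib.MP_62a313_nt.LD3.Wt

set_option autoImplicit false

open Filter Topology MeasureTheory
open Nbb67e70a

namespace Pool.Agent.Lib.MP_62a313_nt.LD3

theorem freq_disj {p q : ℕ} (hp : p.Prime) (hq : q.Prime) (hne : p ≠ q) :
    ∀ x ∈ AddSubgroup.zmultiples (2 * Real.pi / Real.log p),
      x ∈ AddSubgroup.zmultiples (2 * Real.pi / Real.log q) → x = 0 := by
  intro x hx hx'
  rw [AddSubgroup.mem_zmultiples_iff] at hx hx'
  obtain ⟨i, hi⟩ := hx
  obtain ⟨j, hj⟩ := hx'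
  have hlp : 0 < Real.log p := Real.log_pos (by exact_mod_cast hp.one_lt)
  have hlq : 0 < Real.log q := Real.log_pos (by exact_mod_cast hq.one_lt)
  rw [zsmul_eq_mul] at hi hj
  have hpi := Real.pi_pos
  have h1 : (i : ℝ) * Real.log q = j * Real.log p := by
    have h2 : (i : ℝ) * (2 * Real.pi / Real.log p) = j * (2 * Real.pi / Real.log q) := by
      rw [hi, hj]
    field_simp at h2
    linarith
  have h3 : (i.natAbs : ℝ) * Real.log q = (j.natAbs : ℝ) * Real.log p := by
    have h4 := congrArg (fun x : ℝ ↦ |x|) h1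
    simp only [abs_mul, abs_of_pos hlp, abs_of_pos hlq] at h4
    rw [Nat.cast_natAbs, Nat.cast_natAbs]
    push_cast
    exact h4
  have h5 : q ^ i.natAbs = p ^ j.natAbs := by
    rw [← Real.log_pow, ← Real.log_pow] at h3
    have h6 := Real.log_injOn_pos (by
      rw [Set.mem_Ioi]
      have : (0 : ℝ) < q := by exact_mod_cast hq.pos
      positivity) (by
      rw [Set.mem_Ioi]
      have : (0 : ℝ) < p := by exact_mod_cast hp.pos
      positivity) h3
    exact_mod_cast h6
  by_cases hi0 : i.natAbs = 0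
  · have : i = 0 := Int.natAbs_eq_zero.mp hi0
    rw [← hi, this]
    simp
  · exfalso
    have h7 : q ∣ p ^ j.natAbs := by
      rw [← h5]
      exact dvd_pow_self q hi0
    have h8 := (Nat.prime_dvd_prime_iff_eq hq hp).mp (hq.dvd_of_dvd_pow h7)
    exact hne h8.symm

theorem m_pair {p q : ℕ} (hp : p.Prime) (hq : q.Prime) (hne : p ≠ q) :
    Tendsto (m (fp p * fp q)) atTop (𝓝 (w p * w q)) :=
  AP.m_mul (freq_disj hp hq hne) (AP_fp hp) (AP_fp hq) (m_fp_tendsto hp) (m_fp_tendsto hq)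

theorem fp_sq (p : ℕ) : fp p * fp p = fp p := by
  funext n
  simp only [Pi.mul_apply, fp]
  split_ifs <;> norm_num

theorem log_nonneg' (N : ℕ) : 0 ≤ Real.log ((N : ℝ) + 1) := by
  apply Real.log_nonneg
  have : (0 : ℝ) ≤ N := Nat.cast_nonneg N
  linarith

theorem m_mono {u v : ℕ → ℝ} {N : ℕ} (h : ∀ n, 1 ≤ n → n ≤ N → u n ≤ v n) : m u N ≤ m v N := by
  unfold m
  apply div_le_div_of_nonneg_right _ (log_nonneg' N)
  apply Finset.sum_le_sum
  intro n hn
  rw [Finset.mem_Icc] at hn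
  exact mul_le_mul_of_nonneg_right (h n hn.1 hn.2) (ell_nonneg n hn.1)

theorem m_congr {u v : ℕ → ℝ} {N : ℕ} (h : ∀ n, 1 ≤ n → n ≤ N → u n = v n) : m u N = m v N :=
  le_antisymm (m_mono fun n h1 h2 ↦ (h n h1 h2).le) (m_mono fun n h1 h2 ↦ (h n h1 h2).ge)

theorem m_add (u v : ℕ → ℝ) (N : ℕ) : m (u + v) N = m u N + m v N := by
  unfold m
  rw [← add_div, ← Finset.sum_add_distrib]
  congr 1
  apply Finset.sum_congr rfl
  intro n _
  rw [Pi.add_apply, add_mul]

theorem m_smul (k : ℝ) (u : ℕ → ℝ) (N : ℕ) : m (k • u) N = k * m u N := by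
  unfold m
  rw [← mul_div_assoc, Finset.mul_sum]
  congr 1
  apply Finset.sum_congr rfl
  intro n _
  rw [Pi.smul_apply, smul_eq_mul, mul_assoc]

theorem m_sum {ι : Type*} (s : Finset ι) (u : ι → ℕ → ℝ) (N : ℕ) :
    m (∑ i ∈ s, u i) N = ∑ i ∈ s, m (u i) N := by
  classical
  induction s using Finset.induction_on with
  | empty =>
    simp [m]
  | insert i s hi ih =>
    rw [Finset.sum_insert hi, Finset.sum_insert hi, m_add, ih]

theorem sum_ell (N : ℕ) : ∑ n ∈ Finset.Icc 1 N, ell n = Real.log (N + 1) := by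
  induction N with
  | zero => simp
  | succ N ih =>
    rw [Finset.sum_Icc_succ_top (by omega), ih]
    unfold ell
    push_cast
    ring

theorem m_one {N : ℕ} (hN : 1 ≤ N) (c : ℝ) : m (fun _ ↦ c) N = c := by
  unfold m
  rw [← Finset.mul_sum, sum_ell]
  have : 0 < Real.log ((N : ℝ) + 1) := by
    apply Real.log_pos
    have : (1 : ℝ) ≤ N := by exact_mod_cast hN
    linarith
  field_simp

theorem m_fp_le {p : ℕ} (hp : p.Prime) (N : ℕ) : m (fp p) N ≤ w p := by
  unfold m
  rcases eq_or_lt_of_le (log_nonneg' N) with h | h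
  · rw [← h, div_zero]
    exact w_nonneg p
  · rw [div_le_iff₀ h]
    exact sum_fp_le hp N

/-- the number of common primes of `a n` and `L n` -/
noncomputable def om (n : ℕ) : ℕ := (Nat.gcd (a n) (L n)).primeFactors.card

/-- the number of common primes in `T` -/
noncomputable def omT (T : Finset ℕ) (n : ℕ) : ℕ :=
  (T.filter (fun p ↦ p ∈ (Nat.gcd (a n) (L n)).primeFactors)).card

theorem omT_eq_sum (T : Finset ℕ) (n : ℕ) : (omT T n : ℝ) = ∑ p ∈ T, fp p n := by
  unfold omT fp
  rw [Finset.card_filter]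
  push_cast
  rfl

theorem omT_insert {T : Finset ℕ} {p : ℕ} (hp : p ∉ T) (n : ℕ) :
    omT (insert p T) n = omT T n + if p ∈ (Nat.gcd (a n) (L n)).primeFactors then 1 else 0 := by
  unfold omT
  rw [Finset.filter_insert]
  split_ifs with h
  · rw [Finset.card_insert_of_notMem]
    intro h'
    exact hp (Finset.mem_filter.mp h').1
  · rfl

theorem omT_le (T : Finset ℕ) (n : ℕ) : omT T n ≤ om n := by
  apply Finset.card_le_card
  intro p hp
  exact (Finset.mem_filter.mp hp).2

theorem exists_of_ne {T : Finset ℕ} {n : ℕ} (h : omT T n ≠ om n) :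
    ∃ p ∈ (Nat.gcd (a n) (L n)).primeFactors, p ∉ T := by
  by_contra hc
  push Not at hc
  apply h
  unfold omT om
  congr 1
  ext p
  rw [Finset.mem_filter]
  exact ⟨fun hp ↦ hp.2, fun hp ↦ ⟨hc p hp, hp⟩⟩

theorem le_of_mem {n p : ℕ} (hn : 1 ≤ n) (hp : p ∈ (Nat.gcd (a n) (L n)).primeFactors) :
    p ∈ Nat.primesLE n := by
  have h1 := Nat.prime_of_mem_primeFactors hp
  rw [Nat.mem_primesLE]
  exact ⟨((crit h1 hn).mp hp).1, h1⟩

/-- the indicator of `om n = r` -/
noncomputable def ind (r n : ℕ) : ℝ := if om n = r then 1 else 0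

/-- the indicator of `omT T n = r` -/
noncomputable def lev (T : Finset ℕ) (r n : ℕ) : ℝ := if omT T n = r then 1 else 0

theorem lev_close {T : Finset ℕ} {N n : ℕ} (r : ℕ) (h1 : 1 ≤ n) (h2 : n ≤ N) :
    |ind r n - lev T r n| ≤ ∑ p ∈ Nat.primesLE N \ T, fp p n := by
  by_cases h : omT T n = om n
  · have : ind r n - lev T r n = 0 := by
      unfold ind lev
      rw [h]
      ring
    rw [this, abs_zero]
    exact Finset.sum_nonneg (fun p _ ↦ fp_nonneg p n)
  · obtain ⟨p, hp, hpT⟩ := exists_of_ne h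
    have h3 : |ind r n - lev T r n| ≤ 1 := by
      unfold ind lev
      split_ifs <;> norm_num
    have h4 : fp p n ≤ ∑ p ∈ Nat.primesLE N \ T, fp p n := by
      apply Finset.single_le_sum (f := fun p ↦ fp p n) (fun p _ ↦ fp_nonneg p n)
      rw [Finset.mem_sdiff]
      refine ⟨?_, hpT⟩
      have h5 := le_of_mem h1 hp
      rw [Nat.mem_primesLE] at h5 ⊢
      exact ⟨h5.1.trans h2, h5.2⟩
    have h5 : fp p n = 1 := by
      unfold fp
      rw [if_pos hp]
    linarith

theorem m_lev_close (T : Finset ℕ) (r N : ℕ) :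
    |m (ind r) N - m (lev T r) N| ≤ ∑ p ∈ Nat.primesLE N \ T, w p := by
  have key : ∀ u v : ℕ → ℝ, (∀ n, 1 ≤ n → n ≤ N → u n ≤ v n + ∑ p ∈ Nat.primesLE N \ T, fp p n) →
      m u N ≤ m v N + ∑ p ∈ Nat.primesLE N \ T, w p := by
    intro u v h
    have h1 : m u N ≤ m (v + ∑ p ∈ Nat.primesLE N \ T, fp p) N := by
      apply m_mono
      intro n h1 h2
      rw [Pi.add_apply, Finset.sum_apply]
      exact h n h1 h2
    rw [m_add, m_sum] at h1
    refine h1.trans ?_
    have h2 : ∑ p ∈ Nat.primesLE N \ T, m (fp p) N ≤ ∑ p ∈ Nat.primesLE N \ T, w p := by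
      apply Finset.sum_le_sum
      intro p hp
      rw [Finset.mem_sdiff, Nat.mem_primesLE] at hp
      exact m_fp_le hp.1.2 N
    linarith
  rw [abs_le]
  constructor
  · have := key (lev T r) (ind r) (fun n h1 h2 ↦ by
      have h3 := lev_close (T := T) r h1 h2
      rw [abs_le] at h3
      linarith [h3.1])
    linarith
  · have := key (ind r) (lev T r) (fun n h1 h2 ↦ by
      have h3 := lev_close (T := T) r h1 h2
      rw [abs_le] at h3
      linarith [h3.2])
    linarith

theorem cR_add (u v : ℕ → ℝ) : cR (u + v) = cR u + cR v := by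
  funext n
  simp [cR]

theorem AP_comp {p : ℕ} (hp : p.Prime) (Λ : AddSubgroup ℝ)
    (h : AddSubgroup.zmultiples (2 * Real.pi / Real.log p) ≤ Λ) :
    AP Λ (cR (fun n ↦ 1 - fp p n)) := by
  have h1 : cR (fun n ↦ 1 - fp p n) = (fun _ ↦ (1 : ℂ)) + (-1 : ℂ) • cR (fp p) := by
    funext n
    simp [cR]
    ring
  rw [h1]
  exact (AP.const Λ 1).add (((AP_fp hp).mono h).smul (-1))

theorem AP_lev (T : Finset ℕ) (hT : ∀ p ∈ T, p.Prime) (r : ℕ) : AP ⊤ (cR (lev T r)) := by
  induction T using Finset.induction_on generalizing r with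
  | empty =>
    have h1 : cR (lev ∅ r) = fun _ ↦ (if 0 = r then (1 : ℂ) else 0) := by
      funext n
      unfold cR lev omT
      simp only [Finset.filter_empty, Finset.card_empty]
      split_ifs <;> simp
    rw [h1]
    exact AP.const ⊤ _
  | insert p T hp ih =>
    have hpp : p.Prime := hT p (Finset.mem_insert_self p T)
    have ih' := fun r ↦ ih (fun q hq ↦ hT q (Finset.mem_insert_of_mem hq)) r
    have hc := AP_comp hpp ⊤ le_top
    have hf := (AP_fp hpp).mono (Λ' := ⊤) le_top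
    cases r with
    | zero =>
      have h1 : cR (lev (insert p T) 0) = cR (fun n ↦ 1 - fp p n) * cR (lev T 0) := by
        rw [← cR_mul]
        congr 1
        funext n
        rw [Pi.mul_apply]
        unfold lev fp
        rw [omT_insert hp]
        by_cases h2 : p ∈ (Nat.gcd (a n) (L n)).primeFactors
        · simp [h2]
        · simp [h2]
      rw [h1]
      exact hc.mul (ih' 0)
    | succ r =>
      have h1 : cR (lev (insert p T) (r + 1)) =
          cR (fp p) * cR (lev T r) + cR (fun n ↦ 1 - fp p n) * cR (lev T (r + 1)) := by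
        rw [← cR_mul, ← cR_mul, ← cR_add]
        congr 1
        funext n
        rw [Pi.add_apply, Pi.mul_apply, Pi.mul_apply]
        unfold lev fp
        rw [omT_insert hp]
        by_cases h2 : p ∈ (Nat.gcd (a n) (L n)).primeFactors
        · simp [h2]
        · simp [h2]
      rw [h1]
      exact (hf.mul (ih' r)).add (hc.mul (ih' (r + 1)))

/-- the primes below `y` -/
def TT (y : ℕ) : Finset ℕ := (Finset.range y).filter Nat.Prime

theorem TT_prime {y p : ℕ} (h : p ∈ TT y) : p.Prime := (Finset.mem_filter.mp h).2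

theorem w_eq_zero {p : ℕ} (h : ¬ p.Prime) : w p = 0 := by
  unfold w
  rw [if_neg h]

theorem sum_TT (y : ℕ) : ∑ p ∈ TT y, w p = ∑ p ∈ Finset.range y, w p := by
  unfold TT
  rw [Finset.sum_filter]
  apply Finset.sum_congr rfl
  intro p _
  split_ifs with h
  · rfl
  · exact (w_eq_zero h).symm

theorem tail_le (hs : Summable w) (T : Finset ℕ) (N : ℕ) :
    ∑ p ∈ Nat.primesLE N \ T, w p ≤ (∑' p, w p) - ∑ p ∈ T, w p := by
  have h1 : ∑ p ∈ Nat.primesLE N \ T, w p + ∑ p ∈ T, w p = ∑ p ∈ (Nat.primesLE N \ T) ∪ T, w p := by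
    rw [Finset.sum_union Finset.sdiff_disjoint]
  have h2 := hs.sum_le_tsum ((Nat.primesLE N \ T) ∪ T) (fun p _ ↦ w_nonneg p)
  linarith

theorem tail_small (hs : Summable w) {ε : ℝ} (hε : 0 < ε) :
    ∀ᶠ y : ℕ in atTop, (∑' p, w p) - ∑ p ∈ TT y, w p ≤ ε := by
  have h1 := hs.hasSum.tendsto_sum_nat
  have h2 := (tendsto_order.mp h1).1 ((∑' p, w p) - ε) (by linarith)
  filter_upwards [h2] with y hy
  rw [sum_TT]
  linarith

theorem exists_d (hs : Summable w) (r : ℕ) : ∃ d : ℝ, Tendsto (m (ind r)) atTop (𝓝 d) := by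
  apply exists_limit
  intro ε hε
  obtain ⟨y, hy⟩ := (tail_small hs hε).exists
  obtain ⟨c, _, hc⟩ := (AP_lev (TT y) (fun p hp ↦ TT_prime hp) r).m_exists
  refine ⟨_, c, hc, Eventually.of_forall (fun N ↦ ?_)⟩
  rw [Real.norm_eq_abs]
  exact (m_lev_close (TT y) r N).trans ((tail_le hs _ _).trans hy)

end Pool.Agent.Lib.MP_62a313_nt.LD3
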