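import Mathlib
import Pool.Agent.Lib.MP_62a313_nt.LD3.Lev

set_option autoImplicit false

open Filter Topology MeasureTheory
open Nbb67e70a

namespace Pool.Agent.Lib.MP_62a313_nt.LD3

theorem ind_nonneg (r n : ℕ) : 0 ≤ ind r n := by unfold ind; split_ifs <;> norm_num

theorem m_nonneg {u : ℕ → ℝ} {N : ℕ} (h : ∀ n, 1 ≤ n → n ≤ N → 0 ≤ u n) : 0 ≤ m u N := by
  have h1 := m_mono (u := fun _ ↦ (0 : ℝ)) h
  have h2 : m (fun _ ↦ (0 : ℝ)) N = 0 := by simp [m]
  rwa [h2] at h1

theorem om_eq {N n : ℕ} (h1 : 1 ≤ n) (h2 : n ≤ N) : (om n : ℝ) = ∑ p ∈ Nat.primesLE N, fp p n := by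
  rw [← omT_eq_sum]
  congr 1
  by_contra h
  obtain ⟨p, hp, hpT⟩ := exists_of_ne (T := Nat.primesLE N) (n := n) (fun h' ↦ h h'.symm)
  apply hpT
  have h5 := le_of_mem h1 hp
  rw [Nat.mem_primesLE] at h5 ⊢
  exact ⟨h5.1.trans h2, h5.2⟩

theorem sum_ind (R n : ℕ) : ∑ r ∈ Finset.range R, ind r n = if om n < R then 1 else 0 := by
  unfold ind
  rw [Finset.sum_ite_eq]
  simp only [Finset.mem_range]

theorem sum_d_bounds (hs : Summable w) (R N : ℕ) (hR : 1 ≤ R) (hN : 1 ≤ N) :
    1 - (∑' p, w p) / R ≤ ∑ r ∈ Finset.range R, m (ind r) N ∧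
      ∑ r ∈ Finset.range R, m (ind r) N ≤ 1 := by
  have hR0 : (0 : ℝ) < R := by exact_mod_cast hR
  rw [← m_sum]
  constructor
  · have h1 : m (fun _ ↦ (1 : ℝ)) N ≤ m (∑ r ∈ Finset.range R, ind r +
        (1 / (R : ℝ)) • ∑ p ∈ Nat.primesLE N, fp p) N := by
      apply m_mono
      intro n h1 h2
      rw [Pi.add_apply, Pi.smul_apply, Finset.sum_apply, Finset.sum_apply, sum_ind, smul_eq_mul,
        ← om_eq h1 h2]
      split_ifs with h
      · have : 0 ≤ 1 / (R : ℝ) * (om n : ℝ) := by positivity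
        linarith
      · push Not at h
        have h3 : (R : ℝ) ≤ om n := by exact_mod_cast h
        have h4 : 1 ≤ 1 / (R : ℝ) * (om n : ℝ) := by
          rw [one_div, inv_mul_eq_div, le_div_iff₀ hR0]
          linarith
        linarith
    rw [m_one hN, m_add, m_smul, m_sum (Nat.primesLE N)] at h1
    have h2 : ∑ p ∈ Nat.primesLE N, m (fp p) N ≤ ∑' p, w p := by
      refine le_trans ?_ (hs.sum_le_tsum (Nat.primesLE N) (fun p _ ↦ w_nonneg p))
      apply Finset.sum_le_sum
      intro p hp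
      rw [Nat.mem_primesLE] at hp
      exact m_fp_le hp.2 N
    have h3 : 1 / (R : ℝ) * ∑ p ∈ Nat.primesLE N, m (fp p) N ≤ (∑' p, w p) / R := by
      rw [one_div, inv_mul_eq_div]
      exact div_le_div_of_nonneg_right h2 hR0.le
    linarith
  · have h1 : m (∑ r ∈ Finset.range R, ind r) N ≤ m (fun _ ↦ (1 : ℝ)) N := by
      apply m_mono
      intro n _ _
      rw [Finset.sum_apply, sum_ind]
      split_ifs <;> norm_num
    rwa [m_one hN] at h1

theorem hasSum_d (hs : Summable w) {d : ℕ → ℝ} (hd : ∀ r, Tendsto (m (ind r)) atTop (𝓝 (d r))) :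
    HasSum d 1 := by
  have hd0 : ∀ r, 0 ≤ d r := fun r ↦ ge_of_tendsto (hd r)
    (Eventually.of_forall fun N ↦ m_nonneg (fun n _ _ ↦ ind_nonneg r n))
  have h1 : ∀ R : ℕ, 1 ≤ R → 1 - (∑' p, w p) / R ≤ ∑ r ∈ Finset.range R, d r ∧
      ∑ r ∈ Finset.range R, d r ≤ 1 := by
    intro R hR
    have h2 : Tendsto (fun N ↦ ∑ r ∈ Finset.range R, m (ind r) N) atTop
        (𝓝 (∑ r ∈ Finset.range R, d r)) := tendsto_finsetSum _ (fun r _ ↦ hd r)
    constructor
    · refine ge_of_tendsto h2 ?_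
      filter_upwards [eventually_ge_atTop 1] with N hN
      exact (sum_d_bounds hs R N hR hN).1
    · refine le_of_tendsto h2 ?_
      filter_upwards [eventually_ge_atTop 1] with N hN
      exact (sum_d_bounds hs R N hR hN).2
  rw [hasSum_iff_tendsto_nat_of_nonneg hd0]
  have h2 : Tendsto (fun R : ℕ ↦ 1 - (∑' p, w p) / (R : ℝ)) atTop (𝓝 1) := by
    have h3 : Tendsto (fun R : ℕ ↦ (∑' p, w p) / (R : ℝ)) atTop (𝓝 0) :=
      tendsto_const_nhds.div_atTop tendsto_natCast_atTop_atTop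
    have h4 := (tendsto_const_nhds (x := (1 : ℝ))).sub h3
    rwa [sub_zero] at h4
  refine tendsto_of_tendsto_of_tendsto_of_le_of_le' h2 tendsto_const_nhds ?_ ?_
  · filter_upwards [eventually_ge_atTop 1] with R hR
    exact (h1 R hR).1
  · filter_upwards [eventually_ge_atTop 1] with R hR
    exact (h1 R hR).2

/-- the second moment of the count of the primes of `T` -/
theorem second_moment (T : Finset ℕ) (hT : ∀ p ∈ T, p.Prime) :
    ∀ᶠ N : ℕ in atTop, m (fun n ↦ (∑ p ∈ T, fp p n - ∑ p ∈ T, w p) ^ 2) N ≤ ∑ p ∈ T, w p + 1 := by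
  classical
  set W := ∑ p ∈ T, w p with hW
  have h1 : ∀ N : ℕ, 1 ≤ N → m (fun n ↦ (∑ p ∈ T, fp p n - W) ^ 2) N =
      ∑ p ∈ T, ∑ q ∈ T, m (fp p * fp q) N + (-2 * W) * ∑ p ∈ T, m (fp p) N + W ^ 2 := by
    intro N hN
    have h2 : (fun n ↦ (∑ p ∈ T, fp p n - W) ^ 2) =
        (∑ p ∈ T, ∑ q ∈ T, fp p * fp q) + (-2 * W) • (∑ p ∈ T, fp p) + (fun _ ↦ W ^ 2) := by
      funext n
      simp only [Pi.add_apply, Finset.sum_apply, Pi.mul_apply, Pi.smul_apply, smul_eq_mul]
      rw [← Finset.sum_mul_sum]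
      ring
    rw [h2, m_add, m_add, m_smul, m_one hN, m_sum, m_sum]
    congr 3
    funext p
    exact m_sum _ _ _
  have h2 : Tendsto (fun N : ℕ ↦ ∑ p ∈ T, ∑ q ∈ T, m (fp p * fp q) N +
      (-2 * W) * ∑ p ∈ T, m (fp p) N + W ^ 2) atTop
      (𝓝 (∑ p ∈ T, ∑ q ∈ T, (if p = q then w p else w p * w q) + (-2 * W) * W + W ^ 2)) := by
    refine Tendsto.add (Tendsto.add ?_ ?_) tendsto_const_nhds
    · refine tendsto_finsetSum _ (fun p hp ↦ tendsto_finsetSum _ (fun q hq ↦ ?_))
      split_ifs with hpq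
      · subst hpq
        rw [fp_sq]
        exact m_fp_tendsto (hT p hp)
      · exact m_pair (hT p hp) (hT q hq) hpq
    · refine Tendsto.const_mul _ ?_
      exact tendsto_finsetSum _ (fun p hp ↦ m_fp_tendsto (hT p hp))
  have h3 : ∑ p ∈ T, ∑ q ∈ T, (if p = q then w p else w p * w q) + (-2 * W) * W + W ^ 2 ≤ W := by
    have h4 : ∑ p ∈ T, ∑ q ∈ T, (if p = q then w p else w p * w q) ≤
        ∑ p ∈ T, ∑ q ∈ T, (w p * w q + if p = q then w p else 0) := by
      refine Finset.sum_le_sum (fun p _ ↦ Finset.sum_le_sum (fun q _ ↦ ?_))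
      split_ifs with hpq
      · have := mul_nonneg (w_nonneg p) (w_nonneg q)
        linarith
      · linarith
    have h5 : ∑ p ∈ T, ∑ q ∈ T, (w p * w q + if p = q then w p else 0) = W * W + W := by
      have h6 : ∀ p ∈ T, ∑ q ∈ T, (w p * w q + if p = q then w p else 0) = w p * W + w p := by
        intro p hp
        rw [Finset.sum_add_distrib, Finset.sum_ite_eq, if_pos hp, ← Finset.mul_sum]
      rw [Finset.sum_congr rfl h6, Finset.sum_add_distrib, ← Finset.sum_mul]
    rw [h5] at h4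
    nlinarith
  have h4 : ∀ᶠ N : ℕ in atTop, ∑ p ∈ T, ∑ q ∈ T, m (fp p * fp q) N +
      (-2 * W) * ∑ p ∈ T, m (fp p) N + W ^ 2 < W + 1 :=
    (tendsto_order.mp h2).2 _ (by linarith)
  filter_upwards [h4, eventually_ge_atTop 1] with N hN hN1
  rw [h1 N hN1]
  exact hN.le

theorem div_zero_limit (hs : ¬ Summable w) (r : ℕ) : Tendsto (m (ind r)) atTop (𝓝 0) := by
  rw [not_summable_iff_tendsto_nat_atTop_of_nonneg w_nonneg] at hs
  have key : ∀ ε : ℝ, 0 < ε → ∀ᶠ N : ℕ in atTop, m (ind r) N ≤ ε := by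
    intro ε hε
    obtain ⟨y, hy⟩ := (hs.eventually_ge_atTop ((r : ℝ) + max 1 ((r + 2) / ε))).exists
    set W := ∑ p ∈ TT y, w p with hW
    have hWy : W = ∑ p ∈ Finset.range y, w p := sum_TT y
    have hx : max 1 (((r : ℝ) + 2) / ε) ≤ W - r := by
      rw [hWy]
      linarith
    have hx1 : 1 ≤ W - r := (le_max_left _ _).trans hx
    have hx2 : ((r : ℝ) + 2) / ε ≤ W - r := (le_max_right _ _).trans hx
    filter_upwards [second_moment (TT y) (fun p hp ↦ TT_prime hp)] with N hN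
    have h1 : m (((W - r) ^ 2) • ind r) N ≤
        m (fun n ↦ (∑ p ∈ TT y, fp p n - ∑ p ∈ TT y, w p) ^ 2) N := by
      apply m_mono
      intro n _ _
      rw [Pi.smul_apply, smul_eq_mul]
      unfold ind
      split_ifs with h
      · rw [mul_one, ← hW, ← omT_eq_sum]
        have h2 : (omT (TT y) n : ℝ) ≤ r := by
          rw [← h]
          exact_mod_cast omT_le (TT y) n
        nlinarith
      · rw [mul_zero]
        positivity
    rw [m_smul] at h1
    have h2 : (W - r) ^ 2 * m (ind r) N ≤ W + 1 := h1.trans hN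
    have hr0 : (0 : ℝ) ≤ r := Nat.cast_nonneg r
    have h3 : W + 1 ≤ (W - r) ^ 2 * ε := by
      rw [div_le_iff₀ hε] at hx2
      nlinarith
    have h4 : 0 < (W - r) ^ 2 := by positivity
    exact le_of_mul_le_mul_left (h2.trans h3) h4
  rw [tendsto_order]
  constructor
  · intro c hc
    exact Eventually.of_forall fun N ↦ lt_of_lt_of_le hc (m_nonneg (fun n _ _ ↦ ind_nonneg r n))
  · intro c hc
    filter_upwards [key (c / 2) (by positivity)] with N hN
    linarith

/-- the limit of the weighted second moment -/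
theorem second_moment_gen (T : Finset ℕ) (hT : ∀ p ∈ T, p.Prime) (c : ℕ → ℝ) :
    Tendsto (m (fun n ↦ (1 - ∑ p ∈ T, c p * fp p n) ^ 2)) atTop
      (𝓝 ((1 - ∑ p ∈ T, c p * w p) ^ 2 + ∑ p ∈ T, c p ^ 2 * (w p * (1 - w p)))) := by
  classical
  have h2 : Tendsto (fun N : ℕ ↦ ∑ p ∈ T, ∑ q ∈ T, (c p * c q) * m (fp p * fp q) N +
      (-2) * ∑ p ∈ T, c p * m (fp p) N + 1) atTop
      (𝓝 (∑ p ∈ T, ∑ q ∈ T, (c p * c q) * (if p = q then w p else w p * w q) +
        (-2) * ∑ p ∈ T, c p * w p + 1)) := by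
    refine Tendsto.add (Tendsto.add ?_ ?_) tendsto_const_nhds
    · refine tendsto_finsetSum _ (fun p hp ↦ tendsto_finsetSum _ (fun q hq ↦ ?_))
      refine Tendsto.const_mul _ ?_
      split_ifs with hpq
      · subst hpq
        rw [fp_sq]
        exact m_fp_tendsto (hT p hp)
      · exact m_pair (hT p hp) (hT q hq) hpq
    · refine Tendsto.const_mul _ ?_
      exact tendsto_finsetSum _ (fun p hp ↦ (m_fp_tendsto (hT p hp)).const_mul _)
  have h3 : ∑ p ∈ T, ∑ q ∈ T, (c p * c q) * (if p = q then w p else w p * w q) +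
        (-2) * ∑ p ∈ T, c p * w p + 1 =
      (1 - ∑ p ∈ T, c p * w p) ^ 2 + ∑ p ∈ T, c p ^ 2 * (w p * (1 - w p)) := by
    have h4 : ∀ p ∈ T, ∑ q ∈ T, (c p * c q) * (if p = q then w p else w p * w q) =
        (c p * w p) * (∑ q ∈ T, c q * w q) + c p ^ 2 * (w p * (1 - w p)) := by
      intro p hp
      have h5 : ∀ q ∈ T, (c p * c q) * (if p = q then w p else w p * w q) =
          (c p * w p) * (c q * w q) + if p = q then c p ^ 2 * (w p * (1 - w p)) else 0 := by
        intro q _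
        split_ifs with hpq
        · subst hpq; ring
        · ring
      rw [Finset.sum_congr rfl h5, Finset.sum_add_distrib, Finset.sum_ite_eq, if_pos hp,
        ← Finset.mul_sum]
    rw [Finset.sum_congr rfl h4, Finset.sum_add_distrib, ← Finset.sum_mul]
    ring
  rw [h3] at h2
  refine h2.congr' ?_
  filter_upwards [eventually_ge_atTop 1] with N hN
  have h4 : (fun n ↦ (1 - ∑ p ∈ T, c p * fp p n) ^ 2) =
      (∑ p ∈ T, ∑ q ∈ T, (c p * c q) • (fp p * fp q)) + (-2 : ℝ) • (∑ p ∈ T, c p • fp p) +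
        (fun _ ↦ (1 : ℝ)) := by
    funext n
    simp only [Pi.add_apply, Finset.sum_apply, Pi.mul_apply, Pi.smul_apply, smul_eq_mul]
    have h5 : ∑ p ∈ T, ∑ q ∈ T, c p * c q * (fp p n * fp q n) =
        (∑ p ∈ T, c p * fp p n) * (∑ q ∈ T, c q * fp q n) := by
      rw [Finset.sum_mul_sum]
      exact Finset.sum_congr rfl (fun p _ ↦ Finset.sum_congr rfl (fun q _ ↦ by ring))
    rw [h5]
    ring
  rw [h4, m_add, m_add, m_smul, m_one hN, m_sum, m_sum]
  congr 2
  · apply Finset.sum_congr rfl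
    intro p _
    rw [m_sum]
    exact Finset.sum_congr rfl (fun q _ ↦ (m_smul _ _ _).symm)
  · congr 1
    exact Finset.sum_congr rfl (fun p _ ↦ (m_smul _ _ _).symm)

theorem w_lt_one (p : ℕ) : w p < 1 := by
  by_cases hp : p.Prime
  · have hT : 0 < Real.log p := Real.log_pos (by exact_mod_cast hp.one_lt)
    have hp2 := hp.two_le
    unfold w
    rw [if_pos hp, div_lt_one hT]
    obtain ⟨q, hq⟩ : ∃ q, p = q + 1 := ⟨p - 1, by omega⟩
    have h1 : ∑ k ∈ Z p, Real.log (1 + 1 / k) ≤ ∑ k ∈ (Finset.Icc 1 q).erase 1, ell k := by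
      have h2 : ∑ k ∈ Z p, Real.log (1 + 1 / (k : ℝ)) = ∑ k ∈ Z p, ell k := by
        apply Finset.sum_congr rfl
        intro k hk
        rw [mem_Z] at hk
        rw [ell_eq k hk.1.1]
      rw [h2]
      apply Finset.sum_le_sum_of_subset_of_nonneg
      · intro k hk
        rw [mem_Z] at hk
        rw [Finset.mem_erase, Finset.mem_Icc]
        refine ⟨?_, hk.1.1, by omega⟩
        rintro rfl
        have h3 : (harmonic 1).num = 1 := by decide +kernel
        rw [h3] at hk
        have h4 : p ∣ 1 := by exact_mod_cast hk.2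
        exact hp.one_lt.ne' (Nat.dvd_one.mp h4)
      · intro k hk _
        rw [Finset.mem_erase, Finset.mem_Icc] at hk
        exact ell_nonneg k hk.2.1
    have h2 : ∑ k ∈ (Finset.Icc 1 q).erase 1, ell k + ell 1 = ∑ k ∈ Finset.Icc 1 q, ell k :=
      Finset.sum_erase_add _ _ (by rw [Finset.mem_Icc]; omega)
    rw [sum_ell] at h2
    have h3 : 0 < ell 1 := by
      unfold ell
      push_cast
      rw [Real.log_one, sub_zero]
      exact Real.log_pos (by norm_num)
    have h4 : ((q : ℝ) + 1) = p := by rw [hq]; push_cast; ring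
    rw [h4] at h2
    linarith
  · rw [w_eq_zero hp]
    norm_num

/-- the inequality of Chung and Erdos for the density of the integers without common prime -/
theorem chung_erdos (T : Finset ℕ) (hT : ∀ p ∈ T, p.Prime) {d : ℝ}
    (hd : Tendsto (m (ind 0)) atTop (𝓝 d)) : d * (1 + ∑ p ∈ T, w p / (1 - w p)) ≤ 1 := by
  set R := ∑ p ∈ T, w p / (1 - w p) with hR
  have hR0 : 0 ≤ R := Finset.sum_nonneg (fun p _ ↦ div_nonneg (w_nonneg p) (by
    have := w_lt_one p
    linarith))
  have h1 := second_moment_gen T hT (fun p ↦ 1 / ((1 - w p) * (1 + R)))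
  have h2 : ∑ p ∈ T, 1 / ((1 - w p) * (1 + R)) * w p = R / (1 + R) := by
    rw [hR, Finset.sum_div]
    apply Finset.sum_congr rfl
    intro p _
    have h3 : 1 - w p ≠ 0 := by
      have := w_lt_one p
      linarith
    rw [← hR]
    have h4 : 1 + R ≠ 0 := by linarith
    field_simp
  have h3 : ∑ p ∈ T, (1 / ((1 - w p) * (1 + R))) ^ 2 * (w p * (1 - w p)) = R / (1 + R) ^ 2 := by
    rw [hR, Finset.sum_div]
    apply Finset.sum_congr rfl
    intro p _
    have h3 : 1 - w p ≠ 0 := by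
      have := w_lt_one p
      linarith
    rw [← hR]
    have h4 : 1 + R ≠ 0 := by linarith
    field_simp
  rw [h2, h3] at h1
  have h4 : d ≤ (1 - R / (1 + R)) ^ 2 + R / (1 + R) ^ 2 := by
    refine le_of_tendsto_of_tendsto hd h1 (Eventually.of_forall fun N ↦ ?_)
    apply m_mono
    intro n _ _
    unfold ind
    split_ifs with h
    · have h5 : ∀ p ∈ T, 1 / ((1 - w p) * (1 + R)) * fp p n = 0 := by
        intro p _
        have h6 : fp p n = 0 := by
          unfold om at h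
          rw [Finset.card_eq_zero] at h
          unfold fp
          rw [h]
          simp
        rw [h6, mul_zero]
      rw [Finset.sum_eq_zero h5]
      norm_num
    · positivity
  have h5 : (1 - R / (1 + R)) ^ 2 + R / (1 + R) ^ 2 = 1 / (1 + R) := by
    have h6 : 1 + R ≠ 0 := by linarith
    field_simp
    ring
  rw [h5, le_div_iff₀ (by linarith)] at h4
  exact h4

/-- conversion to the classical weights -/
theorem hld {A : Set ℕ} {u : ℕ → ℝ} {d : ℝ} (hu : ∀ n, 1 ≤ n → (n ∈ A → u n = 1) ∧ (n ∉ A → u n = 0))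
    (h : Tendsto (m u) atTop (𝓝 d)) : HasLogDensity A d := by
  classical
  unfold HasLogDensity
  have hell : ∀ n : ℕ, 1 ≤ n → 0 ≤ (1 : ℝ) / n - ell n ∧
      (1 : ℝ) / n - ell n ≤ 1 / n - 1 / (n + 1) := by
    intro n hn
    have hn0 : (0 : ℝ) < n := by exact_mod_cast hn
    rw [ell_eq n hn]
    have h1 : (0 : ℝ) < 1 + 1 / n := by positivity
    constructor
    · have := Real.log_le_sub_one_of_pos h1
      linarith
    · have h2 := Real.one_sub_inv_le_log_of_pos h1
      have h3 : 1 - (1 + 1 / (n : ℝ))⁻¹ = 1 / (n + 1) := by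
        field_simp
        ring
      rw [h3] at h2
      linarith
  have htel : ∀ N : ℕ, ∑ n ∈ Finset.Icc 1 N, ((1 : ℝ) / n - 1 / (n + 1)) ≤ 1 := by
    intro N
    have h1 : ∑ n ∈ Finset.Icc 1 N, ((1 : ℝ) / n - 1 / (n + 1)) = 1 - 1 / (N + 1) := by
      induction N with
      | zero => simp
      | succ N ih =>
        rw [Finset.sum_Icc_succ_top (by omega), ih]
        push_cast
        ring
    rw [h1]
    have : (0 : ℝ) ≤ 1 / ((N : ℝ) + 1) := by positivity
    linarith
  set θ : ℕ → ℝ := fun N ↦ ∑ n ∈ Finset.Icc 1 N, u n * ((1 : ℝ) / n - ell n) with hθ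
  have hu01 : ∀ n, 1 ≤ n → 0 ≤ u n ∧ u n ≤ 1 := by
    intro n hn
    by_cases hA : n ∈ A
    · rw [(hu n hn).1 hA]; norm_num
    · rw [(hu n hn).2 hA]; norm_num
  have hθ0 : ∀ N, 0 ≤ θ N := by
    intro N
    apply Finset.sum_nonneg
    intro n hn
    rw [Finset.mem_Icc] at hn
    exact mul_nonneg (hu01 n hn.1).1 (hell n hn.1).1
  have hθ1 : ∀ N, θ N ≤ 1 := by
    intro N
    refine le_trans ?_ (htel N)
    apply Finset.sum_le_sum
    intro n hn
    rw [Finset.mem_Icc] at hn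
    have h1 := hell n hn.1
    have h2 := hu01 n hn.1
    calc u n * ((1 : ℝ) / n - ell n) ≤ 1 * ((1 : ℝ) / n - ell n) :=
          mul_le_mul_of_nonneg_right h2.2 h1.1
      _ ≤ 1 / n - 1 / (n + 1) := by rw [one_mul]; exact h1.2
  have hsum : ∀ N : ℕ, ∑ n ∈ (Finset.Icc 1 N).filter (fun n ↦ n ∈ A), (1 : ℝ) / n =
      ∑ n ∈ Finset.Icc 1 N, u n * ell n + θ N := by
    intro N
    rw [hθ]
    dsimp only
    rw [← Finset.sum_add_distrib, Finset.sum_filter]
    apply Finset.sum_congr rfl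
    intro n hn
    rw [Finset.mem_Icc] at hn
    split_ifs with hA
    · rw [(hu n hn.1).1 hA]; ring
    · rw [(hu n hn.1).2 hA]; ring
  have hlogN : Tendsto (fun N : ℕ ↦ Real.log (N : ℝ)) atTop atTop :=
    Real.tendsto_log_atTop.comp tendsto_natCast_atTop_atTop
  have hinv : Tendsto (fun N : ℕ ↦ 1 / Real.log (N : ℝ)) atTop (𝓝 0) :=
    tendsto_const_nhds.div_atTop hlogN
  have hellN : Tendsto (fun N : ℕ ↦ ell N / Real.log (N : ℝ)) atTop (𝓝 0) := by
    refine squeeze_zero' ?_ ?_ hinv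
    · filter_upwards [hlogN.eventually_gt_atTop 0, eventually_ge_atTop 1] with N h1 h2
      exact div_nonneg (ell_nonneg N h2) h1.le
    · filter_upwards [hlogN.eventually_gt_atTop 0, eventually_ge_atTop 1] with N h1 h2
      apply div_le_div_of_nonneg_right _ h1.le
      have h3 := (hell N h2).1
      have h4 : (1 : ℝ) / N ≤ 1 := by
        rw [div_le_one (by exact_mod_cast h2)]
        exact_mod_cast h2
      linarith
  have hthN : Tendsto (fun N : ℕ ↦ θ N / Real.log (N : ℝ)) atTop (𝓝 0) := by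
    refine squeeze_zero' ?_ ?_ hinv
    · filter_upwards [hlogN.eventually_gt_atTop 0] with N h1
      exact div_nonneg (hθ0 N) h1.le
    · filter_upwards [hlogN.eventually_gt_atTop 0] with N h1
      exact div_le_div_of_nonneg_right (hθ1 N) h1.le
  have hlim : Tendsto (fun N : ℕ ↦ m u N * (1 + ell N / Real.log (N : ℝ)) +
      θ N / Real.log (N : ℝ)) atTop (𝓝 (d * (1 + 0) + 0)) :=
    (h.mul (tendsto_const_nhds.add hellN)).add hthN
  rw [add_zero, add_zero, mul_one] at hlim
  refine hlim.congr' ?_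
  filter_upwards [hlogN.eventually_gt_atTop 0] with N h1
  rw [hsum N]
  have h2 : 0 < Real.log ((N : ℝ) + 1) := by
    rcases Nat.eq_zero_or_pos N with h0 | h0
    · subst h0; simp at h1
    · apply Real.log_pos
      have : (0 : ℝ) < N := by exact_mod_cast h0
      linarith
  unfold m ell
  field_simp
  ring

end Pool.Agent.Lib.MP_62a313_nt.LD3
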