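import Mathlib
import Pool.Agent.Lib.MP_62a313_nt.LD3.Dich

set_option autoImplicit false

open Filter Topology MeasureTheory
open Nbb67e70a

namespace Pool.Agent.Lib.MP_62a313_nt.LD3

theorem split_int {E : Type*} [NormedAddCommGroup E] [NormedSpace ℝ E] {F : ℝ → E}
    (hF : ∀ a b, IntervalIntegrable F volume a b) (N : ℕ) :
    ∫ t in (0 : ℝ)..Real.log (N + 1), F t =
      ∑ n ∈ Finset.Icc 1 N, ∫ t in Real.log n..Real.log (n + 1), F t := by
  induction N with
  | zero => simp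
  | succ N ih =>
    rw [Finset.sum_Icc_succ_top (by omega), ← ih]
    push_cast
    rw [intervalIntegral.integral_add_adjacent_intervals (hF _ _) (hF _ _)]

theorem floor_on {n : ℕ} (hn : 1 ≤ n) {t : ℝ} (ht : t ∈ Set.Ioo (Real.log n) (Real.log (n + 1))) :
    ⌊Real.exp t⌋₊ = n := by
  have h0 : (0 : ℝ) < n := by exact_mod_cast hn
  rw [Set.mem_Ioo] at ht
  rw [Nat.floor_eq_iff (Real.exp_pos _).le]
  constructor
  · have h1 := Real.exp_le_exp.mpr ht.1.le
    rwa [Real.exp_log h0] at h1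
  · have h1 := Real.exp_lt_exp.mpr ht.2
    rwa [Real.exp_log (by positivity)] at h1

theorem log_le_succ {n : ℕ} (hn : 1 ≤ n) : Real.log (n : ℝ) ≤ Real.log ((n : ℝ) + 1) := by
  have h0 : (0 : ℝ) < n := by exact_mod_cast hn
  exact Real.log_le_log h0 (by linarith)

/-- `X ≤ log (⌊exp X⌋ + 1) ≤ X + 1` -/
theorem log_floor {X : ℝ} (hX : 0 ≤ X) :
    X ≤ Real.log ((⌊Real.exp X⌋₊ : ℝ) + 1) ∧ Real.log ((⌊Real.exp X⌋₊ : ℝ) + 1) ≤ X + 1 := by
  have h1 : Real.exp X < (⌊Real.exp X⌋₊ : ℝ) + 1 := Nat.lt_floor_add_one _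
  have h2 : (⌊Real.exp X⌋₊ : ℝ) ≤ Real.exp X := Nat.floor_le (Real.exp_pos X).le
  constructor
  · rw [Real.le_log_iff_exp_le (by positivity)]
    exact h1.le
  · rw [Real.log_le_iff_le_exp (by positivity), Real.exp_add]
    have h3 : 2 ≤ Real.exp 1 := by
      have := Real.add_one_le_exp (1 : ℝ)
      linarith
    have h4 : 1 ≤ Real.exp X := Real.one_le_exp hX
    nlinarith

theorem cR_norm_int (u : ℕ → ℝ) {C : ℝ} (hC : ∀ n, |u n| ≤ C) (N : ℕ) :
    ∫ t in (0 : ℝ)..Real.log (N + 1), ‖st (cR u) t‖ = ∑ n ∈ Finset.Icc 1 N, |u n| * ell n := by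
  have hint : ∀ a b, IntervalIntegrable (fun t ↦ ‖st (cR u) t‖) volume a b := by
    intro a b
    refine bdd_int (C := C) (st_meas _).norm (fun t ↦ ?_) a b
    rw [norm_norm]
    unfold st cR
    rw [Complex.norm_real]
    exact hC _
  rw [split_int hint]
  apply Finset.sum_congr rfl
  intro n hn
  rw [Finset.mem_Icc] at hn
  rw [intervalIntegral.integral_congr_Ioo_of_le (g := fun _ ↦ |u n|) (log_le_succ hn.1)]
  · rw [intervalIntegral.integral_const, smul_eq_mul, mul_comm]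
    rfl
  · intro t ht
    dsimp only
    unfold st cR
    rw [floor_on hn.1 ht, Complex.norm_real, Real.norm_eq_abs]

/-- the class is closed in logarithmic mean -/
theorem AP_of_close {u : ℕ → ℝ} {C : ℝ} (hC : ∀ n, |u n| ≤ C)
    (h : ∀ ε : ℝ, 0 < ε → ∃ v : ℕ → ℝ, AP ⊤ (cR v) ∧ ∀ᶠ N : ℕ in atTop, m (fun n ↦ |u n - v n|) N ≤ ε) :
    AP ⊤ (cR u) := by
  have hC0 : 0 ≤ C := (abs_nonneg _).trans (hC 0)
  constructor
  · refine ⟨C, hC0, fun n ↦ ?_⟩
    unfold cR
    rw [Complex.norm_real]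
    exact hC n
  · intro ε hε
    obtain ⟨v, hv, hvN⟩ := h (ε / 4) (by positivity)
    obtain ⟨P, hP, hPX⟩ := hv.approx (ε / 2) (by positivity)
    obtain ⟨D, hD0, hD⟩ := hv.bdd
    obtain ⟨CP, _, hCP⟩ := (TP_cont_bdd hP).2
    have hcont := (TP_cont_bdd hP).1
    refine ⟨P, hP, ?_⟩
    have hfl : Tendsto (fun X : ℝ ↦ ⌊Real.exp X⌋₊) atTop atTop :=
      tendsto_nat_floor_atTop.comp Real.tendsto_exp_atTop
    filter_upwards [hPX, hfl.eventually hvN, eventually_ge_atTop 1] with X h1 h2 h3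
    have hX0 : 0 ≤ X := by linarith
    have hu1 : ∀ t, ‖st (cR u) t‖ ≤ C := by
      intro t
      unfold st cR
      rw [Complex.norm_real]
      exact hC _
    have hi1 : ∀ a b, IntervalIntegrable (fun t ↦ ‖st (cR u) t - P t‖) volume a b := by
      intro a b
      refine bdd_int (C := C + CP) ((st_meas _).sub hcont.measurable).norm (fun t ↦ ?_) a b
      rw [norm_norm]
      exact (norm_sub_le _ _).trans (add_le_add (hu1 t) (hCP t))
    have hi2 : ∀ a b, IntervalIntegrable (fun t ↦ ‖st (cR (fun n ↦ u n - v n)) t‖) volume a b := by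
      intro a b
      refine bdd_int (C := C + D) (st_meas _).norm (fun t ↦ ?_) a b
      rw [norm_norm]
      unfold st cR
      push_cast
      refine (norm_sub_le _ _).trans (add_le_add ?_ ?_)
      · exact hu1 t
      · exact hD _
    have hi3 := hv.int' hP
    have h4 : ∫ t in (0 : ℝ)..X, ‖st (cR u) t - P t‖ ≤
        ∫ t in (0 : ℝ)..X, (‖st (cR (fun n ↦ u n - v n)) t‖ + ‖st (cR v) t - P t‖) := by
      apply intervalIntegral.integral_mono_on hX0 (hi1 _ _) ((hi2 _ _).add (hi3 _ _))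
      intro t _
      have h5 : st (cR u) t - P t = st (cR (fun n ↦ u n - v n)) t + (st (cR v) t - P t) := by
        unfold st cR
        push_cast
        ring
      rw [h5]
      exact norm_add_le _ _
    rw [intervalIntegral.integral_add (hi2 _ _) (hi3 _ _)] at h4
    have h5 : ∫ t in (0 : ℝ)..X, ‖st (cR (fun n ↦ u n - v n)) t‖ ≤
        ∫ t in (0 : ℝ)..Real.log ((⌊Real.exp X⌋₊ : ℝ) + 1), ‖st (cR (fun n ↦ u n - v n)) t‖ :=
      intervalIntegral.integral_mono_interval le_rfl hX0 (log_floor hX0).1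
        (ae_of_all _ fun _ ↦ norm_nonneg _) (hi2 _ _)
    have h6 := cR_norm_int (fun n ↦ u n - v n) (C := C + D) (fun n ↦ by
      refine (abs_sub _ _).trans (add_le_add (hC n) ?_)
      have := hD n
      unfold cR at this
      rwa [Complex.norm_real] at this) ⌊Real.exp X⌋₊
    rw [h6] at h5
    have h7 : ∑ n ∈ Finset.Icc 1 ⌊Real.exp X⌋₊, |u n - v n| * ell n ≤
        ε / 4 * Real.log ((⌊Real.exp X⌋₊ : ℝ) + 1) := by
      have h8 : 0 < Real.log ((⌊Real.exp X⌋₊ : ℝ) + 1) := by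
        have := (log_floor hX0).1
        linarith
      unfold m at h2
      rwa [div_le_iff₀ h8] at h2
    have h8 := (log_floor hX0).2
    have h9 : ε / 4 * Real.log ((⌊Real.exp X⌋₊ : ℝ) + 1) ≤ ε / 4 * (X + X) := by
      apply mul_le_mul_of_nonneg_left _ (by positivity)
      linarith
    linarith

theorem AP_ind (r : ℕ) : AP ⊤ (cR (ind r)) := by
  have h01 : ∀ n, |ind r n| ≤ 1 := by
    intro n
    unfold ind
    split_ifs <;> norm_num
  by_cases hs : Summable w
  · refine AP_of_close h01 (fun ε hε ↦ ?_)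
    obtain ⟨y, hy⟩ := (tail_small hs hε).exists
    refine ⟨lev (TT y) r, AP_lev (TT y) (fun p hp ↦ TT_prime hp) r, Eventually.of_forall fun N ↦ ?_⟩
    refine le_trans ?_ ((tail_le hs (TT y) N).trans hy)
    have h1 : m (fun n ↦ |ind r n - lev (TT y) r n|) N ≤
        m (∑ p ∈ Nat.primesLE N \ TT y, fp p) N := by
      apply m_mono
      intro n h1 h2
      rw [Finset.sum_apply]
      exact lev_close r h1 h2
    rw [m_sum] at h1
    refine h1.trans ?_
    apply Finset.sum_le_sum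
    intro p hp
    rw [Finset.mem_sdiff, Nat.mem_primesLE] at hp
    exact m_fp_le hp.1.2 N
  · refine AP_of_close h01 (fun ε hε ↦ ⟨fun _ ↦ 0, ?_, ?_⟩)
    · have h1 : cR (fun _ ↦ (0 : ℝ)) = fun _ ↦ (0 : ℂ) := by
        funext n
        simp [cR]
      rw [h1]
      exact AP.const _ _
    · have h1 := (tendsto_order.mp (div_zero_limit hs r)).2 ε hε
      filter_upwards [h1] with N hN
      refine le_trans ?_ hN.le
      apply m_mono
      intro n _ _
      rw [sub_zero, abs_of_nonneg (ind_nonneg r n)]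

/-- averages -/
noncomputable def avg (u : ℕ → ℂ) : ℕ → ℂ := fun N ↦ (∑ n ∈ Finset.Icc 1 N, u n) / N

theorem exp_int (n : ℕ) (hn : 1 ≤ n) :
    ∫ t in Real.log n..Real.log (n + 1), Real.exp t = 1 := by
  have h0 : (0 : ℝ) < n := by exact_mod_cast hn
  rw [integral_exp, Real.exp_log (by positivity), Real.exp_log h0]
  ring

/-- the sum of a sequence as an integral with the weight `exp` -/
theorem sum_exp (u : ℕ → ℂ) (N : ℕ) :
    ∑ n ∈ Finset.Icc 1 N, u n = ∑ n ∈ Finset.Icc 1 N,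
      ∫ t in Real.log n..Real.log (n + 1), st u t * (Real.exp t : ℂ) := by
  apply Finset.sum_congr rfl
  intro n hn
  rw [Finset.mem_Icc] at hn
  rw [intervalIntegral.integral_congr_Ioo_of_le (g := fun t ↦ u n * ((Real.exp t : ℝ) : ℂ))
    (log_le_succ hn.1)]
  · rw [intervalIntegral.integral_const_mul, intervalIntegral.integral_ofReal, exp_int n hn.1]
    simp
  · intro t ht
    dsimp only
    unfold st
    rw [floor_on hn.1 ht]

/-- the property that `Q` describes the averages of `P` with error constant `C` -/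
def AvgBy (P Q : ℝ → ℂ) (C : ℝ) : Prop :=
  (∀ s t : ℝ, ‖Q s - Q t‖ ≤ C * |s - t|) ∧
    ∀ N : ℕ, 1 ≤ N → ‖(∫ t in (0 : ℝ)..Real.log (N + 1), P t * (Real.exp t : ℂ)) / N -
      Q (Real.log (N + 1))‖ ≤ C / N

theorem ex_lip (θ s t : ℝ) : ‖ex θ s - ex θ t‖ ≤ |θ| * |s - t| := by
  have h1 : ex θ s - ex θ t = ex θ t * (Complex.exp (Complex.I * ((θ * (s - t) : ℝ) : ℂ)) - 1) := by
    unfold ex
    rw [mul_sub, mul_one, ← Complex.exp_add]
    congr 2
    push_cast
    ring
  rw [h1, norm_mul, ex_norm, one_mul, ← abs_mul]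
  exact Real.norm_exp_I_mul_ofReal_sub_one_le

theorem ex_exp_int (θ Y : ℝ) :
    ∫ t in (0 : ℝ)..Y, ex θ t * (Real.exp t : ℂ) =
      ((Real.exp Y : ℂ) * ex θ Y - 1) / (1 + (θ : ℂ) * Complex.I) := by
  have hz0 : (1 + (θ : ℂ) * Complex.I) ≠ 0 := by
    intro h
    have := congrArg Complex.re h
    simp at this
  have h1 := integral_exp_mul_complex (a := 0) (b := Y) hz0
  have h2 : ∀ t : ℝ, ex θ t * (Real.exp t : ℂ) = Complex.exp ((1 + (θ : ℂ) * Complex.I) * t) := by
    intro t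
    unfold ex
    rw [Complex.ofReal_exp, ← Complex.exp_add]
    congr 1
    push_cast
    ring
  simp only [h2]
  rw [h1]
  congr 1
  rw [Complex.ofReal_zero, mul_zero, Complex.exp_zero, ← h2, mul_comm]

theorem avgBy_ex (θ : ℝ) :
    AvgBy (ex θ) ((1 + (θ : ℂ) * Complex.I)⁻¹ • ex θ) (|θ| + 2) := by
  have hz1 : 1 ≤ ‖(1 + (θ : ℂ) * Complex.I)‖ := by
    have h1 := Complex.abs_re_le_norm (1 + (θ : ℂ) * Complex.I)
    have h2 : (1 + (θ : ℂ) * Complex.I).re = 1 := by simp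
    rw [h2] at h1
    simpa using h1
  have hz0 : (1 + (θ : ℂ) * Complex.I) ≠ 0 := by
    intro h
    rw [h, norm_zero] at hz1
    linarith
  constructor
  · intro s t
    rw [Pi.smul_apply, Pi.smul_apply, ← smul_sub, norm_smul, norm_inv]
    have h1 : ‖(1 + (θ : ℂ) * Complex.I)‖⁻¹ ≤ 1 := inv_le_one_of_one_le₀ hz1
    calc ‖(1 + (θ : ℂ) * Complex.I)‖⁻¹ * ‖ex θ s - ex θ t‖ ≤ 1 * (|θ| * |s - t|) :=
          mul_le_mul h1 (ex_lip θ s t) (norm_nonneg _) zero_le_one
      _ ≤ (|θ| + 2) * |s - t| := by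
          have := abs_nonneg (s - t)
          nlinarith
  · intro N hN
    have hN0 : (0 : ℝ) < N := by exact_mod_cast hN
    have hNc : (N : ℂ) ≠ 0 := by exact_mod_cast hN0.ne'
    rw [ex_exp_int, Real.exp_log (by positivity), Pi.smul_apply, smul_eq_mul]
    set y := ex θ (Real.log ((N : ℝ) + 1)) with hy
    have hy1 : ‖y‖ = 1 := ex_norm _ _
    set z : ℂ := 1 + (θ : ℂ) * Complex.I with hz
    have h3 : (((((N : ℝ) + 1 : ℝ) : ℂ)) * y - 1) / z / N - z⁻¹ * y = (y - 1) / (z * N) := by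
      push_cast
      field_simp
      ring
    rw [h3, norm_div, norm_mul]
    have h4 : ‖(N : ℂ)‖ = N := by simp
    rw [h4]
    have h5 : ‖y - 1‖ ≤ 2 := by
      refine (norm_sub_le _ _).trans ?_
      rw [hy1]
      norm_num
    calc ‖y - 1‖ / (‖z‖ * N) ≤ 2 / (1 * N) := by
          apply div_le_div₀ (by norm_num) h5 (by positivity)
          exact mul_le_mul_of_nonneg_right hz1 hN0.le
      _ ≤ (|θ| + 2) / N := by
          rw [one_mul]
          apply div_le_div_of_nonneg_right _ hN0.le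
          have := abs_nonneg θ
          linarith

theorem TP_exp_int {P : ℝ → ℂ} (hP : P ∈ TP (⊤ : AddSubgroup ℝ)) (a b : ℝ) :
    IntervalIntegrable (fun t ↦ P t * (Real.exp t : ℂ)) volume a b := by
  apply Continuous.intervalIntegrable
  exact (TP_cont_bdd hP).1.mul (Complex.continuous_ofReal.comp Real.continuous_exp)

theorem AvgBy.add {P P' Q Q' : ℝ → ℂ} {C C' : ℝ} (h : AvgBy P Q C) (h' : AvgBy P' Q' C')
    (hP : ∀ a b : ℝ, IntervalIntegrable (fun t ↦ P t * (Real.exp t : ℂ)) volume a b)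
    (hP' : ∀ a b : ℝ, IntervalIntegrable (fun t ↦ P' t * (Real.exp t : ℂ)) volume a b) :
    AvgBy (P + P') (Q + Q') (C + C') := by
  constructor
  · intro s t
    have h1 : (Q + Q') s - (Q + Q') t = (Q s - Q t) + (Q' s - Q' t) := by
      simp only [Pi.add_apply]
      ring
    rw [h1, add_mul]
    exact (norm_add_le _ _).trans (add_le_add (h.1 s t) (h'.1 s t))
  · intro N hN
    have h1 : ∫ t in (0 : ℝ)..Real.log (N + 1), (P + P') t * (Real.exp t : ℂ) =
        (∫ t in (0 : ℝ)..Real.log (N + 1), P t * (Real.exp t : ℂ)) +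
        ∫ t in (0 : ℝ)..Real.log (N + 1), P' t * (Real.exp t : ℂ) := by
      rw [← intervalIntegral.integral_add (hP _ _) (hP' _ _)]
      apply intervalIntegral.integral_congr
      intro t _
      simp only [Pi.add_apply]
      ring
    rw [h1]
    have h2 : ((∫ t in (0 : ℝ)..Real.log (N + 1), P t * (Real.exp t : ℂ)) +
        ∫ t in (0 : ℝ)..Real.log (N + 1), P' t * (Real.exp t : ℂ)) / N -
        (Q + Q') (Real.log (N + 1)) =
        ((∫ t in (0 : ℝ)..Real.log (N + 1), P t * (Real.exp t : ℂ)) / N - Q (Real.log (N + 1))) +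
        ((∫ t in (0 : ℝ)..Real.log (N + 1), P' t * (Real.exp t : ℂ)) / N -
          Q' (Real.log (N + 1))) := by
      simp only [Pi.add_apply]
      ring
    rw [h2, add_div]
    exact (norm_add_le _ _).trans (add_le_add (h.2 N hN) (h'.2 N hN))

theorem AvgBy.smul {P Q : ℝ → ℂ} {C : ℝ} (h : AvgBy P Q C) (k : ℂ) :
    AvgBy (k • P) (k • Q) (‖k‖ * C) := by
  constructor
  · intro s t
    rw [Pi.smul_apply, Pi.smul_apply, ← smul_sub, norm_smul, mul_assoc]
    exact mul_le_mul_of_nonneg_left (h.1 s t) (norm_nonneg _)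
  · intro N hN
    have h1 : ∫ t in (0 : ℝ)..Real.log (N + 1), (k • P) t * (Real.exp t : ℂ) =
        k * ∫ t in (0 : ℝ)..Real.log (N + 1), P t * (Real.exp t : ℂ) := by
      rw [← intervalIntegral.integral_const_mul]
      apply intervalIntegral.integral_congr
      intro t _
      simp only [Pi.smul_apply, smul_eq_mul]
      ring
    rw [h1]
    have h2 : (k * ∫ t in (0 : ℝ)..Real.log (N + 1), P t * (Real.exp t : ℂ)) / N -
        (k • Q) (Real.log (N + 1)) =
        k * ((∫ t in (0 : ℝ)..Real.log (N + 1), P t * (Real.exp t : ℂ)) / N -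
          Q (Real.log (N + 1))) := by
      simp only [Pi.smul_apply, smul_eq_mul]
      ring
    rw [h2, norm_mul, mul_div_assoc]
    exact mul_le_mul_of_nonneg_left (h.2 N hN) (norm_nonneg _)

/-- averages of trigonometric polynomials -/
theorem TP_avg {P : ℝ → ℂ} (hP : P ∈ TP (⊤ : AddSubgroup ℝ)) :
    ∃ Q ∈ TP (⊤ : AddSubgroup ℝ), ∃ C : ℝ, 0 ≤ C ∧ AvgBy P Q C := by
  refine Submodule.span_induction (p := fun P _ ↦ ∃ Q ∈ TP (⊤ : AddSubgroup ℝ), ∃ C : ℝ, 0 ≤ C ∧
      AvgBy P Q C) ?_ ?_ ?_ ?_ hP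
  · rintro _ ⟨θ, _, rfl⟩
    exact ⟨_, (TP ⊤).smul_mem _ (ex_mem (AddSubgroup.mem_top θ)), |θ| + 2, by positivity,
      avgBy_ex θ⟩
  · exact ⟨0, (TP ⊤).zero_mem, 0, le_rfl, fun s t ↦ by simp, fun N _ ↦ by simp⟩
  · rintro x y hx hy ⟨Q, hQ, C, hC0, hC⟩ ⟨Q', hQ', C', hC0', hC'⟩
    exact ⟨Q + Q', (TP ⊤).add_mem hQ hQ', C + C', by positivity,
      hC.add hC' (TP_exp_int hx) (TP_exp_int hy)⟩
  · rintro k x _ ⟨Q, hQ, C, hC0, hC⟩
    exact ⟨k • Q, (TP ⊤).smul_mem k hQ, ‖k‖ * C, by positivity, hC.smul k⟩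

end Pool.Agent.Lib.MP_62a313_nt.LD3
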