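import Mathlib
import Pool.Agent.Lib.MP_62a313_nt.LD3.Dich

set_option autoImplicit false

open Filter Topology MeasureTheory
open Nbb67e70a

namespace Pool.Agent.Lib.MP_62a313_nt.LD3

theorem abel (s : ℕ → ℝ) (X : ℕ) :
    ∑ N ∈ Finset.Icc 1 X, (∑ n ∈ Finset.Icc 1 N, s n) * ((1 : ℝ) / N - 1 / (N + 1)) +
      (∑ n ∈ Finset.Icc 1 X, s n) / (X + 1) = ∑ n ∈ Finset.Icc 1 X, s n / n := by
  induction X with
  | zero => simp
  | succ X ih =>
    rw [Finset.sum_Icc_succ_top (by omega : 1 ≤ X + 1) (fun n ↦ s n / n), ← ih,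
      Finset.sum_Icc_succ_top (by omega : 1 ≤ X + 1)
        (fun N ↦ (∑ n ∈ Finset.Icc 1 N, s n) * ((1 : ℝ) / N - 1 / (N + 1))),
      Finset.sum_Icc_succ_top (by omega : 1 ≤ X + 1) s]
    have h1 : ((X : ℝ) + 1) ≠ 0 := by positivity
    have h2 : ((X : ℝ) + 1 + 1) ≠ 0 := by positivity
    push_cast
    field_simp
    ring

open Classical in
/-- the logarithmic mean of the proportions is the logarithmic density -/
theorem prop_mean {A : Set ℕ} {d : ℝ} (h : HasLogDensity A d) :
    Tendsto (fun X : ℕ ↦ (∑ N ∈ Finset.Icc 1 X,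
      ((((Finset.Icc 1 N).filter (fun n ↦ n ∈ A)).card : ℝ) / N) / N) / Real.log X)
      atTop (𝓝 d) := by
  set s : ℕ → ℝ := fun n ↦ if n ∈ A then 1 else 0 with hs
  have hs0 : ∀ n, 0 ≤ s n := by
    intro n
    rw [hs]
    dsimp only
    split_ifs <;> norm_num
  have hs1 : ∀ n, s n ≤ 1 := by
    intro n
    rw [hs]
    dsimp only
    split_ifs <;> norm_num
  have hcard : ∀ N : ℕ, (((Finset.Icc 1 N).filter (fun n ↦ n ∈ A)).card : ℝ) =
      ∑ n ∈ Finset.Icc 1 N, s n := by
    intro N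
    rw [Finset.card_filter]
    push_cast
    rfl
  have hS : ∀ N : ℕ, 0 ≤ ∑ n ∈ Finset.Icc 1 N, s n ∧ ∑ n ∈ Finset.Icc 1 N, s n ≤ N := by
    intro N
    constructor
    · exact Finset.sum_nonneg (fun n _ ↦ hs0 n)
    · calc ∑ n ∈ Finset.Icc 1 N, s n ≤ ∑ _n ∈ Finset.Icc 1 N, (1 : ℝ) :=
            Finset.sum_le_sum (fun n _ ↦ hs1 n)
        _ = N := by simp
  have hsum : ∀ X : ℕ, ∑ n ∈ (Finset.Icc 1 X).filter (fun n ↦ n ∈ A), (1 : ℝ) / n =
      ∑ n ∈ Finset.Icc 1 X, s n / n := by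
    intro X
    rw [Finset.sum_filter]
    apply Finset.sum_congr rfl
    intro n _
    rw [hs]
    dsimp only
    split_ifs <;> simp
  set q : ℕ → ℝ := fun X ↦ ∑ N ∈ Finset.Icc 1 X,
      ((((Finset.Icc 1 N).filter (fun n ↦ n ∈ A)).card : ℝ) / N) / N with hq
  have hq1 : ∀ X : ℕ, |q X - ∑ n ∈ Finset.Icc 1 X, s n / n| ≤ 1 := by
    intro X
    rw [← abel s X]
    have h1 : q X = ∑ N ∈ Finset.Icc 1 X, (∑ n ∈ Finset.Icc 1 N, s n) *
        ((1 : ℝ) / N - 1 / (N + 1)) + ∑ N ∈ Finset.Icc 1 X,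
          (∑ n ∈ Finset.Icc 1 N, s n) / (N ^ 2 * (N + 1)) := by
      rw [hq]
      dsimp only
      rw [← Finset.sum_add_distrib]
      apply Finset.sum_congr rfl
      intro N hN
      rw [Finset.mem_Icc] at hN
      have hN0 : (N : ℝ) ≠ 0 := by
        have : (0 : ℝ) < N := by exact_mod_cast hN.1
        exact this.ne'
      rw [hcard]
      field_simp
      ring
    have h2 : 0 ≤ ∑ N ∈ Finset.Icc 1 X, (∑ n ∈ Finset.Icc 1 N, s n) / ((N : ℝ) ^ 2 * (N + 1)) := by
      apply Finset.sum_nonneg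
      intro N _
      exact div_nonneg (hS N).1 (by positivity)
    have h3 : ∑ N ∈ Finset.Icc 1 X, (∑ n ∈ Finset.Icc 1 N, s n) / ((N : ℝ) ^ 2 * (N + 1)) ≤ 1 := by
      have h4 : ∀ Y : ℕ, ∑ N ∈ Finset.Icc 1 Y, ((1 : ℝ) / N - 1 / (N + 1)) = 1 - 1 / (Y + 1) := by
        intro Y
        induction Y with
        | zero => simp
        | succ Y ih =>
          rw [Finset.sum_Icc_succ_top (by omega), ih]
          push_cast
          ring
      have h5 : ∑ N ∈ Finset.Icc 1 X, (∑ n ∈ Finset.Icc 1 N, s n) / ((N : ℝ) ^ 2 * (N + 1)) ≤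
          ∑ N ∈ Finset.Icc 1 X, ((1 : ℝ) / N - 1 / (N + 1)) := by
        apply Finset.sum_le_sum
        intro N hN
        rw [Finset.mem_Icc] at hN
        have hN0 : (0 : ℝ) < N := by exact_mod_cast hN.1
        have h6 : (1 : ℝ) / N - 1 / (N + 1) = N / ((N : ℝ) ^ 2 * (N + 1)) := by
          field_simp
          ring
        rw [h6]
        exact div_le_div_of_nonneg_right (hS N).2 (by positivity)
      rw [h4] at h5
      have : (0 : ℝ) ≤ 1 / ((X : ℝ) + 1) := by positivity
      linarith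
    have h4 : 0 ≤ (∑ n ∈ Finset.Icc 1 X, s n) / ((X : ℝ) + 1) := div_nonneg (hS X).1 (by positivity)
    have h5 : (∑ n ∈ Finset.Icc 1 X, s n) / ((X : ℝ) + 1) ≤ 1 := by
      rw [div_le_one (by positivity)]
      have := (hS X).2
      linarith
    rw [h1, abs_le]
    constructor <;> linarith
  have hlogN : Tendsto (fun N : ℕ ↦ Real.log (N : ℝ)) atTop atTop :=
    Real.tendsto_log_atTop.comp tendsto_natCast_atTop_atTop
  have hinv : Tendsto (fun N : ℕ ↦ 1 / Real.log (N : ℝ)) atTop (𝓝 0) :=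
    tendsto_const_nhds.div_atTop hlogN
  have hdiff : Tendsto (fun X : ℕ ↦ (q X - ∑ n ∈ Finset.Icc 1 X, s n / n) / Real.log X)
      atTop (𝓝 0) := by
    rw [tendsto_zero_iff_norm_tendsto_zero]
    refine squeeze_zero' (Eventually.of_forall fun _ ↦ norm_nonneg _) ?_ hinv
    filter_upwards [hlogN.eventually_gt_atTop 0] with X hX
    rw [norm_div, Real.norm_eq_abs, Real.norm_of_nonneg hX.le]
    exact div_le_div_of_nonneg_right (hq1 X) hX.le
  unfold HasLogDensity at h
  have h1 := hdiff.add h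
  rw [zero_add] at h1
  refine h1.congr (fun X ↦ ?_)
  rw [hsum, ← add_div]
  congr 1
  ring

open Classical in
/-- in the case of logarithmic density zero the proportions tend to zero off a set of logarithmic
density zero -/
theorem prop_zero {A : Set ℕ} (h : HasLogDensity A 0) {ε : ℝ} (hε : 0 < ε) :
    HasLogDensity {N : ℕ | ε * N ≤ (((Finset.Icc 1 N).filter (fun n ↦ n ∈ A)).card : ℝ)} 0 := by
  have h1 := prop_mean h
  have h2 := h1.const_mul (1 / ε)
  rw [mul_zero] at h2
  have hlogN : Tendsto (fun N : ℕ ↦ Real.log (N : ℝ)) atTop atTop :=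
    Real.tendsto_log_atTop.comp tendsto_natCast_atTop_atTop
  unfold HasLogDensity
  refine squeeze_zero' ?_ ?_ h2
  · filter_upwards [hlogN.eventually_gt_atTop 0] with X hX
    apply div_nonneg _ hX.le
    apply Finset.sum_nonneg
    intro n _
    positivity
  · filter_upwards [hlogN.eventually_gt_atTop 0] with X hX
    rw [← mul_div_assoc]
    apply div_le_div_of_nonneg_right _ hX.le
    rw [Finset.mul_sum, Finset.sum_filter]
    apply Finset.sum_le_sum
    intro N hN
    rw [Finset.mem_Icc] at hN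
    have hN0 : (0 : ℝ) < N := by exact_mod_cast hN.1
    split_ifs with hA
    · rw [← mul_div_assoc]
      apply div_le_div_of_nonneg_right _ hN0.le
      rw [one_div, inv_mul_eq_div, le_div_iff₀ hε, le_div_iff₀ hN0]
      linarith
    · positivity

/-- a sequence tending to zero has logarithmic mean zero -/
theorem log_cesaro {x : ℕ → ℝ} (hx : Tendsto x atTop (𝓝 0)) :
    Tendsto (fun X : ℕ ↦ (∑ N ∈ Finset.Icc 1 X, x N / N) / Real.log X) atTop (𝓝 0) := by
  have hlogN : Tendsto (fun N : ℕ ↦ Real.log (N : ℝ)) atTop atTop :=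
    Real.tendsto_log_atTop.comp tendsto_natCast_atTop_atTop
  rw [Metric.tendsto_nhds]
  intro ε hε
  obtain ⟨N0, hN0⟩ := Filter.eventually_atTop.mp
    ((Metric.tendsto_nhds.mp hx) (ε / 4) (by positivity))
  set K : ℝ := ∑ N ∈ Finset.Icc 1 N0, |x N / N| with hK
  have hK0 : 0 ≤ K := Finset.sum_nonneg (fun _ _ ↦ abs_nonneg _)
  have hH : ∀ X : ℕ, 1 ≤ X → ∑ N ∈ Finset.Icc 1 X, (1 : ℝ) / N ≤ 1 + Real.log X := by
    intro X _
    have h1 := harmonic_le_one_add_log X
    have h2 : ((harmonic X : ℚ) : ℝ) = ∑ N ∈ Finset.Icc 1 X, (1 : ℝ) / N := by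
      rw [harmonic_eq_sum_Icc]
      push_cast
      exact Finset.sum_congr rfl (fun N _ ↦ by rw [one_div])
    rw [← h2]
    exact h1
  filter_upwards [hlogN.eventually_ge_atTop 1, hlogN.eventually_gt_atTop (4 * K / ε),
    eventually_ge_atTop 1] with X h1 h2 h3
  have hX0 : 0 < Real.log (X : ℝ) := by linarith
  rw [Real.dist_eq, sub_zero, abs_div, abs_of_pos hX0, div_lt_iff₀ hX0]
  have h4 : |∑ N ∈ Finset.Icc 1 X, x N / N| ≤ K + ε / 4 * (1 + Real.log X) := by
    refine (Finset.abs_sum_le_sum_abs _ _).trans ?_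
    calc ∑ N ∈ Finset.Icc 1 X, |x N / N| ≤ ∑ N ∈ Finset.Icc 1 X,
          ((if N ∈ Finset.Icc 1 N0 then |x N / N| else 0) + ε / 4 * (1 / N)) := by
          apply Finset.sum_le_sum
          intro N hN
          rw [Finset.mem_Icc] at hN
          have hNp : (0 : ℝ) < N := by exact_mod_cast hN.1
          split_ifs with h
          · have : 0 ≤ ε / 4 * (1 / (N : ℝ)) := by positivity
            linarith
          · rw [Finset.mem_Icc] at h
            have h5 := hN0 N (by omega)
            rw [Real.dist_eq, sub_zero] at h5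
            rw [abs_div, abs_of_pos hNp, zero_add, mul_one_div]
            exact div_le_div_of_nonneg_right h5.le hNp.le
      _ = ∑ N ∈ Finset.Icc 1 X, (if N ∈ Finset.Icc 1 N0 then |x N / N| else 0) +
          ε / 4 * ∑ N ∈ Finset.Icc 1 X, (1 : ℝ) / N := by
          rw [Finset.sum_add_distrib, Finset.mul_sum]
      _ ≤ K + ε / 4 * (1 + Real.log X) := by
          apply add_le_add
          · rw [← Finset.sum_filter]
            apply Finset.sum_le_sum_of_subset_of_nonneg
            · intro N hN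
              exact (Finset.mem_filter.mp hN).2
            · intro _ _ _
              exact abs_nonneg _
          · exact mul_le_mul_of_nonneg_left (hH X h3) (by positivity)
  have h5 : K < ε / 4 * Real.log X := by
    rw [div_lt_iff₀ hε] at h2
    linarith
  nlinarith

end Pool.Agent.Lib.MP_62a313_nt.LD3
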