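import Mathlib
import Pool.Agent.Lib.MP_62a313_nt.LD3.Avg
import Pool.Agent.Lib.MP_62a313_nt.LD3.Cor

set_option autoImplicit false

open Filter Topology MeasureTheory
open Nbb67e70a

namespace Pool.Agent.Lib.MP_62a313_nt.LD3

theorem ell_le {n : ℕ} (hn : 1 ≤ n) : ell n ≤ 1 / n := by
  have h0 : (0 : ℝ) < n := by exact_mod_cast hn
  rw [ell_eq n hn]
  have h1 : (0 : ℝ) < 1 + 1 / n := by positivity
  have := Real.log_le_sub_one_of_pos h1
  linarith

theorem inv_sq_le {N : ℕ} (hN : 1 ≤ N) :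
    1 / ((N : ℝ) * N) ≤ 2 * ((1 : ℝ) / N - 1 / (N + 1)) := by
  have hN0 : (1 : ℝ) ≤ N := by exact_mod_cast hN
  have h3 : 2 * ((1 : ℝ) / N - 1 / (N + 1)) = 2 / ((N : ℝ) * (N + 1)) := by
    field_simp
    ring
  rw [h3, div_le_div_iff₀ (by positivity) (by positivity)]
  nlinarith

theorem sum_inv_sq (X : ℕ) : ∑ N ∈ Finset.Icc 1 X, (1 : ℝ) / ((N : ℝ) * N) ≤ 2 := by
  have h1 : ∀ Y : ℕ, ∑ N ∈ Finset.Icc 1 Y, 2 * ((1 : ℝ) / N - 1 / (N + 1)) =
      2 * (1 - 1 / (Y + 1)) := by
    intro Y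
    induction Y with
    | zero => simp
    | succ Y ih =>
      rw [Finset.sum_Icc_succ_top (by omega), ih]
      push_cast
      ring
  have h2 : ∑ N ∈ Finset.Icc 1 X, (1 : ℝ) / ((N : ℝ) * N) ≤
      ∑ N ∈ Finset.Icc 1 X, 2 * ((1 : ℝ) / N - 1 / (N + 1)) := by
    apply Finset.sum_le_sum
    intro N hN
    rw [Finset.mem_Icc] at hN
    exact inv_sq_le hN.1
  rw [h1] at h2
  have : (0 : ℝ) ≤ 1 / ((X : ℝ) + 1) := by positivity
  linarith

theorem sum_avg_le {s : ℕ → ℝ} (hs : ∀ n, 0 ≤ s n) (X : ℕ) :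
    ∑ N ∈ Finset.Icc 1 X, (1 / ((N : ℝ) * N)) * ∑ n ∈ Finset.Icc 1 N, s n ≤
      2 * ∑ n ∈ Finset.Icc 1 X, s n / n := by
  rw [← abel s X]
  have h1 : ∑ N ∈ Finset.Icc 1 X, (1 / ((N : ℝ) * N)) * ∑ n ∈ Finset.Icc 1 N, s n ≤
      2 * ∑ N ∈ Finset.Icc 1 X, (∑ n ∈ Finset.Icc 1 N, s n) * ((1 : ℝ) / N - 1 / (N + 1)) := by
    rw [Finset.mul_sum]
    apply Finset.sum_le_sum
    intro N hN
    rw [Finset.mem_Icc] at hN
    have hN0 : (1 : ℝ) ≤ N := by exact_mod_cast hN.1
    have h2 : 1 / ((N : ℝ) * N) ≤ 2 * ((1 : ℝ) / N - 1 / (N + 1)) := by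
      have h3 : 2 * ((1 : ℝ) / N - 1 / (N + 1)) = 2 / ((N : ℝ) * (N + 1)) := by
        field_simp
        ring
      rw [h3, div_le_div_iff₀ (by positivity) (by positivity)]
      nlinarith
    have h4 : 0 ≤ ∑ n ∈ Finset.Icc 1 N, s n := Finset.sum_nonneg (fun n _ ↦ hs n)
    calc (1 / ((N : ℝ) * N)) * ∑ n ∈ Finset.Icc 1 N, s n ≤
          (2 * ((1 : ℝ) / N - 1 / (N + 1))) * ∑ n ∈ Finset.Icc 1 N, s n :=
          mul_le_mul_of_nonneg_right h2 h4
      _ = 2 * ((∑ n ∈ Finset.Icc 1 N, s n) * ((1 : ℝ) / N - 1 / (N + 1))) := by ring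
  have h5 : 0 ≤ (∑ n ∈ Finset.Icc 1 X, s n) / ((X : ℝ) + 1) :=
    div_nonneg (Finset.sum_nonneg (fun n _ ↦ hs n)) (by positivity)
  linarith

theorem avg_bdd {u : ℕ → ℂ} {C : ℝ} (hC0 : 0 ≤ C) (hC : ∀ n, ‖u n‖ ≤ C) (N : ℕ) :
    ‖avg u N‖ ≤ C := by
  unfold avg
  rcases Nat.eq_zero_or_pos N with h | h
  · subst h
    simpa using hC0
  · have hN0 : (0 : ℝ) < N := by exact_mod_cast h
    rw [norm_div]
    have h1 : ‖(N : ℂ)‖ = N := by simp
    rw [h1, div_le_iff₀ hN0]
    refine (norm_sum_le _ _).trans ?_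
    calc ∑ n ∈ Finset.Icc 1 N, ‖u n‖ ≤ ∑ _n ∈ Finset.Icc 1 N, C :=
          Finset.sum_le_sum (fun n _ ↦ hC n)
      _ = C * N := by simp [mul_comm]

/-- averages of almost periodic sequences are almost periodic -/
theorem AP_avg {u : ℕ → ℂ} (hu : AP ⊤ u) : AP ⊤ (avg u) := by
  obtain ⟨C, hC0, hC⟩ := hu.bdd
  constructor
  · exact ⟨C, hC0, avg_bdd hC0 hC⟩
  · intro ε hε
    obtain ⟨P, hP, hPX⟩ := hu.approx (ε / 16) (by positivity)
    obtain ⟨Q, hQ, D, hD0, hD1, hD2⟩ := TP_avg hP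
    refine ⟨Q, hQ, ?_⟩
    set g : ℝ → ℝ := fun t ↦ ‖st u t - P t‖ with hg
    have hgi : ∀ a b, IntervalIntegrable g volume a b := hu.int' hP
    set h : ℕ → ℝ := fun n ↦ ∫ t in Real.log n..Real.log (n + 1), g t with hh
    have hh0 : ∀ n, 0 ≤ h n := by
      intro n
      rcases Nat.eq_zero_or_pos n with h0 | h0
      · subst h0
        rw [hh]
        simp
      · exact intervalIntegral.integral_nonneg (log_le_succ h0) (fun t _ ↦ norm_nonneg _)
    have hcP := (TP_cont_bdd hP).1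
    have hcQ := (TP_cont_bdd hQ).1
    obtain ⟨CQ, _, hCQ⟩ := (TP_cont_bdd hQ).2
    obtain ⟨CP, _, hCP⟩ := (TP_cont_bdd hP).2
    have hQi : ∀ a b, IntervalIntegrable (fun t ↦ ‖st (avg u) t - Q t‖) volume a b := by
      intro a b
      refine bdd_int (C := C + CQ) ((st_meas _).sub hcQ.measurable).norm (fun t ↦ ?_) a b
      rw [norm_norm]
      exact (norm_sub_le _ _).trans (add_le_add (avg_bdd hC0 hC _) (hCQ t))
    -- integrability with the weight exp
    have hui : ∀ a b, IntervalIntegrable (fun t ↦ st u t * (Real.exp t : ℂ)) volume a b := by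
      intro a b
      have h1 := (hu.int a b).mul_continuousOn (g := fun t ↦ ((Real.exp t : ℝ) : ℂ))
        (Complex.continuous_ofReal.comp Real.continuous_exp).continuousOn
      exact h1
    have hPi := TP_exp_int hP
    have step1 : ∀ N : ℕ, 1 ≤ N → ‖avg u N - Q (Real.log (N + 1))‖ ≤
        (∑ n ∈ Finset.Icc 1 N, ((n : ℝ) + 1) * h n) / N + D / N := by
      intro N hN
      have hN0 : (0 : ℝ) < N := by exact_mod_cast hN
      have h1 : avg u N - Q (Real.log (N + 1)) =
          (∑ n ∈ Finset.Icc 1 N, ∫ t in Real.log n..Real.log (n + 1),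
            (st u t * (Real.exp t : ℂ) - P t * (Real.exp t : ℂ))) / N +
          ((∫ t in (0 : ℝ)..Real.log (N + 1), P t * (Real.exp t : ℂ)) / N -
            Q (Real.log (N + 1))) := by
        have h2 : ∑ n ∈ Finset.Icc 1 N, ∫ t in Real.log n..Real.log (n + 1),
            (st u t * (Real.exp t : ℂ) - P t * (Real.exp t : ℂ)) =
            ∑ n ∈ Finset.Icc 1 N, u n - ∫ t in (0 : ℝ)..Real.log (N + 1), P t * (Real.exp t : ℂ) := by
          rw [split_int hPi N, sum_exp u N, ← Finset.sum_sub_distrib]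
          apply Finset.sum_congr rfl
          intro n _
          rw [intervalIntegral.integral_sub (hui _ _) (hPi _ _)]
        rw [h2]
        unfold avg
        ring
      rw [h1]
      refine (norm_add_le _ _).trans (add_le_add ?_ (hD2 N hN))
      rw [norm_div]
      have h3 : ‖(N : ℂ)‖ = N := by simp
      rw [h3]
      apply div_le_div_of_nonneg_right _ hN0.le
      refine (norm_sum_le _ _).trans ?_
      apply Finset.sum_le_sum
      intro n hn
      rw [Finset.mem_Icc] at hn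
      have hn0 : (0 : ℝ) < n := by exact_mod_cast hn.1
      have h4 : ‖∫ t in Real.log n..Real.log (n + 1),
          (st u t * (Real.exp t : ℂ) - P t * (Real.exp t : ℂ))‖ ≤
          ∫ t in Real.log n..Real.log (n + 1),
            ‖st u t * (Real.exp t : ℂ) - P t * (Real.exp t : ℂ)‖ :=
        intervalIntegral.norm_integral_le_integral_norm (log_le_succ hn.1)
      refine h4.trans ?_
      rw [hh]
      dsimp only
      rw [← intervalIntegral.integral_const_mul]
      apply intervalIntegral.integral_mono_on (log_le_succ hn.1)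
        (((hui _ _).sub (hPi _ _)).norm) ((hgi _ _).const_mul _)
      intro t ht
      rw [Set.mem_Icc] at ht
      have h5 : st u t * (Real.exp t : ℂ) - P t * (Real.exp t : ℂ) =
          (Real.exp t : ℂ) * (st u t - P t) := by ring
      rw [h5, norm_mul, Complex.norm_real, Real.norm_of_nonneg (Real.exp_pos t).le]
      apply mul_le_mul_of_nonneg_right _ (norm_nonneg _)
      have h6 := Real.exp_le_exp.mpr ht.2
      rwa [Real.exp_log (by positivity)] at h6
    have step2 : ∀ N : ℕ, 1 ≤ N → ∫ t in Real.log N..Real.log (N + 1), ‖st (avg u) t - Q t‖ ≤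
        (1 / ((N : ℝ) * N)) * (∑ n ∈ Finset.Icc 1 N, ((n : ℝ) + 1) * h n) +
          (2 * D) * (1 / ((N : ℝ) * N)) := by
      intro N hN
      have hN0 : (0 : ℝ) < N := by exact_mod_cast hN
      have h0 : 0 ≤ ∑ n ∈ Finset.Icc 1 N, ((n : ℝ) + 1) * h n :=
        Finset.sum_nonneg (fun n _ ↦ mul_nonneg (by positivity) (hh0 n))
      set K : ℝ := (∑ n ∈ Finset.Icc 1 N, ((n : ℝ) + 1) * h n) / N + D / N + D * (1 / N) with hK
      have hK0 : 0 ≤ K := by positivity
      have h1 : ∫ t in Real.log N..Real.log (N + 1), ‖st (avg u) t - Q t‖ ≤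
          ∫ _t in Real.log N..Real.log (N + 1), K := by
        have h1' : ∫ t in Real.log N..Real.log (N + 1), ‖st (avg u) t - Q t‖ =
            ∫ t in Real.log N..Real.log (N + 1), ‖avg u N - Q t‖ := by
          apply intervalIntegral.integral_congr_Ioo_of_le (log_le_succ hN)
          intro t ht
          dsimp only
          unfold st
          rw [floor_on hN ht]
        rw [h1']
        apply intervalIntegral.integral_mono_on (log_le_succ hN)
        · exact ((continuous_const.sub hcQ).norm).intervalIntegrable _ _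
        · exact intervalIntegrable_const
        · intro t ht
          rw [Set.mem_Icc] at ht
          have h2 : avg u N - Q t = (avg u N - Q (Real.log (N + 1))) +
              (Q (Real.log (N + 1)) - Q t) := by ring
          rw [h2]
          refine (norm_add_le _ _).trans (add_le_add (step1 N hN) ?_)
          refine (hD1 _ _).trans (mul_le_mul_of_nonneg_left ?_ hD0)
          rw [abs_of_nonneg (by linarith)]
          have := ell_le hN
          unfold ell at this
          linarith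
      rw [intervalIntegral.integral_const, smul_eq_mul] at h1
      have h2 : (Real.log ((N : ℝ) + 1) - Real.log N) * K ≤ (1 / N) * K := by
        apply mul_le_mul_of_nonneg_right _ hK0
        exact ell_le hN
      refine (h1.trans h2).trans (le_of_eq ?_)
      rw [hK]
      field_simp
      ring
    have step3 : ∀ X : ℕ, ∫ t in (0 : ℝ)..Real.log (X + 1), ‖st (avg u) t - Q t‖ ≤
        4 * (∫ t in (0 : ℝ)..Real.log (X + 1), g t) + 4 * D := by
      intro X
      rw [split_int hQi X, split_int hgi X]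
      have h1 : ∑ N ∈ Finset.Icc 1 X, ∫ t in Real.log N..Real.log (N + 1), ‖st (avg u) t - Q t‖ ≤
          ∑ N ∈ Finset.Icc 1 X, ((1 / ((N : ℝ) * N)) *
            (∑ n ∈ Finset.Icc 1 N, ((n : ℝ) + 1) * h n) + (2 * D) * (1 / ((N : ℝ) * N))) := by
        apply Finset.sum_le_sum
        intro N hN
        rw [Finset.mem_Icc] at hN
        exact step2 N hN.1
      rw [Finset.sum_add_distrib, ← Finset.mul_sum] at h1
      have h2 := sum_avg_le (s := fun n ↦ ((n : ℝ) + 1) * h n)
        (fun n ↦ mul_nonneg (by positivity) (hh0 n)) X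
      have h3 := sum_inv_sq X
      have h4 : ∑ n ∈ Finset.Icc 1 X, ((n : ℝ) + 1) * h n / n ≤ ∑ n ∈ Finset.Icc 1 X, 2 * h n := by
        apply Finset.sum_le_sum
        intro n hn
        rw [Finset.mem_Icc] at hn
        have hn0 : (1 : ℝ) ≤ n := by exact_mod_cast hn.1
        rw [div_le_iff₀ (by linarith)]
        have := hh0 n
        nlinarith
      rw [← Finset.mul_sum] at h4
      have h5 : (2 * D) * ∑ N ∈ Finset.Icc 1 X, (1 : ℝ) / ((N : ℝ) * N) ≤ (2 * D) * 2 :=
        mul_le_mul_of_nonneg_left h3 (by positivity)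
      rw [hh] at h4 h2 h1
      dsimp only at h4 h2 h1
      linarith
    have hfl : Tendsto (fun X : ℝ ↦ Real.log ((⌊Real.exp X⌋₊ : ℝ) + 1)) atTop atTop := by
      apply log_tendsto.comp
      exact tendsto_nat_floor_atTop.comp Real.tendsto_exp_atTop
    filter_upwards [hfl.eventually hPX, eventually_ge_atTop 1,
      eventually_ge_atTop (8 * D / ε)] with X h1 h2 h3
    have hX0 : 0 ≤ X := by linarith
    have h4 : ∫ t in (0 : ℝ)..X, ‖st (avg u) t - Q t‖ ≤
        ∫ t in (0 : ℝ)..Real.log ((⌊Real.exp X⌋₊ : ℝ) + 1), ‖st (avg u) t - Q t‖ :=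
      intervalIntegral.integral_mono_interval le_rfl hX0 (log_floor hX0).1
        (ae_of_all _ fun _ ↦ norm_nonneg _) (hQi _ _)
    have h5 := step3 ⌊Real.exp X⌋₊
    have h6 := (log_floor hX0).2
    have h7 : ε / 16 * Real.log ((⌊Real.exp X⌋₊ : ℝ) + 1) ≤ ε / 16 * (X + X) := by
      apply mul_le_mul_of_nonneg_left _ (by positivity)
      linarith
    have h8 : 8 * D ≤ X * ε := by rwa [div_le_iff₀ hε] at h3
    linarith

end Pool.Agent.Lib.MP_62a313_nt.LD3
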