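import Mathlib
import Pool.Agent.Lib.MP_62a313_nt.LD3.Dich

set_option autoImplicit false

open Filter Topology MeasureTheory
open Nbb67e70a

namespace Pool.Agent.Lib.MP_62a313_nt.LD3

theorem Z3 : Z 3 = {2} := by decide +kernel

theorem Z5 : Z 5 = {4} := by decide +kernel

theorem Z7 : Z 7 = {6} := by decide +kernel

theorem Z11 : Z 11 = {3, 7, 10} := by decide +kernel

theorem Z13 : Z 13 = {12} := by decide +kernel

theorem Z29 : Z 29 = {13, 15, 28} := by decide +kernel

theorem Z43 : Z 43 = {13, 29, 42} := by decide +kernel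

theorem w3 : w 3 = Real.log (3 / 2) / Real.log 3 := by
  unfold w
  rw [if_pos (by norm_num), Z3, Finset.sum_singleton]
  norm_num

theorem w5 : w 5 = Real.log (5 / 4) / Real.log 5 := by
  unfold w
  rw [if_pos (by norm_num), Z5, Finset.sum_singleton]
  norm_num

theorem w7 : w 7 = Real.log (7 / 6) / Real.log 7 := by
  unfold w
  rw [if_pos (by norm_num), Z7, Finset.sum_singleton]
  norm_num

theorem w13 : w 13 = Real.log (13 / 12) / Real.log 13 := by
  unfold w
  rw [if_pos (by norm_num), Z13, Finset.sum_singleton]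
  norm_num

theorem w11 : w 11 = Real.log (176 / 105) / Real.log 11 := by
  unfold w
  rw [if_pos (by norm_num), Z11, Finset.sum_insert (by decide), Finset.sum_insert (by decide),
    Finset.sum_singleton]
  congr 1
  rw [← Real.log_mul (by norm_num) (by norm_num), ← Real.log_mul (by norm_num) (by norm_num)]
  norm_num

theorem w29 : w 29 = Real.log (232 / 195) / Real.log 29 := by
  unfold w
  rw [if_pos (by norm_num), Z29, Finset.sum_insert (by decide), Finset.sum_insert (by decide),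
    Finset.sum_singleton]
  congr 1
  rw [← Real.log_mul (by norm_num) (by norm_num), ← Real.log_mul (by norm_num) (by norm_num)]
  norm_num

theorem w43 : w 43 = Real.log (430 / 377) / Real.log 43 := by
  unfold w
  rw [if_pos (by norm_num), Z43, Finset.sum_insert (by decide), Finset.sum_insert (by decide),
    Finset.sum_singleton]
  congr 1
  rw [← Real.log_mul (by norm_num) (by norm_num), ← Real.log_mul (by norm_num) (by norm_num)]
  norm_num

theorem ratio_ge {x y : ℝ} {i j : ℕ} (_hx : 0 < x) (hy : 1 < y) (hj : 0 < j)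
    (h : y ^ i ≤ x ^ j) : (i : ℝ) / j ≤ Real.log x / Real.log y := by
  have hly : 0 < Real.log y := Real.log_pos hy
  have hj0 : (0 : ℝ) < j := by exact_mod_cast hj
  rw [div_le_div_iff₀ hj0 hly]
  have h1 := Real.log_le_log (by positivity) h
  rw [Real.log_pow, Real.log_pow] at h1
  linarith

theorem ratio_le {x y : ℝ} {i j : ℕ} (hx : 0 < x) (hy : 1 < y) (hj : 0 < j)
    (h : x ^ j ≤ y ^ i) : Real.log x / Real.log y ≤ (i : ℝ) / j := by
  have hly : 0 < Real.log y := Real.log_pos hy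
  have hj0 : (0 : ℝ) < j := by exact_mod_cast hj
  rw [div_le_div_iff₀ hly hj0]
  have h1 := Real.log_le_log (by positivity) h
  rw [Real.log_pow, Real.log_pow] at h1
  linarith

theorem w3_bd : 31 / 84 ≤ w 3 ∧ w 3 ≤ 17 / 46 := by
  rw [w3]
  have h1 := ratio_ge (x := 3 / 2) (y := 3) (i := 31) (j := 84) (by norm_num) (by norm_num)
    (by norm_num) (by norm_num)
  have h2 := ratio_le (x := 3 / 2) (y := 3) (i := 17) (j := 46) (by norm_num) (by norm_num)
    (by norm_num) (by norm_num)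
  push_cast at h1 h2
  exact ⟨h1, h2⟩

theorem w5_bd : 9 / 65 ≤ w 5 ∧ w 5 ≤ 5 / 36 := by
  rw [w5]
  have h1 := ratio_ge (x := 5 / 4) (y := 5) (i := 9) (j := 65) (by norm_num) (by norm_num)
    (by norm_num) (by norm_num)
  have h2 := ratio_le (x := 5 / 4) (y := 5) (i := 5) (j := 36) (by norm_num) (by norm_num)
    (by norm_num) (by norm_num)
  push_cast at h1 h2
  exact ⟨h1, h2⟩

theorem w7_bd : 3 / 38 ≤ w 7 ∧ w 7 ≤ 5 / 63 := by
  rw [w7]
  have h1 := ratio_ge (x := 7 / 6) (y := 7) (i := 3) (j := 38) (by norm_num) (by norm_num)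
    (by norm_num) (by norm_num)
  have h2 := ratio_le (x := 7 / 6) (y := 7) (i := 5) (j := 63) (by norm_num) (by norm_num)
    (by norm_num) (by norm_num)
  push_cast at h1 h2
  exact ⟨h1, h2⟩

theorem w11_bd : 14 / 65 ≤ w 11 ∧ w 11 ≤ 11 / 51 := by
  rw [w11]
  have h1 := ratio_ge (x := 176 / 105) (y := 11) (i := 14) (j := 65) (by norm_num) (by norm_num)
    (by norm_num) (by norm_num)
  have h2 := ratio_le (x := 176 / 105) (y := 11) (i := 11) (j := 51) (by norm_num) (by norm_num)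
    (by norm_num) (by norm_num)
  push_cast at h1 h2
  exact ⟨h1, h2⟩

theorem w13_bd : 2 / 65 ≤ w 13 ∧ w 13 ≤ 1 / 32 := by
  rw [w13]
  have h1 := ratio_ge (x := 13 / 12) (y := 13) (i := 2) (j := 65) (by norm_num) (by norm_num)
    (by norm_num) (by norm_num)
  have h2 := ratio_le (x := 13 / 12) (y := 13) (i := 1) (j := 32) (by norm_num) (by norm_num)
    (by norm_num) (by norm_num)
  push_cast at h1 h2
  exact ⟨h1, h2⟩

theorem w29_bd : 2 / 39 ≤ w 29 ∧ w 29 ≤ 3 / 58 := by
  rw [w29]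
  have h1 := ratio_ge (x := 232 / 195) (y := 29) (i := 2) (j := 39) (by norm_num) (by norm_num)
    (by norm_num) (by norm_num)
  have h2 := ratio_le (x := 232 / 195) (y := 29) (i := 3) (j := 58) (by norm_num) (by norm_num)
    (by norm_num) (by norm_num)
  push_cast at h1 h2
  exact ⟨h1, h2⟩

theorem w43_bd : 1 / 29 ≤ w 43 ∧ w 43 ≤ 2 / 57 := by
  rw [w43]
  have h1 := ratio_ge (x := 430 / 377) (y := 43) (i := 1) (j := 29) (by norm_num) (by norm_num)
    (by norm_num) (by norm_num)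
  have h2 := ratio_le (x := 430 / 377) (y := 43) (i := 2) (j := 57) (by norm_num) (by norm_num)
    (by norm_num) (by norm_num)
  push_cast at h1 h2
  exact ⟨h1, h2⟩

/-- Bonferroni's inequality with pairwise independent events -/
theorem bonferroni (T : Finset ℕ) (hT : ∀ p ∈ T, p.Prime) {d : ℝ}
    (hd : Tendsto (m (ind 0)) atTop (𝓝 d)) :
    d ≤ 1 - (3 / 2) * ∑ p ∈ T, w p +
      (1 / 2) * ∑ p ∈ T, ∑ q ∈ T, (if p = q then w p else w p * w q) := by
  classical
  have h2 : Tendsto (fun N : ℕ ↦ 1 - (3 / 2) * ∑ p ∈ T, m (fp p) N +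
      (1 / 2) * ∑ p ∈ T, ∑ q ∈ T, m (fp p * fp q) N) atTop
      (𝓝 (1 - (3 / 2) * ∑ p ∈ T, w p +
      (1 / 2) * ∑ p ∈ T, ∑ q ∈ T, (if p = q then w p else w p * w q))) := by
    refine Tendsto.add (Tendsto.sub tendsto_const_nhds ?_) ?_
    · refine Tendsto.const_mul _ ?_
      exact tendsto_finsetSum _ (fun p hp ↦ m_fp_tendsto (hT p hp))
    · refine Tendsto.const_mul _ ?_
      refine tendsto_finsetSum _ (fun p hp ↦ tendsto_finsetSum _ (fun q hq ↦ ?_))
      split_ifs with hpq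
      · subst hpq
        rw [fp_sq]
        exact m_fp_tendsto (hT p hp)
      · exact m_pair (hT p hp) (hT q hq) hpq
  refine le_of_tendsto_of_tendsto hd h2 ?_
  filter_upwards [eventually_ge_atTop 1] with N hN
  have h3 : m (ind 0) N ≤ m ((fun _ ↦ (1 : ℝ)) + ((-(3 / 2) : ℝ) • (∑ p ∈ T, fp p) +
      (1 / 2 : ℝ) • (∑ p ∈ T, ∑ q ∈ T, fp p * fp q))) N := by
    apply m_mono
    intro n _ _
    simp only [Pi.add_apply, Finset.sum_apply, Pi.mul_apply, Pi.smul_apply, smul_eq_mul]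
    rw [← Finset.sum_mul_sum, ← omT_eq_sum]
    unfold ind
    have h5 := omT_le T n
    split_ifs with h
    · have h6 : omT T n = 0 := by omega
      rw [h6]
      norm_num
    · rcases Nat.lt_or_ge (omT T n) 2 with h7 | h7
      · interval_cases (omT T n) <;> norm_num
      · have h8 : (2 : ℝ) ≤ omT T n := by exact_mod_cast h7
        nlinarith
  rw [m_add, m_add, m_smul, m_smul, m_one hN, m_sum, m_sum] at h3
  have h4 : ∑ p ∈ T, m (∑ q ∈ T, fp p * fp q) N = ∑ p ∈ T, ∑ q ∈ T, m (fp p * fp q) N :=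
    Finset.sum_congr rfl (fun p _ ↦ m_sum _ _ _)
  rw [h4] at h3
  linarith

theorem d_lt {d : ℝ} (hd : Tendsto (m (ind 0)) atTop (𝓝 d)) : d < 2 / 5 := by
  have h1 := bonferroni {3, 5, 7, 11, 13, 29, 43} (by
    intro p hp
    simp only [Finset.mem_insert, Finset.mem_singleton] at hp
    rcases hp with h | h | h | h | h | h | h <;> subst h <;> norm_num) hd
  have h3 := w3_bd
  have h5 := w5_bd
  have h7 := w7_bd
  have h11 := w11_bd
  have h13 := w13_bd
  have h29 := w29_bd
  have h43 := w43_bd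
  have e1 : ∀ f : ℕ → ℝ, ∑ p ∈ ({3, 5, 7, 11, 13, 29, 43} : Finset ℕ), f p =
      f 3 + f 5 + f 7 + f 11 + f 13 + f 29 + f 43 := by
    intro f
    rw [Finset.sum_insert (by decide), Finset.sum_insert (by decide),
      Finset.sum_insert (by decide), Finset.sum_insert (by decide), Finset.sum_insert (by decide),
      Finset.sum_insert (by decide), Finset.sum_singleton]
    ring
  simp only [e1] at h1
  norm_num at h1
  set x3 := w 3
  set x5 := w 5
  set x7 := w 7
  set x11 := w 11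
  set x13 := w 13
  set x29 := w 29
  set x43 := w 43
  have p3x5 : x3 * x5 ≤ 17 / 46 * (5 / 36) :=
    mul_le_mul h3.2 h5.2 (by linarith) (by norm_num)
  have p3x7 : x3 * x7 ≤ 17 / 46 * (5 / 63) :=
    mul_le_mul h3.2 h7.2 (by linarith) (by norm_num)
  have p3x11 : x3 * x11 ≤ 17 / 46 * (11 / 51) :=
    mul_le_mul h3.2 h11.2 (by linarith) (by norm_num)
  have p3x13 : x3 * x13 ≤ 17 / 46 * (1 / 32) :=
    mul_le_mul h3.2 h13.2 (by linarith) (by norm_num)
  have p3x29 : x3 * x29 ≤ 17 / 46 * (3 / 58) :=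
    mul_le_mul h3.2 h29.2 (by linarith) (by norm_num)
  have p3x43 : x3 * x43 ≤ 17 / 46 * (2 / 57) :=
    mul_le_mul h3.2 h43.2 (by linarith) (by norm_num)
  have p5x7 : x5 * x7 ≤ 5 / 36 * (5 / 63) :=
    mul_le_mul h5.2 h7.2 (by linarith) (by norm_num)
  have p5x11 : x5 * x11 ≤ 5 / 36 * (11 / 51) :=
    mul_le_mul h5.2 h11.2 (by linarith) (by norm_num)
  have p5x13 : x5 * x13 ≤ 5 / 36 * (1 / 32) :=
    mul_le_mul h5.2 h13.2 (by linarith) (by norm_num)
  have p5x29 : x5 * x29 ≤ 5 / 36 * (3 / 58) :=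
    mul_le_mul h5.2 h29.2 (by linarith) (by norm_num)
  have p5x43 : x5 * x43 ≤ 5 / 36 * (2 / 57) :=
    mul_le_mul h5.2 h43.2 (by linarith) (by norm_num)
  have p7x11 : x7 * x11 ≤ 5 / 63 * (11 / 51) :=
    mul_le_mul h7.2 h11.2 (by linarith) (by norm_num)
  have p7x13 : x7 * x13 ≤ 5 / 63 * (1 / 32) :=
    mul_le_mul h7.2 h13.2 (by linarith) (by norm_num)
  have p7x29 : x7 * x29 ≤ 5 / 63 * (3 / 58) :=
    mul_le_mul h7.2 h29.2 (by linarith) (by norm_num)
  have p7x43 : x7 * x43 ≤ 5 / 63 * (2 / 57) :=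
    mul_le_mul h7.2 h43.2 (by linarith) (by norm_num)
  have p11x13 : x11 * x13 ≤ 11 / 51 * (1 / 32) :=
    mul_le_mul h11.2 h13.2 (by linarith) (by norm_num)
  have p11x29 : x11 * x29 ≤ 11 / 51 * (3 / 58) :=
    mul_le_mul h11.2 h29.2 (by linarith) (by norm_num)
  have p11x43 : x11 * x43 ≤ 11 / 51 * (2 / 57) :=
    mul_le_mul h11.2 h43.2 (by linarith) (by norm_num)
  have p13x29 : x13 * x29 ≤ 1 / 32 * (3 / 58) :=
    mul_le_mul h13.2 h29.2 (by linarith) (by norm_num)
  have p13x43 : x13 * x43 ≤ 1 / 32 * (2 / 57) :=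
    mul_le_mul h13.2 h43.2 (by linarith) (by norm_num)
  have p29x43 : x29 * x43 ≤ 3 / 58 * (2 / 57) :=
    mul_le_mul h29.2 h43.2 (by linarith) (by norm_num)
  linarith

end Pool.Agent.Lib.MP_62a313_nt.LD3
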