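import Mathlib
import Pool.Agent.Lib.MP_62a313_nt.LD3.Dich

set_option autoImplicit false

open Filter Topology MeasureTheory
open Nbb67e70a

namespace Pool.Agent.Lib.MP_62a313_nt.LD3

/-- frequencies attached to a set of primes -/
noncomputable def Fr (T : Finset ℕ) : AddSubgroup ℝ :=
  AddSubgroup.closure ((fun p : ℕ ↦ 2 * Real.pi / Real.log p) '' (T : Set ℕ))

theorem Fr_mem {T : Finset ℕ} {x : ℝ} (hx : x ∈ Fr T) :
    ∃ g : ℕ → ℤ, x = ∑ p ∈ T, (g p : ℝ) * (2 * Real.pi / Real.log p) := by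
  classical
  refine AddSubgroup.closure_induction
    (p := fun x _ ↦ ∃ g : ℕ → ℤ, x = ∑ p ∈ T, (g p : ℝ) * (2 * Real.pi / Real.log p)) ?_ ?_ ?_ ?_ hx
  · rintro _ ⟨p, hp, rfl⟩
    refine ⟨fun q ↦ if q = p then 1 else 0, ?_⟩
    have : ∀ q ∈ T, (((if q = p then 1 else 0 : ℤ)) : ℝ) * (2 * Real.pi / Real.log q) =
        if q = p then 2 * Real.pi / Real.log q else 0 := by
      intro q _
      split_ifs <;> simp
    rw [Finset.sum_congr rfl this, Finset.sum_ite_eq', if_pos (by simpa using hp)]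
  · exact ⟨fun _ ↦ 0, by simp⟩
  · rintro x y _ _ ⟨g, hg⟩ ⟨g', hg'⟩
    refine ⟨fun p ↦ g p + g' p, ?_⟩
    rw [hg, hg', ← Finset.sum_add_distrib]
    apply Finset.sum_congr rfl
    intro p _
    push_cast
    ring
  · rintro x _ ⟨g, hg⟩
    refine ⟨fun p ↦ - g p, ?_⟩
    rw [hg, ← Finset.sum_neg_distrib]
    apply Finset.sum_congr rfl
    intro p _
    push_cast
    ring

theorem li_use (hli : LinearIndependent ℚ (fun p : Nat.Primes ↦ 1 / Real.log (p : ℕ)))
    {T : Finset ℕ} (hT : ∀ p ∈ T, p.Prime) (g : ℕ → ℚ)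
    (h : ∑ p ∈ T, (g p : ℝ) * (1 / Real.log p) = 0) : ∀ p ∈ T, g p = 0 := by
  rw [linearIndependent_iff'] at hli
  have h1 := hli (T.subtype Nat.Prime) (fun p ↦ g p) (by
    have h2 : ∑ i ∈ T.subtype Nat.Prime, g (i : ℕ) • (1 / Real.log ((i : ℕ) : ℝ)) =
        ∑ p ∈ T, g p • (1 / Real.log (p : ℝ)) :=
      Finset.sum_subtype_of_mem (fun p : ℕ ↦ g p • (1 / Real.log (p : ℝ))) hT
    refine h2.trans ?_
    rw [← h]
    apply Finset.sum_congr rfl
    intro p _
    rw [Rat.smul_def])
  intro p hp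
  exact h1 ⟨p, hT p hp⟩ (Finset.mem_subtype.mpr hp)

theorem Fr_disj (hli : LinearIndependent ℚ (fun p : Nat.Primes ↦ 1 / Real.log (p : ℕ)))
    {T : Finset ℕ} (hT : ∀ p ∈ T, p.Prime) {q : ℕ} (hq : q.Prime) (hqT : q ∉ T) :
    ∀ x ∈ Fr T, x ∈ AddSubgroup.zmultiples (2 * Real.pi / Real.log q) → x = 0 := by
  classical
  intro x hx hx'
  obtain ⟨g, hg⟩ := Fr_mem hx
  rw [AddSubgroup.mem_zmultiples_iff] at hx'
  obtain ⟨j, hj⟩ := hx'
  rw [zsmul_eq_mul] at hj
  have hpi := Real.pi_pos
  have h1 : ∑ p ∈ T, (g p : ℝ) * (1 / Real.log p) = (j : ℝ) * (1 / Real.log q) := by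
    have h2 : (2 * Real.pi) * ∑ p ∈ T, (g p : ℝ) * (1 / Real.log p) =
        (2 * Real.pi) * ((j : ℝ) * (1 / Real.log q)) := by
      rw [Finset.mul_sum]
      calc ∑ p ∈ T, 2 * Real.pi * ((g p : ℝ) * (1 / Real.log p)) = x := by
            rw [hg]
            apply Finset.sum_congr rfl
            intro p _
            ring
        _ = 2 * Real.pi * ((j : ℝ) * (1 / Real.log q)) := by
            rw [← hj]
            ring
    exact mul_left_cancel₀ (by positivity) h2
  have h3 := li_use hli (T := insert q T) (by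
    intro p hp
    rcases Finset.mem_insert.mp hp with h | h
    · rw [h]; exact hq
    · exact hT p h) (fun p ↦ if p = q then - (j : ℚ) else (g p : ℚ)) (by
    rw [Finset.sum_insert hqT, if_pos rfl]
    have h4 : ∑ p ∈ T, (((if p = q then - (j : ℚ) else (g p : ℚ)) : ℚ) : ℝ) * (1 / Real.log p) =
        ∑ p ∈ T, (g p : ℝ) * (1 / Real.log p) := by
      apply Finset.sum_congr rfl
      intro p hp
      rw [if_neg (by rintro rfl; exact hqT hp)]
      push_cast
      rfl
    rw [h4, h1]
    push_cast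
    ring)
  have h5 := h3 q (Finset.mem_insert_self q T)
  rw [if_pos rfl, neg_eq_zero] at h5
  have h6 : j = 0 := by exact_mod_cast h5
  rw [← hj, h6]
  simp

/-- the indicator of the integers without a common prime in `T` -/
noncomputable def cop (T : Finset ℕ) : ℕ → ℝ := ∏ p ∈ T, (fun n ↦ 1 - fp p n)

theorem m_comp {p : ℕ} (hp : p.Prime) :
    Tendsto (m (fun n ↦ 1 - fp p n)) atTop (𝓝 (1 - w p)) := by
  have h1 := (tendsto_const_nhds (x := (1 : ℝ))).sub (m_fp_tendsto hp)
  refine h1.congr' ?_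
  filter_upwards [eventually_ge_atTop 1] with N hN
  have h2 : (fun n ↦ 1 - fp p n) = (fun _ ↦ (1 : ℝ)) + (-1 : ℝ) • fp p := by
    funext n
    simp
    ring
  rw [h2, m_add, m_one hN, m_smul]
  ring

theorem cop_facts (hli : LinearIndependent ℚ (fun p : Nat.Primes ↦ 1 / Real.log (p : ℕ)))
    (T : Finset ℕ) (hT : ∀ p ∈ T, p.Prime) : AP (Fr T) (cR (cop T)) ∧
      Tendsto (m (cop T)) atTop (𝓝 (∏ p ∈ T, (1 - w p))) := by
  induction T using Finset.induction_on with
  | empty =>
    constructor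
    · have h1 : cR (cop ∅) = fun _ ↦ (1 : ℂ) := by
        funext n
        simp [cR, cop]
      rw [h1]
      exact AP.const _ _
    · have h1 : cop ∅ = fun _ ↦ (1 : ℝ) := by
        funext n
        simp [cop]
      rw [h1, Finset.prod_empty]
      refine tendsto_const_nhds.congr' ?_
      filter_upwards [eventually_ge_atTop 1] with N hN
      rw [m_one hN]
  | insert q T hqT ih =>
    have hq : q.Prime := hT q (Finset.mem_insert_self q T)
    have hT' : ∀ p ∈ T, p.Prime := fun p hp ↦ hT p (Finset.mem_insert_of_mem hp)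
    obtain ⟨h1, h2⟩ := ih hT'
    have h3 : cop (insert q T) = (fun n ↦ 1 - fp q n) * cop T := by
      unfold cop
      rw [Finset.prod_insert hqT]
    have hsub : AddSubgroup.zmultiples (2 * Real.pi / Real.log q) ≤ Fr (insert q T) := by
      rw [AddSubgroup.zmultiples_le]
      apply AddSubgroup.subset_closure
      exact ⟨q, by simp, rfl⟩
    have hsub2 : Fr T ≤ Fr (insert q T) := by
      apply AddSubgroup.closure_mono
      apply Set.image_mono
      intro p hp
      simp only [Finset.coe_insert]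
      exact Set.mem_insert_of_mem _ hp
    constructor
    · rw [h3, cR_mul]
      exact (AP_comp hq _ hsub).mul (h1.mono hsub2)
    · have h4 : cop (insert q T) = cop T * (fun n ↦ 1 - fp q n) := by
        rw [h3, mul_comm]
      rw [h4, Finset.prod_insert hqT, mul_comm (1 - w q)]
      exact AP.m_mul (Fr_disj hli hT' hq hqT) h1 (AP_comp hq _ le_rfl) h2 (m_comp hq)

theorem cop_eq_lev (T : Finset ℕ) : cop T = lev T 0 := by
  funext n
  unfold cop lev
  rw [Finset.prod_apply]
  split_ifs with h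
  · apply Finset.prod_eq_one
    intro p hp
    have h1 : p ∉ (Nat.gcd (a n) (L n)).primeFactors := by
      intro h'
      unfold omT at h
      rw [Finset.card_eq_zero, Finset.filter_eq_empty_iff] at h
      exact h hp h'
    unfold fp
    rw [if_neg h1, sub_zero]
  · unfold omT at h
    rw [Finset.card_eq_zero, Finset.filter_eq_empty_iff] at h
    push Not at h
    obtain ⟨p, hp, hp'⟩ := h
    apply Finset.prod_eq_zero hp
    unfold fp
    rw [if_pos hp', sub_self]

theorem prod_one_sub_ge (T : Finset ℕ) : 1 - ∑ p ∈ T, w p ≤ ∏ p ∈ T, (1 - w p) := by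
  induction T using Finset.induction_on with
  | empty => simp
  | insert q T hq ih =>
    rw [Finset.sum_insert hq, Finset.prod_insert hq]
    have h1 := w_nonneg q
    have h2 := (w_lt_one q).le
    have h3 : ∏ p ∈ T, (1 - w p) ≤ 1 := by
      apply Finset.prod_le_one
      · intro p _
        have := (w_lt_one p).le
        linarith
      · intro p _
        have := w_nonneg p
        linarith
    nlinarith

theorem prod_TT (y : ℕ) : ∏ p ∈ TT y, (1 - w p) = ∏ p ∈ Finset.range y, (1 - w p) := by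
  unfold TT
  rw [Finset.prod_filter]
  apply Finset.prod_congr rfl
  intro p _
  split_ifs with h
  · rfl
  · rw [w_eq_zero h, sub_zero]

theorem prod_pos (y : ℕ) : 0 < ∏ p ∈ Finset.range y, (1 - w p) := by
  apply Finset.prod_pos
  intro p _
  have := w_lt_one p
  linarith

/-- in the convergent case the infinite product is positive -/
theorem prod_lower (hs : Summable w) : ∃ c : ℝ, 0 < c ∧ ∀ᶠ y : ℕ in atTop,
    c ≤ ∏ p ∈ Finset.range y, (1 - w p) := by
  obtain ⟨y0, hy0⟩ := (tail_small hs (ε := 1 / 2) (by norm_num)).exists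
  refine ⟨(∏ p ∈ Finset.range y0, (1 - w p)) / 2, by have := prod_pos y0; positivity, ?_⟩
  filter_upwards [eventually_ge_atTop y0] with y hy
  rw [← Finset.prod_range_mul_prod_Ico _ hy]
  have h1 := prod_one_sub_ge (Finset.Ico y0 y)
  have h2 : ∑ p ∈ Finset.Ico y0 y, w p ≤ 1 / 2 := by
    have h3 := hs.sum_le_tsum (Finset.range y) (fun p _ ↦ w_nonneg p)
    rw [← Finset.sum_range_add_sum_Ico _ hy] at h3
    rw [sum_TT] at hy0
    linarith
  have h3 := prod_pos y0
  nlinarith

theorem cond (hli : LinearIndependent ℚ (fun p : Nat.Primes ↦ 1 / Real.log (p : ℕ))) {d : ℝ}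
    (hd : Tendsto (m (ind 0)) atTop (𝓝 d)) :
    Tendsto (fun y : ℕ ↦ ∏ p ∈ Finset.range y, (1 - w p)) atTop (𝓝 d) ∧
      (d = 0 ↔ ¬ Summable w) := by
  by_cases hs : Summable w
  · have h1 : ∀ y : ℕ, |∏ p ∈ Finset.range y, (1 - w p) - d| ≤
        (∑' p, w p) - ∑ p ∈ TT y, w p := by
      intro y
      have h2 := (cop_facts hli (TT y) (fun p hp ↦ TT_prime hp)).2
      rw [cop_eq_lev, prod_TT] at h2
      have h3 := (hd.sub h2).abs
      rw [abs_sub_comm]
      refine le_of_tendsto h3 (Eventually.of_forall fun N ↦ ?_)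
      exact (m_lev_close (TT y) 0 N).trans (tail_le hs _ _)
    have h2 : Tendsto (fun y : ℕ ↦ ∏ p ∈ Finset.range y, (1 - w p)) atTop (𝓝 d) := by
      rw [Metric.tendsto_nhds]
      intro ε hε
      filter_upwards [tail_small hs (ε := ε / 2) (by positivity)] with y hy
      rw [Real.dist_eq]
      exact lt_of_le_of_lt ((h1 y).trans hy) (by linarith)
    refine ⟨h2, ?_⟩
    obtain ⟨c, hc, hc'⟩ := prod_lower hs
    have h3 : c ≤ d := ge_of_tendsto h2 hc'
    constructor
    · intro h; linarith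
    · intro h; exact absurd hs h
  · have h0 : d = 0 := tendsto_nhds_unique hd (div_zero_limit hs 0)
    refine ⟨?_, fun _ ↦ hs, fun _ ↦ h0⟩
    rw [h0]
    have hs' := (not_summable_iff_tendsto_nat_atTop_of_nonneg w_nonneg).mp hs
    have h1 : Tendsto (fun y : ℕ ↦ Real.exp (-∑ p ∈ Finset.range y, w p)) atTop (𝓝 0) :=
      Real.tendsto_exp_neg_atTop_nhds_zero.comp hs'
    refine squeeze_zero (fun y ↦ (prod_pos y).le) (fun y ↦ ?_) h1
    rw [← Finset.sum_neg_distrib, Real.exp_sum]
    apply Finset.prod_le_prod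
    · intro p _
      have := w_lt_one p
      linarith
    · intro p _
      have := Real.add_one_le_exp (- w p)
      linarith

end Pool.Agent.Lib.MP_62a313_nt.LD3
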