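import Mathlib
import Pool.Prelude.Def_F_7546141c
import Pool.Agent.Lib.MP_62a313_nt.LD3.Defs
import Pool.Agent.Lib.MP_62a313_nt.LD3.Dich

set_option autoImplicit false

open Filter Topology
open Nbb67e70a

namespace Pool.Agent.Lib.MP_62a313_nt.LD3

theorem exists_limits : ∃ d : ℕ → ℝ, ∀ r, Tendsto (m (ind r)) atTop (𝓝 (d r)) := by
  by_cases hs : Summable w
  · choose d hd using exists_d hs
    exact ⟨d, hd⟩
  · exact ⟨fun _ ↦ 0, fun r ↦ div_zero_limit hs r⟩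

theorem gcd_iff (n : ℕ) : om n = 0 ↔ Nat.gcd (a n) (L n) = 1 := by
  unfold om
  rw [Finset.card_eq_zero, Nat.primeFactors_eq_empty]
  have h : Nat.gcd (a n) (L n) ≠ 0 := (Nat.gcd_pos_of_pos_right _ (L_pos n)).ne'
  constructor
  · rintro (h1 | h1)
    · exact absurd h1 h
    · exact h1
  · exact fun h1 ↦ Or.inr h1

theorem hld_ind {r : ℕ} {d : ℝ} (hd : Tendsto (m (ind r)) atTop (𝓝 d)) :
    HasLogDensity {n : ℕ | (Nat.gcd (a n) (L n)).primeFactors.card = r} d := by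
  refine hld (fun n _ ↦ ⟨fun h ↦ ?_, fun h ↦ ?_⟩) hd
  · unfold ind
    exact if_pos h
  · unfold ind
    exact if_neg h

theorem hld_S {d : ℝ} (hd : Tendsto (m (ind 0)) atTop (𝓝 d)) :
    HasLogDensity {n : ℕ | Nat.gcd (a n) (L n) = 1} d := by
  refine hld (fun n _ ↦ ⟨fun h ↦ ?_, fun h ↦ ?_⟩) hd
  · unfold ind
    exact if_pos ((gcd_iff n).mpr h)
  · unfold ind
    exact if_neg (fun h' ↦ h ((gcd_iff n).mp h'))

end Pool.Agent.Lib.MP_62a313_nt.LD3
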