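import Mathlib
import Pool.Agent.Lib.MP_62a313_nt.LD3.Avg2
import Pool.Agent.Lib.MP_62a313_nt.LD3.Low
import Pool.Agent.Lib.MP_62a313_nt.LD3.Fin

set_option autoImplicit false

open Filter Topology MeasureTheory
open Nbb67e70a

namespace Pool.Agent.Lib.MP_62a313_nt.LD3

/-- conversion to the classical weights for bounded sequences -/
theorem conv_weights {u : ℕ → ℝ} {C d : ℝ} (hu : ∀ n, |u n| ≤ C)
    (h : Tendsto (m u) atTop (𝓝 d)) :
    Tendsto (fun N : ℕ ↦ (∑ n ∈ Finset.Icc 1 N, u n / n) / Real.log N) atTop (𝓝 d) := by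
  have hC0 : 0 ≤ C := (abs_nonneg _).trans (hu 0)
  have hell : ∀ n : ℕ, 1 ≤ n → 0 ≤ (1 : ℝ) / n - ell n ∧
      (1 : ℝ) / n - ell n ≤ 1 / n - 1 / (n + 1) := by
    intro n hn
    have hn0 : (0 : ℝ) < n := by exact_mod_cast hn
    rw [ell_eq n hn]
    have h1 : (0 : ℝ) < 1 + 1 / n := by positivity
    constructor
    · have := Real.log_le_sub_one_of_pos h1
      linarith
    · have h2 := Real.one_sub_inv_le_log_of_pos h1
      have h3 : 1 - (1 + 1 / (n : ℝ))⁻¹ = 1 / (n + 1) := by
        field_simp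
        ring
      rw [h3] at h2
      linarith
  have htel : ∀ N : ℕ, ∑ n ∈ Finset.Icc 1 N, ((1 : ℝ) / n - 1 / (n + 1)) ≤ 1 := by
    intro N
    have h1 : ∑ n ∈ Finset.Icc 1 N, ((1 : ℝ) / n - 1 / (n + 1)) = 1 - 1 / (N + 1) := by
      induction N with
      | zero => simp
      | succ N ih =>
        rw [Finset.sum_Icc_succ_top (by omega), ih]
        push_cast
        ring
    rw [h1]
    have : (0 : ℝ) ≤ 1 / ((N : ℝ) + 1) := by positivity
    linarith
  set θ : ℕ → ℝ := fun N ↦ ∑ n ∈ Finset.Icc 1 N, u n * ((1 : ℝ) / n - ell n) with hθ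
  have hθ1 : ∀ N, |θ N| ≤ C := by
    intro N
    calc |θ N| ≤ ∑ n ∈ Finset.Icc 1 N, |u n * ((1 : ℝ) / n - ell n)| :=
          Finset.abs_sum_le_sum_abs _ _
      _ ≤ ∑ n ∈ Finset.Icc 1 N, C * ((1 : ℝ) / n - 1 / (n + 1)) := by
          apply Finset.sum_le_sum
          intro n hn
          rw [Finset.mem_Icc] at hn
          have h1 := hell n hn.1
          rw [abs_mul, abs_of_nonneg h1.1]
          exact mul_le_mul (hu n) h1.2 h1.1 hC0
      _ ≤ C := by
          rw [← Finset.mul_sum]
          have := htel N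
          nlinarith
  have hsum : ∀ N : ℕ, ∑ n ∈ Finset.Icc 1 N, u n / n =
      ∑ n ∈ Finset.Icc 1 N, u n * ell n + θ N := by
    intro N
    rw [hθ]
    dsimp only
    rw [← Finset.sum_add_distrib]
    apply Finset.sum_congr rfl
    intro n _
    ring
  have hlogN : Tendsto (fun N : ℕ ↦ Real.log (N : ℝ)) atTop atTop :=
    Real.tendsto_log_atTop.comp tendsto_natCast_atTop_atTop
  have hellN : Tendsto (fun N : ℕ ↦ ell N / Real.log (N : ℝ)) atTop (𝓝 0) := by
    have hinv : Tendsto (fun N : ℕ ↦ 1 / Real.log (N : ℝ)) atTop (𝓝 0) :=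
      tendsto_const_nhds.div_atTop hlogN
    refine squeeze_zero' ?_ ?_ hinv
    · filter_upwards [hlogN.eventually_gt_atTop 0, eventually_ge_atTop 1] with N h1 h2
      exact div_nonneg (ell_nonneg N h2) h1.le
    · filter_upwards [hlogN.eventually_gt_atTop 0, eventually_ge_atTop 1] with N h1 h2
      apply div_le_div_of_nonneg_right _ h1.le
      have h3 := (hell N h2).1
      have h4 : (1 : ℝ) / N ≤ 1 := by
        rw [div_le_one (by exact_mod_cast h2)]
        exact_mod_cast h2
      linarith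
  have hthN : Tendsto (fun N : ℕ ↦ θ N / Real.log (N : ℝ)) atTop (𝓝 0) := by
    have hinv : Tendsto (fun N : ℕ ↦ C / Real.log (N : ℝ)) atTop (𝓝 0) :=
      tendsto_const_nhds.div_atTop hlogN
    rw [tendsto_zero_iff_norm_tendsto_zero]
    refine squeeze_zero' (Eventually.of_forall fun _ ↦ norm_nonneg _) ?_ hinv
    filter_upwards [hlogN.eventually_gt_atTop 0] with N h1
    rw [norm_div, Real.norm_eq_abs, Real.norm_of_nonneg h1.le]
    exact div_le_div_of_nonneg_right (hθ1 N) h1.le
  have hlim : Tendsto (fun N : ℕ ↦ m u N * (1 + ell N / Real.log (N : ℝ)) +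
      θ N / Real.log (N : ℝ)) atTop (𝓝 (d * (1 + 0) + 0)) :=
    (h.mul (tendsto_const_nhds.add hellN)).add hthN
  rw [add_zero, add_zero, mul_one] at hlim
  refine hlim.congr' ?_
  filter_upwards [hlogN.eventually_gt_atTop 0] with N h1
  rw [hsum N]
  have h2 : 0 < Real.log ((N : ℝ) + 1) := by
    rcases Nat.eq_zero_or_pos N with h0 | h0
    · subst h0; simp at h1
    · apply Real.log_pos
      have : (0 : ℝ) < N := by exact_mod_cast h0
      linarith
  unfold m ell
  field_simp
  ring

/-- the indicator of `om n < r` -/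
noncomputable def indlt (r n : ℕ) : ℝ := if om n < r then 1 else 0

theorem indlt_eq (r : ℕ) : indlt r = ∑ i ∈ Finset.range r, ind i := by
  funext n
  rw [Finset.sum_apply, sum_ind]
  rfl

theorem cR_sum {ι : Type*} (t : Finset ι) (u : ι → ℕ → ℝ) :
    cR (∑ i ∈ t, u i) = ∑ i ∈ t, cR (u i) := by
  funext n
  simp [cR]

theorem AP_sum {ι : Type*} (t : Finset ι) (u : ι → ℕ → ℂ) (h : ∀ i ∈ t, AP ⊤ (u i)) :
    AP ⊤ (∑ i ∈ t, u i) := by
  classical
  induction t using Finset.induction_on with
  | empty =>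
    rw [Finset.sum_empty]
    exact AP.const ⊤ 0
  | insert i t hi ih =>
    rw [Finset.sum_insert hi]
    exact (h i (Finset.mem_insert_self i t)).add
      (ih (fun j hj ↦ h j (Finset.mem_insert_of_mem hj)))

theorem AP_indlt (r : ℕ) : AP ⊤ (cR (indlt r)) := by
  rw [indlt_eq, cR_sum]
  exact AP_sum _ _ (fun i _ ↦ AP_ind i)

theorem s_eq (r N : ℕ) : s r N = (∑ n ∈ Finset.Icc 1 N, indlt r n) / N := by
  unfold s indlt om
  rw [Finset.card_filter]
  push_cast
  rfl

theorem cR_s (r : ℕ) : cR (s r) = avg (cR (indlt r)) := by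
  funext N
  unfold cR avg
  rw [s_eq]
  push_cast
  rfl

theorem AP_s (r : ℕ) : AP ⊤ (cR (s r)) := by
  rw [cR_s]
  exact AP_avg (AP_indlt r)

theorem s_mem (r N : ℕ) : s r N ∈ Set.Icc (0 : ℝ) 1 := by
  unfold s
  rcases Nat.eq_zero_or_pos N with h | h
  · subst h
    simp
  · have hN0 : (0 : ℝ) < N := by exact_mod_cast h
    constructor
    · positivity
    · rw [div_le_one hN0]
      have h1 := Finset.card_filter_le (Finset.Icc 1 N)
        (fun n ↦ (Nat.gcd (a n) (L n)).primeFactors.card < r)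
      rw [Nat.card_Icc, Nat.add_sub_cancel] at h1
      exact_mod_cast h1

theorem AP_poly (r : ℕ) (p : Polynomial ℝ) : AP ⊤ (cR (fun N ↦ p.eval (s r N))) := by
  induction p using Polynomial.induction_on' with
  | add p q hp hq =>
    have h1 : cR (fun N ↦ (p + q).eval (s r N)) =
        cR (fun N ↦ p.eval (s r N)) + cR (fun N ↦ q.eval (s r N)) := by
      funext N
      simp [cR]
    rw [h1]
    exact hp.add hq
  | monomial n c =>
    have h1 : ∀ n : ℕ, AP ⊤ (cR (fun N ↦ s r N ^ n)) := by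
      intro n
      induction n with
      | zero =>
        have h2 : cR (fun N ↦ s r N ^ 0) = fun _ ↦ (1 : ℂ) := by
          funext N
          simp [cR]
        rw [h2]
        exact AP.const ⊤ 1
      | succ n ih =>
        have h2 : cR (fun N ↦ s r N ^ (n + 1)) = cR (fun N ↦ s r N ^ n) * cR (s r) := by
          rw [← cR_mul]
          congr 1
        rw [h2]
        exact ih.mul (AP_s r)
    have h2 : cR (fun N ↦ (Polynomial.monomial n c).eval (s r N)) =
        (c : ℂ) • cR (fun N ↦ s r N ^ n) := by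
      funext N
      simp [cR]
    rw [h2]
    exact (h1 n).smul c

/-- existence of the logarithmic mean of every continuous function of the proportion -/
theorem exists_mean_cont (r : ℕ) {φ : ℝ → ℝ} (hφ : Continuous φ) :
    ∃ c : ℝ, Tendsto (m (fun N ↦ φ (s r N))) atTop (𝓝 c) := by
  apply exists_limit
  intro ε hε
  obtain ⟨p, hp⟩ := exists_polynomial_near_of_continuousOn 0 1 φ hφ.continuousOn ε hε
  obtain ⟨c, _, hc⟩ := (AP_poly r p).m_exists
  refine ⟨_, c, hc, ?_⟩
  filter_upwards [eventually_ge_atTop 1] with N hN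
  have h1 : ∀ n, |p.eval (s r n) - φ (s r n)| ≤ ε := fun n ↦ (hp _ (s_mem r n)).le
  rw [Real.norm_eq_abs, abs_le]
  have h2 : m (fun N ↦ φ (s r N)) N ≤ m ((fun N ↦ p.eval (s r N)) + fun _ ↦ ε) N := by
    apply m_mono
    intro n _ _
    rw [Pi.add_apply]
    have := abs_le.mp (h1 n)
    linarith [this.1]
  have h3 : m (fun N ↦ p.eval (s r N)) N ≤ m ((fun N ↦ φ (s r N)) + fun _ ↦ ε) N := by
    apply m_mono
    intro n _ _
    rw [Pi.add_apply]
    have := abs_le.mp (h1 n)
    linarith [this.2]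
  rw [m_add, m_one hN] at h2 h3
  constructor <;> linarith

/-- the logarithmic mean functional on the continuous functions on the unit interval -/
theorem exists_functional (r : ℕ) : ∃ Λ : (unitInterval → ℝ) → ℝ,
    ∀ f : unitInterval → ℝ, Continuous f →
      Tendsto (m (fun N ↦ f ⟨s r N, s_mem r N⟩)) atTop (𝓝 (Λ f)) := by
  classical
  have h1 : ∀ f : unitInterval → ℝ, ∃ c : ℝ, Continuous f →
      Tendsto (m (fun N ↦ f ⟨s r N, s_mem r N⟩)) atTop (𝓝 c) := by
    intro f
    by_cases hf : Continuous f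
    · have hg : Continuous (fun x : ℝ ↦ f (Set.projIcc 0 1 zero_le_one x)) :=
        hf.comp continuous_projIcc
      obtain ⟨c, hc⟩ := exists_mean_cont r hg
      refine ⟨c, fun _ ↦ hc.congr (fun N ↦ m_congr (fun n _ _ ↦ ?_))⟩
      congr 1
      rw [Set.projIcc_of_mem zero_le_one (s_mem r n)]
    · exact ⟨0, fun h ↦ absurd h hf⟩
  choose Λ hΛ using h1
  exact ⟨Λ, hΛ⟩

/-- the limiting distribution of the proportions in the sense of logarithmic density -/
theorem exists_law (r : ℕ) : ∃ μ : Measure unitInterval, IsProbabilityMeasure μ ∧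
    ∀ f : unitInterval → ℝ, Continuous f →
      Tendsto (m (fun N ↦ f ⟨s r N, s_mem r N⟩)) atTop (𝓝 (∫ x, f x ∂μ)) := by
  obtain ⟨Λ, hΛ⟩ := exists_functional r
  let Λ' : CompactlySupportedContinuousMap unitInterval ℝ →ₚ[ℝ] ℝ :=
  { toFun g := Λ g
    map_add' g g' := by
      have h1 := hΛ (fun x ↦ g x + g' x) (g.continuous.add g'.continuous)
      have h2 := (hΛ g g.continuous).add (hΛ g' g'.continuous)
      refine tendsto_nhds_unique h1 (h2.congr (fun N ↦ ?_))
      rw [← m_add]
      rfl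
    map_smul' c g := by
      have h1 := hΛ (fun x ↦ c * g x) (continuous_const.mul g.continuous)
      have h2 := (hΛ g g.continuous).const_mul c
      refine tendsto_nhds_unique h1 (h2.congr (fun N ↦ ?_))
      rw [← m_smul]
      rfl
    monotone' g g' hgg' := by
      refine le_of_tendsto_of_tendsto (hΛ g g.continuous) (hΛ g' g'.continuous)
        (Eventually.of_forall fun N ↦ ?_)
      exact m_mono (fun n _ _ ↦ hgg' _) }
  have hint : ∀ f : unitInterval → ℝ, Continuous f →
      ∫ x, f x ∂(RealRMK.rieszMeasure Λ') = Λ f := by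
    intro f hf
    exact RealRMK.integral_rieszMeasure Λ' ⟨⟨f, hf⟩, HasCompactSupport.of_compactSpace _⟩
  refine ⟨RealRMK.rieszMeasure Λ', ?_, ?_⟩
  · have h1 := hint (fun _ ↦ 1) continuous_const
    have h2 : Λ (fun _ ↦ 1) = 1 := by
      refine tendsto_nhds_unique (hΛ _ continuous_const) (tendsto_const_nhds.congr' ?_)
      filter_upwards [eventually_ge_atTop 1] with N hN
      rw [m_one hN]
    rw [h2, integral_const, smul_eq_mul, mul_one] at h1
    constructor
    rw [Measure.real, ENNReal.toReal_eq_one_iff] at h1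
    exact h1
  · intro f hf
    rw [hint f hf]
    exact hΛ f hf

end Pool.Agent.Lib.MP_62a313_nt.LD3
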