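import Mathlib
import Pool.Agent.Lib.MP_62a313_nt.LD3.Law
import Pool.Agent.Lib.MP_62a313_nt.LD3.Bound
import Pool.Agent.Lib.MP_62a313_nt.LD3.Cond

set_option autoImplicit false

open Filter Topology MeasureTheory
open Nbb67e70a

namespace Pool.Agent.Lib.MP_62a313_nt.LD3

theorem indlt_nonneg (r n : ℕ) : 0 ≤ indlt r n := by unfold indlt; split_ifs <;> norm_num

theorem indlt_le_one (r n : ℕ) : indlt r n ≤ 1 := by unfold indlt; split_ifs <;> norm_num

theorem sum_indlt_add (r N t : ℕ) : ∑ n ∈ Finset.Icc 1 (N + t), indlt r n ≤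
    ∑ n ∈ Finset.Icc 1 N, indlt r n + t := by
  induction t with
  | zero => simp
  | succ t ih =>
    rw [← add_assoc, Finset.sum_Icc_succ_top (by omega)]
    have := indlt_le_one r (N + t + 1)
    push_cast
    linarith

/-- the test function -/
noncomputable def tf (ε x : ℝ) : ℝ := max 0 (1 - x / ε)

theorem tf_nonneg (ε x : ℝ) : 0 ≤ tf ε x := le_max_left _ _

theorem tf_half {ε x : ℝ} (hε : 0 < ε) (hx : x ≤ ε / 2) : 1 / 2 ≤ tf ε x := by
  unfold tf
  refine le_trans ?_ (le_max_right _ _)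
  have : x / ε ≤ 1 / 2 := by
    rw [div_le_iff₀ hε]
    linarith
  linarith

theorem tf_cont (ε : ℝ) : Continuous (tf ε) := by
  unfold tf
  fun_prop

theorem low_bound (r : ℕ) {ε : ℝ} (hε : 0 < ε) (hε1 : ε ≤ 1) : ∃ K : ℕ, 2 ≤ K ∧
    ∀ J : ℕ, ε / 16 * J ≤ ∑ N ∈ Finset.Icc 1 (K ^ J), tf ε (s r N) / N := by
  obtain ⟨C, hC⟩ := many_common r (ε / 4) (by positivity)
  have hC1 : 1 ≤ C := by
    obtain ⟨N, h1, h2, _⟩ := hC 1 le_rfl
    omega
  refine ⟨4 * C, by omega, ?_⟩
  intro J
  induction J with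
  | zero =>
    simp only [Nat.cast_zero, mul_zero]
    exact Finset.sum_nonneg (fun N _ ↦ div_nonneg (tf_nonneg _ _) (Nat.cast_nonneg N))
  | succ J ih =>
    have hKJ : 1 ≤ (4 * C) ^ J := Nat.one_le_pow _ _ (by omega)
    obtain ⟨N, h1, h2, h3⟩ := hC ((4 * C) ^ J + 1) (by omega)
    have hN0 : (0 : ℝ) < N := by
      have : 1 ≤ N := by omega
      exact_mod_cast this
    set T : ℕ := ⌊ε / 4 * N⌋₊ with hT
    have hT1 : (T : ℝ) ≤ ε / 4 * N := Nat.floor_le (by positivity)
    have hT2 : ε / 4 * N < T + 1 := Nat.lt_floor_add_one _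
    have hTN : T ≤ N := by
      have : (T : ℝ) ≤ N := by nlinarith
      exact_mod_cast this
    have hend : N + T ≤ (4 * C) ^ (J + 1) := by
      calc N + T ≤ 2 * (C * ((4 * C) ^ J + 1)) := by omega
        _ ≤ 2 * (C * ((4 * C) ^ J + (4 * C) ^ J)) := by gcongr
        _ = (4 * C) ^ (J + 1) := by ring
    have hcount : ∑ n ∈ Finset.Icc 1 N, indlt r n ≤ ε / 4 * N := by
      have h4 := s_eq r N
      have h5 : s r N * N = ∑ n ∈ Finset.Icc 1 N, indlt r n := by
        rw [h4]
        field_simp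
      have h6 : s r N * N = (((Finset.Icc 1 N).filter
          (fun n ↦ (Nat.gcd (a n) (L n)).primeFactors.card < r)).card : ℝ) := by
        unfold s
        field_simp
      rw [← h5, h6]
      exact h3
    have hB : ∀ n ∈ Finset.Icc N (N + T), (1 / 2) / ((N : ℝ) + T) ≤ tf ε (s r n) / n := by
      intro n hn
      rw [Finset.mem_Icc] at hn
      obtain ⟨t, ht⟩ : ∃ t, n = N + t := ⟨n - N, by omega⟩
      have htT : t ≤ T := by omega
      have hn0 : (0 : ℝ) < n := lt_of_lt_of_le hN0 (by exact_mod_cast hn.1)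
      have h5 : s r n ≤ ε / 2 := by
        rw [s_eq, div_le_iff₀ hn0, ht]
        refine (sum_indlt_add r N t).trans ?_
        have h6 : (t : ℝ) ≤ T := by exact_mod_cast htT
        push_cast
        have h7 : (0 : ℝ) ≤ ε / 2 * t := by positivity
        nlinarith
      have h6 := tf_half hε h5
      have h7 : (n : ℝ) ≤ N + T := by exact_mod_cast hn.2
      exact div_le_div₀ (tf_nonneg _ _) h6 hn0 h7
    have hsub : Finset.Icc 1 ((4 * C) ^ J) ∪ Finset.Icc N (N + T) ⊆
        Finset.Icc 1 ((4 * C) ^ (J + 1)) := by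
      intro x hx
      rw [Finset.mem_union, Finset.mem_Icc, Finset.mem_Icc] at hx
      rw [Finset.mem_Icc]
      have hmono : (4 * C) ^ J ≤ (4 * C) ^ (J + 1) := Nat.pow_le_pow_right (by omega) (by omega)
      rcases hx with hx | hx <;> omega
    have hdisj : Disjoint (Finset.Icc 1 ((4 * C) ^ J)) (Finset.Icc N (N + T)) := by
      rw [Finset.disjoint_left]
      intro x hx hx'
      rw [Finset.mem_Icc] at hx hx'
      omega
    have h8 : ∑ n ∈ Finset.Icc 1 ((4 * C) ^ J) ∪ Finset.Icc N (N + T), tf ε (s r n) / n ≤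
        ∑ n ∈ Finset.Icc 1 ((4 * C) ^ (J + 1)), tf ε (s r n) / n :=
      Finset.sum_le_sum_of_subset_of_nonneg hsub
        (fun n _ _ ↦ div_nonneg (tf_nonneg _ _) (Nat.cast_nonneg n))
    rw [Finset.sum_union hdisj] at h8
    have h9 : ε / 16 ≤ ∑ n ∈ Finset.Icc N (N + T), tf ε (s r n) / n := by
      have h10 := Finset.sum_le_sum hB
      rw [Finset.sum_const, Nat.card_Icc, nsmul_eq_mul] at h10
      refine le_trans ?_ h10
      have h11 : N + T + 1 - N = T + 1 := by omega
      rw [h11]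
      push_cast
      rw [← mul_div_assoc, le_div_iff₀ (by positivity)]
      have h12 : (T : ℝ) ≤ N := by exact_mod_cast hTN
      nlinarith
    push_cast
    linarith

theorem exists_law_real (r : ℕ) : ∃ μ : Measure ℝ, IsProbabilityMeasure μ ∧
    μ (Set.Icc 0 1) = 1 ∧
    (∀ φ : ℝ → ℝ, Continuous φ → Tendsto (m (fun N ↦ φ (s r N))) atTop (𝓝 (∫ x, φ x ∂μ))) ∧
    (∀ φ : ℝ → ℝ, Continuous φ → Tendsto (fun X : ℕ ↦ (∑ N ∈ Finset.Icc 1 X, φ (s r N) / N) /
      Real.log X) atTop (𝓝 (∫ x, φ x ∂μ))) ∧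
    (∀ ε : ℝ, 0 < ε → 0 < μ (Set.Icc 0 ε)) := by
  obtain ⟨ν, hν, hlaw⟩ := exists_law r
  have hmeas : Measurable (Subtype.val : unitInterval → ℝ) := measurable_subtype_coe
  have hφ1 : ∀ φ : ℝ → ℝ, Continuous φ →
      Tendsto (m (fun N ↦ φ (s r N))) atTop (𝓝 (∫ x, φ x ∂(ν.map Subtype.val))) := by
    intro φ hφ
    rw [integral_map hmeas.aemeasurable hφ.aestronglyMeasurable]
    exact hlaw (fun x ↦ φ x) (hφ.comp continuous_subtype_val)
  have hφ2 : ∀ φ : ℝ → ℝ, Continuous φ → Tendsto (fun X : ℕ ↦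
      (∑ N ∈ Finset.Icc 1 X, φ (s r N) / N) / Real.log X) atTop
        (𝓝 (∫ x, φ x ∂(ν.map Subtype.val))) := by
    intro φ hφ
    obtain ⟨C, hC⟩ := isCompact_Icc.exists_bound_of_continuousOn
      (hφ.continuousOn (s := Set.Icc (0 : ℝ) 1))
    refine conv_weights (C := C) (fun n ↦ ?_) (hφ1 φ hφ)
    exact hC _ (s_mem r n)
  refine ⟨ν.map Subtype.val, Measure.isProbabilityMeasure_map hmeas.aemeasurable, ?_, hφ1, hφ2, ?_⟩
  · rw [Measure.map_apply hmeas measurableSet_Icc]
    have h1 : (Subtype.val : unitInterval → ℝ) ⁻¹' Set.Icc 0 1 = Set.univ := by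
      ext x
      simp only [Set.mem_preimage, Set.mem_univ, iff_true]
      exact x.2
    rw [h1, measure_univ]
  · -- the point zero belongs to the support
    have key : ∀ ε : ℝ, 0 < ε → ε ≤ 1 → 0 < (ν.map Subtype.val) (Set.Icc 0 ε) := by
      intro ε hε hε1
      obtain ⟨K, hK2, hK⟩ := low_bound r hε hε1
      have hlK : 0 < Real.log K := Real.log_pos (by
        have : (2 : ℝ) ≤ K := by exact_mod_cast hK2
        linarith)
      have h1 := hφ2 (tf ε) (tf_cont ε)
      have h2 : Tendsto (fun J : ℕ ↦ K ^ J) atTop atTop :=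
        tendsto_pow_atTop_atTop_of_one_lt (by omega)
      have h3 := h1.comp h2
      have h4 : ε / 16 / Real.log K ≤ ∫ x, tf ε x ∂(ν.map Subtype.val) := by
        refine ge_of_tendsto h3 ?_
        filter_upwards [eventually_ge_atTop 1] with J hJ
        rw [Function.comp_apply]
        have hJ0 : (0 : ℝ) < J := by exact_mod_cast hJ
        have h5 : Real.log ((K ^ J : ℕ) : ℝ) = J * Real.log K := by
          push_cast
          rw [Real.log_pow]
        rw [h5, div_le_div_iff₀ hlK (by positivity)]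
        have h6 := hK J
        calc ε / 16 * (J * Real.log K) = (ε / 16 * J) * Real.log K := by ring
          _ ≤ _ := mul_le_mul_of_nonneg_right h6 hlK.le
      have h5 : 0 < ∫ x, tf ε x ∂(ν.map Subtype.val) := lt_of_lt_of_le (by positivity) h4
      rw [integral_map hmeas.aemeasurable (tf_cont ε).aestronglyMeasurable] at h5
      rw [Measure.map_apply hmeas measurableSet_Icc]
      rw [pos_iff_ne_zero]
      intro h0
      have h6 : ∫ x, tf ε (x : unitInterval) ∂ν = 0 := by
        apply integral_eq_zero_of_ae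
        have h7 : ∀ᵐ x ∂ν, x ∉ (Subtype.val : unitInterval → ℝ) ⁻¹' Set.Icc 0 ε :=
          measure_eq_zero_iff_ae_notMem.mp h0
        filter_upwards [h7] with x hx
        have h8 : ε < x := by
          by_contra hc
          push Not at hc
          exact hx ⟨x.2.1, hc⟩
        have h9 : 1 - (x : ℝ) / ε ≤ 0 := by
          have : 1 ≤ (x : ℝ) / ε := by
            rw [le_div_iff₀ hε]
            linarith
          linarith
        show tf ε x = 0
        unfold tf
        exact max_eq_left h9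
      rw [h6] at h5
      exact lt_irrefl 0 h5
    intro ε hε
    rcases le_or_gt ε 1 with h | h
    · exact key ε hε h
    · refine lt_of_lt_of_le (key 1 one_pos le_rfl) (measure_mono ?_)
      exact Set.Icc_subset_Icc le_rfl h.le

theorem m_indlt_div (hs : ¬ Summable w) (r : ℕ) : Tendsto (m (indlt r)) atTop (𝓝 0) := by
  have h1 : Tendsto (fun N ↦ ∑ i ∈ Finset.range r, m (ind i) N) atTop
      (𝓝 (∑ _i ∈ Finset.range r, (0 : ℝ))) :=
    tendsto_finsetSum _ (fun i _ ↦ div_zero_limit hs i)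
  rw [Finset.sum_const_zero] at h1
  refine h1.congr (fun N ↦ ?_)
  rw [indlt_eq, m_sum]

theorem hld_indlt {r : ℕ} {d : ℝ} (hd : Tendsto (m (indlt r)) atTop (𝓝 d)) :
    HasLogDensity {n : ℕ | (Nat.gcd (a n) (L n)).primeFactors.card < r} d := by
  refine hld (fun n _ ↦ ⟨fun h ↦ ?_, fun h ↦ ?_⟩) hd
  · unfold indlt
    exact if_pos h
  · unfold indlt
    exact if_neg h

/-- the mean of the limiting distribution is the logarithmic density -/
theorem law_mean (r : ℕ) {μ : Measure ℝ}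
    (hμ : ∀ φ : ℝ → ℝ, Continuous φ → Tendsto (fun X : ℕ ↦ (∑ N ∈ Finset.Icc 1 X, φ (s r N) / N) /
      Real.log X) atTop (𝓝 (∫ x, φ x ∂μ))) :
    Tendsto (m (indlt r)) atTop (𝓝 (∫ x, x ∂μ)) := by
  obtain ⟨d, _, hd⟩ := (AP_indlt r).m_exists
  have h1 := prop_mean (hld_indlt hd)
  have h2 := hμ (fun x ↦ x) continuous_id
  have h3 : d = ∫ x, x ∂μ := by
    refine tendsto_nhds_unique h1 (h2.congr (fun X ↦ ?_))
    congr 1
    apply Finset.sum_congr rfl
    intro N _
    congr 1
    unfold s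
    congr 3
    ext n
    simp only [Finset.mem_filter]
    rfl
  rw [← h3]
  exact hd

end Pool.Agent.Lib.MP_62a313_nt.LD3
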